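import Pool.Agent.Lib.MP_42948a_nt.PS.B2

/-!
# Upper bound for the density of the rough numbers (job B2b)

`card G = φ(d)` (`ZMod.card_units_eq_totient`) and `φ(d)/d = ∏_{p ∣ d} (1 - 1/p)` (`Nat.totient_eq_mul_prod_factors`) `≤ ∏_{p ∈ PP z, p ∣ d} (1 - 1/p)`
(a subset of the factors, all factors in `[0,1]`), and `VV d z = ∏_{p ∈ PP z} (1 - gd d p) = ∏_{p ∈ PP z, ¬ p ∣ d} (1 - 1/p)`. The product is
`≤ ∏_{p ∈ PP z} (1 - 1/p) ≤ 1 / log z` (`harm`).
-/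

namespace Pool.Agent.Lib.MP_42948a_nt.PS

open Finset Pool.Agent.Lib.MP_42948a_nt.OA Pool.Agent.Lib.MP_42948a_nt.AC Pool.Agent.Lib.MP_42948a_nt.TQ

private theorem B2b_fac {p : ℕ} (hp : p.Prime) :
    0 ≤ 1 - 1 / (p : ℝ) ∧ 1 - 1 / (p : ℝ) ≤ 1 := by
  have h1 : (1 : ℝ) ≤ p := by exact_mod_cast hp.one_lt.le
  have h2 : 1 / (p : ℝ) ≤ 1 := by
    rw [div_le_one (by linarith)]
    exact h1
  have h3 : 0 ≤ 1 / (p : ℝ) := by positivity
  constructor <;> linarith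

private theorem B2b_tot (d : ℕ) [NeZero d] :
    (Fintype.card (ZMod d)ˣ : ℝ) / d = ∏ p ∈ d.primeFactors, (1 - 1 / (p : ℝ)) := by
  have h0 : (d : ℝ) ≠ 0 := by exact_mod_cast NeZero.ne d
  rw [ZMod.card_units_eq_totient, div_eq_iff h0]
  have h1 := Nat.totient_eq_mul_prod_factors d
  have h2 : ((Nat.totient d : ℚ) : ℝ) = (((d : ℚ) * ∏ p ∈ d.primeFactors, (1 - (p : ℚ)⁻¹) : ℚ) : ℝ) := by
    rw [h1]
  push_cast at h2
  rw [h2, mul_comm]
  congr 1
  exact Finset.prod_congr rfl fun p _ => by rw [one_div]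

theorem VV_upper (d : ℕ) [NeZero d] (z : ℕ) (hz : 2 ≤ z) :
    VV d z * ((Fintype.card (ZMod d)ˣ : ℝ) / d) ≤ 1 / Real.log z := by
  classical
  refine le_trans ?_ (harm z hz)
  have hPP : ∀ p ∈ PP z, p.Prime := fun p hp => (mem_filter.mp hp).2
  have hd : ∀ p ∈ d.primeFactors, p.Prime := fun p hp => Nat.prime_of_mem_primeFactors hp
  have h1 : (Fintype.card (ZMod d)ˣ : ℝ) / d ≤ ∏ p ∈ (PP z).filter (fun p => p ∣ d), (1 - 1 / (p : ℝ)) := by
    rw [B2b_tot]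
    have hsub : (PP z).filter (fun p => p ∣ d) ⊆ d.primeFactors := by
      intro p hp
      rw [mem_filter] at hp
      exact Nat.mem_primeFactors.mpr ⟨hPP p hp.1, hp.2, NeZero.ne d⟩
    rw [← Finset.prod_sdiff hsub]
    refine mul_le_of_le_one_left ?_ ?_
    · exact Finset.prod_nonneg fun p hp => (B2b_fac (hd p (hsub hp))).1
    · exact Finset.prod_le_one (fun p hp => (B2b_fac (hd p (mem_sdiff.mp hp).1)).1)
        (fun p hp => (B2b_fac (hd p (mem_sdiff.mp hp).1)).2)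
  have h2 : VV d z = ∏ p ∈ (PP z).filter (fun p => ¬ p ∣ d), (1 - 1 / (p : ℝ)) := by
    unfold VV
    rw [Finset.prod_filter]
    refine Finset.prod_congr rfl fun p _ => ?_
    unfold gd
    by_cases h : p ∣ d
    · simp [h]
    · simp [h]
  have h3 : 0 ≤ VV d z := by
    rw [h2]
    exact Finset.prod_nonneg fun p hp => (B2b_fac (hPP p (mem_filter.mp hp).1)).1
  calc VV d z * ((Fintype.card (ZMod d)ˣ : ℝ) / d)
      ≤ VV d z * ∏ p ∈ (PP z).filter (fun p => p ∣ d), (1 - 1 / (p : ℝ)) :=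
        mul_le_mul_of_nonneg_left h1 h3
    _ = ∏ p ∈ PP z, (1 - 1 / (p : ℝ)) := by
        rw [h2, mul_comm]
        exact Finset.prod_filter_mul_prod_filter_not (PP z) (fun p => p ∣ d) _

end Pool.Agent.Lib.MP_42948a_nt.PS
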