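import Pool.Agent.Lib.MP_42948a_nt.PS.B1b

/-!
# The weight of the primes in `(d^α, d^(2α)]` not dividing `d` (job B1c)

`primesOff d z1 Y` are the primes `p ≤ Y`, `z1 < p`, `¬ p ∣ d` (`OA/Defs.lean`). The primes `p ∣ d`, `p > z1 = ⌊d^α⌋`: let there be `k` of them; their product divides `d`, so
`(d^α)^k ≤ d` (`p > ⌊d^α⌋` gives `p > d^α`), `k ≤ 1/α` (`d ≥ 2`), each with `1/p ≤ d^(-α)`; together `≤ (1/α) d^(-α) ≤ 1/60` for large `d`. With `recip_interval`: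
`Wt ≥ 1/15 - 1/60 = 1/20`.
-/

namespace Pool.Agent.Lib.MP_42948a_nt.PS

open Finset Pool.Agent.Lib.MP_42948a_nt.OA Pool.Agent.Lib.MP_42948a_nt.AC Pool.Agent.Lib.MP_42948a_nt.TQ

theorem few_prime_divisors (α : ℝ) (hα : 0 < α) (d : ℕ) (hd : 2 ≤ d) :
    ((d.primeFactors.filter (fun p : ℕ => (d : ℝ) ^ α < p)).card : ℝ) ≤ 1 / α := by
  set S := d.primeFactors.filter (fun p : ℕ => (d : ℝ) ^ α < p) with hS
  have hd0 : 0 < d := by omega
  have hd1 : (1 : ℝ) < d := by exact_mod_cast (by omega : 1 < d)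
  have h1 : ∏ p ∈ S, p ∣ d := by
    refine Finset.prod_primes_dvd d (fun p hp => ?_) (fun p hp => ?_)
    · exact (Nat.prime_of_mem_primeFactors (Finset.mem_filter.1 hp).1).prime
    · exact Nat.dvd_of_mem_primeFactors (Finset.mem_filter.1 hp).1
  have h2 : ((∏ p ∈ S, p : ℕ) : ℝ) ≤ d := by exact_mod_cast Nat.le_of_dvd hd0 h1
  have h3 : ((d : ℝ) ^ α) ^ S.card ≤ ((∏ p ∈ S, p : ℕ) : ℝ) := by
    rw [Nat.cast_prod, ← Finset.prod_const]
    refine Finset.prod_le_prod (fun p _ => by positivity) (fun p hp => ?_)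
    exact (Finset.mem_filter.1 hp).2.le
  have h4 : (d : ℝ) ^ (α * S.card) ≤ (d : ℝ) ^ (1 : ℝ) := by
    rw [Real.rpow_mul (by positivity), Real.rpow_natCast, Real.rpow_one]
    exact h3.trans h2
  rw [Real.rpow_le_rpow_left_iff hd1] at h4
  rw [le_div_iff₀ hα, mul_comm]
  exact h4

private theorem B1c_large (α : ℝ) (hα : 0 < α) : ∃ d1 : ℕ, ∀ d : ℕ, d1 ≤ d →
    60 / α ≤ (d : ℝ) ^ α := by
  have h1 : Filter.Tendsto (fun d : ℕ => (d : ℝ) ^ α) Filter.atTop Filter.atTop :=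
    (tendsto_rpow_atTop hα).comp tendsto_natCast_atTop_atTop
  exact Filter.eventually_atTop.1 (h1.eventually_ge_atTop (60 / α))

theorem Wt_lower (α : ℝ) (hα : 0 < α) : ∃ d0 : ℕ, ∀ d : ℕ, d0 ≤ d →
    1 / 20 ≤ Wt (primesOff d ⌊(d : ℝ) ^ α⌋₊ ⌊(d : ℝ) ^ (2 * α)⌋₊) := by
  obtain ⟨d1, hd1⟩ := B1c_large α hα
  obtain ⟨d2, hd2⟩ := recip_interval α hα
  refine ⟨max 2 (max d1 d2), fun d hd => ?_⟩
  have e0 : 2 ≤ d := (le_max_left _ _).trans hd
  have e1 := hd1 d ((le_max_left _ _).trans ((le_max_right _ _).trans hd))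
  have e2 := hd2 d ((le_max_right _ _).trans ((le_max_right _ _).trans hd))
  set z1 := ⌊(d : ℝ) ^ α⌋₊ with hz1
  set Y := ⌊(d : ℝ) ^ (2 * α)⌋₊ with hY
  set T := (Ioc z1 Y).filter Nat.Prime with hT
  set S := d.primeFactors.filter (fun p : ℕ => (d : ℝ) ^ α < p) with hS
  have hda : 0 < (d : ℝ) ^ α := by
    have : (0 : ℝ) < d := by exact_mod_cast (by omega : 0 < d)
    positivity
  have h1 : primesOff d z1 Y = T.filter (fun p => ¬ p ∣ d) := by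
    ext p
    simp only [primesOff, hT, Finset.mem_filter, Finset.mem_Icc, Finset.mem_Ioc]
    constructor
    · rintro ⟨⟨a, b⟩, c, e, f⟩
      exact ⟨⟨⟨e, b⟩, c⟩, f⟩
    · rintro ⟨⟨⟨e, b⟩, c⟩, f⟩
      exact ⟨⟨c.one_lt.le, b⟩, c, e, f⟩
  have h2 : T.filter (fun p => p ∣ d) ⊆ S := by
    intro p hp
    simp only [hT, Finset.mem_filter, Finset.mem_Ioc] at hp
    obtain ⟨⟨⟨a, b⟩, c⟩, e⟩ := hp
    rw [hS, Finset.mem_filter]
    exact ⟨Nat.mem_primeFactors.2 ⟨c, e, by omega⟩, Nat.lt_of_floor_lt a⟩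
  have h3 : ∑ p ∈ T.filter (fun p => p ∣ d), 1 / (p : ℝ) ≤ 1 / 60 := by
    have h4 : ∑ p ∈ T.filter (fun p => p ∣ d), 1 / (p : ℝ) ≤ ∑ p ∈ S, 1 / (p : ℝ) :=
      Finset.sum_le_sum_of_subset_of_nonneg h2 fun p _ _ => by positivity
    have h5 : ∑ p ∈ S, 1 / (p : ℝ) ≤ ∑ p ∈ S, 1 / (d : ℝ) ^ α := by
      refine Finset.sum_le_sum fun p hp => ?_
      exact one_div_le_one_div_of_le hda (Finset.mem_filter.1 hp).2.le
    rw [Finset.sum_const, nsmul_eq_mul] at h5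
    have h6 : (S.card : ℝ) * (1 / (d : ℝ) ^ α) ≤ 1 / α * (1 / (60 / α)) := by
      refine mul_le_mul (few_prime_divisors α hα d e0) ?_ (by positivity) (by positivity)
      exact one_div_le_one_div_of_le (by positivity) e1
    have h7 : 1 / α * (1 / (60 / α)) = 1 / 60 := by
      field_simp
    linarith
  have h4 := Finset.sum_filter_add_sum_filter_not T (fun p => p ∣ d) (fun p : ℕ => 1 / (p : ℝ))
  unfold Wt
  rw [h1]
  linarith

end Pool.Agent.Lib.MP_42948a_nt.PS
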