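import Pool.Agent.Lib.MP_42948a_nt.PS.B1

/-!
# The reciprocals of the primes in `(d^α, d^(2α)]` (job B1b)

`z1 = ⌊d^α⌋`, `Y = ⌊d^(2α)⌋`; the octaves `(8^i z1, 8^(i+1) z1]`, `i < L`, are disjoint, and contained in `(z1, Y]` if `8^L ≤ d^α`; with
`L = ⌊α log d/log 8⌋ ≥ α log d/(3 log 2) - 1` and `log (8 * (8^i z1)) ≤ log (d^(2α)) = 2 α log d` (`i < L`): by `octave` (`z1 ≥ M0` for large `d`) the sum of
`1/p` over the primes in `(z1, Y]` is `≥ L log 2/(4 α log d) ≥ 1/12 - log 2/(4 α log d) ≥ 1/15` for large `d`.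
-/

namespace Pool.Agent.Lib.MP_42948a_nt.PS

open Finset Pool.Agent.Lib.MP_42948a_nt.OA Pool.Agent.Lib.MP_42948a_nt.AC Pool.Agent.Lib.MP_42948a_nt.TQ

private theorem B1b_oct (z : ℕ) (c : ℝ) (L : ℕ)
    (h : ∀ i < L, c ≤ ∑ p ∈ (Ioc (8 ^ i * z) (8 * (8 ^ i * z))).filter Nat.Prime, 1 / (p : ℝ)) :
    (L : ℝ) * c ≤ ∑ p ∈ (Ioc z (8 ^ L * z)).filter Nat.Prime, 1 / (p : ℝ) := by
  induction L with
  | zero => simp
  | succ L ih =>
    have h1 := ih fun i hi => h i (by omega)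
    have h2 := h L (by omega)
    have hle1 : z ≤ 8 ^ L * z := Nat.le_mul_of_pos_left z (by positivity)
    have hle2 : 8 ^ L * z ≤ 8 * (8 ^ L * z) := Nat.le_mul_of_pos_left _ (by norm_num)
    have e1 : (8 : ℕ) ^ (L + 1) * z = 8 * (8 ^ L * z) := by ring
    have e2 : (Ioc z (8 ^ (L + 1) * z)).filter Nat.Prime =
        (Ioc z (8 ^ L * z)).filter Nat.Prime ∪ (Ioc (8 ^ L * z) (8 * (8 ^ L * z))).filter Nat.Prime := by
      rw [← filter_union, e1, Ioc_union_Ioc_eq_Ioc hle1 hle2]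
    have hdis : Disjoint ((Ioc z (8 ^ L * z)).filter Nat.Prime)
        ((Ioc (8 ^ L * z) (8 * (8 ^ L * z))).filter Nat.Prime) := by
      rw [Finset.disjoint_left]
      intro p hp hp'
      rw [mem_filter, mem_Ioc] at hp hp'
      omega
    rw [e2, sum_union hdis]
    push_cast
    linarith

theorem recip_interval (α : ℝ) (hα : 0 < α) : ∃ d0 : ℕ, ∀ d : ℕ, d0 ≤ d →
    1 / 15 ≤ ∑ p ∈ (Ioc ⌊(d : ℝ) ^ α⌋₊ ⌊(d : ℝ) ^ (2 * α)⌋₊).filter Nat.Prime, 1 / (p : ℝ) := by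
  obtain ⟨M0, hM0⟩ := octave
  have t1 : Filter.Tendsto (fun d : ℕ => (d : ℝ) ^ α) Filter.atTop Filter.atTop :=
    (tendsto_rpow_atTop hα).comp tendsto_natCast_atTop_atTop
  have t2 : Filter.Tendsto (fun d : ℕ => Real.log (d : ℝ)) Filter.atTop Filter.atTop :=
    Real.tendsto_log_atTop.comp tendsto_natCast_atTop_atTop
  obtain ⟨d1, h1⟩ := Filter.eventually_atTop.1 (t1.eventually_ge_atTop ((M0 : ℝ) + 2))
  obtain ⟨d2, h2⟩ := Filter.eventually_atTop.1 (t2.eventually_ge_atTop (15 * Real.log 2 / α + 1))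
  refine ⟨d1 + d2 + 2, fun d hd => ?_⟩
  have hα1 := h1 d (by omega)
  have hlog := h2 d (by omega)
  have hl2 : 0 < Real.log 2 := Real.log_pos (by norm_num)
  have hlogd : 0 < Real.log (d : ℝ) := lt_of_lt_of_le (by positivity) hlog
  have hdpos : (0 : ℝ) < d := by
    have : 0 < d := by omega
    exact_mod_cast this
  obtain ⟨z, hz⟩ : ∃ z : ℕ, z = ⌊(d : ℝ) ^ α⌋₊ := ⟨_, rfl⟩
  obtain ⟨Y, hY⟩ : ∃ Y : ℕ, Y = ⌊(d : ℝ) ^ (2 * α)⌋₊ := ⟨_, rfl⟩
  obtain ⟨L, hL⟩ : ∃ L : ℕ, L = ⌊α * Real.log d / Real.log 8⌋₊ := ⟨_, rfl⟩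
  rw [← hz, ← hY]
  have hl8 : Real.log 8 = 3 * Real.log 2 := by
    rw [show (8 : ℝ) = 2 ^ 3 by norm_num, Real.log_pow]
    norm_num
  have hzle : (z : ℝ) ≤ (d : ℝ) ^ α := by rw [hz]; exact Nat.floor_le (by positivity)
  have hzM : M0 + 2 ≤ z := by
    rw [hz]
    apply Nat.le_floor
    push_cast
    exact hα1
  have hL1 : (L : ℝ) * Real.log 8 ≤ α * Real.log d := by
    rw [← le_div_iff₀ (by rw [hl8]; positivity), hL]
    exact Nat.floor_le (by rw [hl8]; positivity)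
  have hL2 : α * Real.log d / (3 * Real.log 2) - 1 ≤ (L : ℝ) := by
    rw [hL, ← hl8]
    exact (Nat.sub_one_lt_floor _).le
  have h8L : (8 : ℝ) ^ L ≤ (d : ℝ) ^ α := by
    rw [← Real.exp_log (show (0 : ℝ) < 8 ^ L by positivity), Real.log_pow, Real.rpow_def_of_pos hdpos]
    exact Real.exp_le_exp.2 (by rw [mul_comm (Real.log (d : ℝ))]; exact hL1)
  have hpow2 : (d : ℝ) ^ (2 * α) = (d : ℝ) ^ α * (d : ℝ) ^ α := by
    rw [← Real.rpow_add hdpos]
    congr 1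
    ring
  have hLY : 8 ^ L * z ≤ Y := by
    rw [hY]
    apply Nat.le_floor
    push_cast
    rw [hpow2]
    exact mul_le_mul h8L hzle (Nat.cast_nonneg _) (by positivity)
  have hblock : ∀ i < L, Real.log 2 / (2 * (2 * α * Real.log d)) ≤
      ∑ p ∈ (Ioc (8 ^ i * z) (8 * (8 ^ i * z))).filter Nat.Prime, 1 / (p : ℝ) := by
    intro i hi
    have hz1 : z ≤ 8 ^ i * z := Nat.le_mul_of_pos_left z (by positivity)
    have g := hM0 (8 ^ i * z) (by omega)
    refine le_trans ?_ g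
    have hM1 : (1 : ℝ) ≤ ((8 ^ i * z : ℕ) : ℝ) := by exact_mod_cast (by omega : 1 ≤ 8 ^ i * z)
    have hlogpos : 0 < Real.log (8 * ((8 ^ i * z : ℕ) : ℝ)) := Real.log_pos (by linarith)
    have hup : Real.log (8 * ((8 ^ i * z : ℕ) : ℝ)) ≤ 2 * α * Real.log d := by
      have e1 : 8 * ((8 ^ i * z : ℕ) : ℝ) ≤ (d : ℝ) ^ (2 * α) := by
        rw [hpow2]
        have e2 : (8 : ℝ) ^ (i + 1) ≤ 8 ^ L := pow_le_pow_right₀ (by norm_num) (by omega)
        have e3 : 8 * ((8 ^ i * z : ℕ) : ℝ) = 8 ^ (i + 1) * (z : ℝ) := by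
          push_cast
          ring
        rw [e3]
        exact mul_le_mul (e2.trans h8L) hzle (Nat.cast_nonneg _) (by positivity)
      have e4 := Real.log_le_log (by linarith) e1
      rwa [Real.log_rpow hdpos] at e4
    exact div_le_div_of_nonneg_left hl2.le (by linarith) (by linarith)
  have hsum := B1b_oct z _ L hblock
  have hsub : ∑ p ∈ (Ioc z (8 ^ L * z)).filter Nat.Prime, 1 / (p : ℝ) ≤
      ∑ p ∈ (Ioc z Y).filter Nat.Prime, 1 / (p : ℝ) := by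
    refine sum_le_sum_of_subset_of_nonneg ?_ fun p _ _ => by positivity
    exact filter_subset_filter _ (Ioc_subset_Ioc_right hLY)
  refine le_trans ?_ (hsum.trans hsub)
  have hc0 : 0 ≤ Real.log 2 / (2 * (2 * α * Real.log d)) := by positivity
  have g1 := mul_le_mul_of_nonneg_right hL2 hc0
  refine le_trans ?_ g1
  have g2 : (α * Real.log d / (3 * Real.log 2) - 1) * (Real.log 2 / (2 * (2 * α * Real.log d))) =
      1 / 12 - Real.log 2 / (4 * (α * Real.log d)) := by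
    field_simp
    ring
  rw [g2]
  have g3 : Real.log 2 / (4 * (α * Real.log d)) ≤ 1 / 60 := by
    rw [div_le_div_iff₀ (by positivity) (by norm_num)]
    have g4 : 15 * Real.log 2 / α ≤ Real.log d := by linarith
    rw [div_le_iff₀ hα] at g4
    linarith
  linarith

end Pool.Agent.Lib.MP_42948a_nt.PS
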