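import Pool.Agent.Lib.MP_42948a_nt.PS.B6

/-!
# Few characters have a large average over the primes (job B6c)

`C` and `d0` from `moment_log`; take the `d0` also so large that `d^(α/8) ≥ 2`. Let `Ξ` be any set with `v ≤ ‖Pa U χ‖` on `Ξ`. If `#Ξ ≤ d^(α/8)` then `#Ξ v^(2k) ≤ C`.
Otherwise take a subset `Ξ' ⊆ Ξ` with `#Ξ' = ⌊d^(α/8)⌋` (`Finset.exists_subset_card_eq`): `#Ξ' v^(2k) ≤ C` and `#Ξ' ≥ d^(α/8) - 1 ≥ d^(α/8)/2`, contradicting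
`2 C < v^(2k) d^(α/8)`.
-/

namespace Pool.Agent.Lib.MP_42948a_nt.PS

open Finset Pool.Agent.Lib.MP_42948a_nt.OA Pool.Agent.Lib.MP_42948a_nt.AC Pool.Agent.Lib.MP_42948a_nt.TQ

theorem few_large (α : ℝ) (hα : 0 < α) (hα1 : α ≤ 1) (k : ℕ) (hk : 1 / 2 + α ≤ k * α) :
    ∃ C : ℝ, 0 < C ∧ ∃ d0 : ℕ, ∀ d : ℕ, d0 ≤ d → ∀ [NeZero d], ∀ v : ℝ, 0 < v → 2 * C < v ^ (2 * k) * (d : ℝ) ^ (α / 8) →
      ∀ Ξ : Finset (DirichletCharacter ℂ d),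
      (∀ χ ∈ Ξ, v ≤ ‖Pa (primesOff d ⌊(d : ℝ) ^ α⌋₊ ⌊(d : ℝ) ^ (2 * α)⌋₊) χ‖) →
      (Ξ.card : ℝ) * v ^ (2 * k) ≤ C := by
  obtain ⟨C, hC, d0, h0⟩ := moment_log α hα hα1 k hk
  refine ⟨C, hC, max d0 ⌈(2 : ℝ) ^ (8 / α)⌉₊, fun d hd hne v hv hv2 Ξ hΞ => ?_⟩
  have hd1 : d0 ≤ d := le_trans (le_max_left _ _) hd
  have hd2 : (2 : ℝ) ^ (8 / α) ≤ d :=
    le_trans (Nat.le_ceil _) (by exact_mod_cast le_trans (le_max_right _ _) hd)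
  have hD : (2 : ℝ) ≤ (d : ℝ) ^ (α / 8) := by
    have h1 : ((2 : ℝ) ^ (8 / α)) ^ (α / 8) ≤ (d : ℝ) ^ (α / 8) :=
      Real.rpow_le_rpow (by positivity) hd2 (by positivity)
    have h2 : ((2 : ℝ) ^ (8 / α)) ^ (α / 8) = 2 := by
      rw [← Real.rpow_mul (by norm_num)]
      have h3 : 8 / α * (α / 8) = 1 := by field_simp
      rw [h3, Real.rpow_one]
    rw [h2] at h1
    exact h1
  have key : ∀ Ξ' : Finset (DirichletCharacter ℂ d), Ξ' ⊆ Ξ →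
      (Ξ'.card : ℝ) ≤ (d : ℝ) ^ (α / 8) → (Ξ'.card : ℝ) * v ^ (2 * k) ≤ C := by
    intro Ξ' hs hc
    have h1 := h0 d hd1 Ξ' hc
    have h2 : ∑ _χ ∈ Ξ', v ^ (2 * k) ≤
        ∑ χ ∈ Ξ', ‖Pa (primesOff d ⌊(d : ℝ) ^ α⌋₊ ⌊(d : ℝ) ^ (2 * α)⌋₊) χ‖ ^ (2 * k) :=
      Finset.sum_le_sum fun χ hχ => pow_le_pow_left₀ hv.le (hΞ χ (hs hχ)) _
    rw [Finset.sum_const, nsmul_eq_mul] at h2
    exact le_trans h2 h1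
  rcases le_or_gt (Ξ.card : ℝ) ((d : ℝ) ^ (α / 8)) with hc | hc
  · exact key Ξ (Finset.Subset.refl _) hc
  · exfalso
    have hD0 : (0 : ℝ) ≤ (d : ℝ) ^ (α / 8) := by positivity
    have hn1 : ((⌊(d : ℝ) ^ (α / 8)⌋₊ : ℕ) : ℝ) ≤ (d : ℝ) ^ (α / 8) := Nat.floor_le hD0
    have hn2 : (d : ℝ) ^ (α / 8) < ((⌊(d : ℝ) ^ (α / 8)⌋₊ : ℕ) : ℝ) + 1 := Nat.lt_floor_add_one _
    have hn3 : ⌊(d : ℝ) ^ (α / 8)⌋₊ ≤ Ξ.card := by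
      have : ((⌊(d : ℝ) ^ (α / 8)⌋₊ : ℕ) : ℝ) ≤ (Ξ.card : ℝ) := le_trans hn1 hc.le
      exact_mod_cast this
    obtain ⟨T, hT, hTc⟩ := Finset.exists_subset_card_eq hn3
    have h1 := key T hT (by rw [hTc]; exact hn1)
    rw [hTc] at h1
    have h2 : 0 < v ^ (2 * k) := pow_pos hv _
    have h3 : (d : ℝ) ^ (α / 8) ≤ 2 * ((⌊(d : ℝ) ^ (α / 8)⌋₊ : ℕ) : ℝ) := by linarith
    have h4 := mul_le_mul_of_nonneg_left h3 h2.le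
    linarith

end Pool.Agent.Lib.MP_42948a_nt.PS
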