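import Pool.Agent.Lib.MP_42948a_nt.PS.Defs
import Pool.Agent.Lib.MP_42948a_nt.TQ.B2

/-!
# The random walk operator `Sh` (job A1)

`Sh U f g = (∑_{u ∈ U} (1/u) f (g * ucl u)) / Wt U`; all weights `1/u` are `≥ 0`, so `Wt U ≥ 0` (if `Wt U = 0` then `Sh U f = 0` by division by zero).
`Sh_le_one`: `∑ (1/u) f ≤ Wt U` and `div_le_one_of_le₀`. `Sh_sum`: exchange the sums, `∑_g f (g * ucl u) = ∑_g f g` (`Equiv.mulRight`), divide.
`SF_Sh`: `SF (Sh U f) χ = (1/W) ∑_u (1/u) ∑_c f (c * ucl u) conj (ev χ c)`; substitute `c' = c * ucl u` (`c = c' * (ucl u)⁻¹`):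
`conj (ev χ (c' * (ucl u)⁻¹)) = conj (ev χ c') * ev χ (ucl u)` (`ev_mul`, `conj_ev`: `conj (ev χ (ucl u)⁻¹) = ev χ (ucl u)`), and `ev χ (ucl u) = χ u` (`ucl_val`).
`norm_Pa_le`: `‖χ u‖ ≤ 1` (`DirichletCharacter.norm_le_one`), triangle inequality, `norm_div`, `div_le_one_of_le₀`.
`iter_*`: induction on `j` (`Function.iterate_succ_apply'`).
-/

namespace Pool.Agent.Lib.MP_42948a_nt.PS

open Finset Pool.Agent.Lib.MP_42948a_nt.OA Pool.Agent.Lib.MP_42948a_nt.AC Pool.Agent.Lib.MP_42948a_nt.TQ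

private theorem A1_w (u : ℕ) : (0 : ℝ) ≤ 1 / (u : ℝ) := one_div_nonneg.2 (Nat.cast_nonneg u)

theorem Wt_nonneg (U : Finset ℕ) : 0 ≤ Wt U :=
  Finset.sum_nonneg fun u _ => A1_w u

theorem Sh_nonneg {d : ℕ} (U : Finset ℕ) (f : (ZMod d)ˣ → ℝ) (hf : ∀ c, 0 ≤ f c) (g : (ZMod d)ˣ) : 0 ≤ Sh U f g :=
  div_nonneg (Finset.sum_nonneg fun u _ => mul_nonneg (A1_w u) (hf _)) (Wt_nonneg U)

theorem Sh_le_one {d : ℕ} (U : Finset ℕ) (f : (ZMod d)ˣ → ℝ) (hf : ∀ c, f c ≤ 1) (g : (ZMod d)ˣ) : Sh U f g ≤ 1 := by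
  refine div_le_one_of_le₀ (Finset.sum_le_sum fun u _ => ?_) (Wt_nonneg U)
  exact mul_le_of_le_one_right (A1_w u) (hf _)

theorem Sh_sum {d : ℕ} [NeZero d] (U : Finset ℕ) (hU : 0 < Wt U) (f : (ZMod d)ˣ → ℝ) : ∑ g, Sh U f g = ∑ g, f g := by
  unfold Sh
  rw [← Finset.sum_div, Finset.sum_comm]
  have h1 : ∀ u ∈ U, ∑ g : (ZMod d)ˣ, 1 / (u : ℝ) * f (g * ucl d u) = 1 / (u : ℝ) * ∑ g : (ZMod d)ˣ, f g := by
    intro u _
    rw [← Finset.mul_sum]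
    congr 1
    exact Fintype.sum_equiv (Equiv.mulRight (ucl d u)) _ _ fun g => rfl
  rw [Finset.sum_congr rfl h1, ← Finset.sum_mul]
  show Wt U * _ / Wt U = _
  field_simp

private theorem A1_core {d : ℕ} [NeZero d] {u : ℕ} (hu : u.Coprime d) (f : (ZMod d)ˣ → ℝ)
    (χ : DirichletCharacter ℂ d) :
    ∑ c : (ZMod d)ˣ, (f (c * ucl d u) : ℂ) * (starRingEnd ℂ) (ev χ c) = χ (u : ZMod d) * SF f χ := by
  have h1 : ∀ c : (ZMod d)ˣ, (f (c * ucl d u) : ℂ) * (starRingEnd ℂ) (ev χ c) =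
      χ (u : ZMod d) * ((f (c * ucl d u) : ℂ) * (starRingEnd ℂ) (ev χ (c * ucl d u))) := by
    intro c
    have h2 : ev χ (ucl d u) = χ (u : ZMod d) := by
      unfold ev
      rw [ucl_val hu]
    have h3 : χ (u : ZMod d) * (starRingEnd ℂ) (ev χ (ucl d u)) = 1 := by
      rw [← h2, conj_ev, ← ev_mul, mul_inv_cancel, ev_one]
    rw [ev_mul, map_mul]
    calc (f (c * ucl d u) : ℂ) * (starRingEnd ℂ) (ev χ c)
        = (f (c * ucl d u) : ℂ) * (starRingEnd ℂ) (ev χ c) *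
          (χ (u : ZMod d) * (starRingEnd ℂ) (ev χ (ucl d u))) := by rw [h3, mul_one]
      _ = _ := by ring
  rw [Finset.sum_congr rfl fun c _ => h1 c, ← Finset.mul_sum]
  congr 1
  unfold SF
  exact Fintype.sum_equiv (Equiv.mulRight (ucl d u)) _ _ fun g => rfl

theorem SF_Sh {d : ℕ} [NeZero d] (U : Finset ℕ) (hU : ∀ u ∈ U, u.Coprime d) (f : (ZMod d)ˣ → ℝ)
    (χ : DirichletCharacter ℂ d) : SF (Sh U f) χ = Pa U χ * SF f χ := by
  have h1 : SF (Sh U f) χ = (∑ u ∈ U, ((1 / (u : ℝ) : ℝ) : ℂ) *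
      ∑ c : (ZMod d)ˣ, (f (c * ucl d u) : ℂ) * (starRingEnd ℂ) (ev χ c)) / ((Wt U : ℝ) : ℂ) := by
    have h2 : ∀ c : (ZMod d)ˣ, ((Sh U f c : ℝ) : ℂ) * (starRingEnd ℂ) (ev χ c) =
        (∑ u ∈ U, ((1 / (u : ℝ) : ℝ) : ℂ) * ((f (c * ucl d u) : ℂ) * (starRingEnd ℂ) (ev χ c))) /
          ((Wt U : ℝ) : ℂ) := by
      intro c
      unfold Sh
      rw [Complex.ofReal_div, Complex.ofReal_sum, div_mul_eq_mul_div, Finset.sum_mul]
      congr 1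
      refine Finset.sum_congr rfl fun u _ => ?_
      rw [Complex.ofReal_mul, mul_assoc]
    rw [SF, Finset.sum_congr rfl fun c _ => h2 c, ← Finset.sum_div, Finset.sum_comm]
    congr 1
    refine Finset.sum_congr rfl fun u _ => ?_
    rw [Finset.mul_sum]
  rw [h1, Pa, div_mul_eq_mul_div, Finset.sum_mul]
  congr 1
  refine Finset.sum_congr rfl fun u hu => ?_
  rw [A1_core (hU u hu), mul_assoc]

theorem norm_Pa_le {d : ℕ} (U : Finset ℕ) (χ : DirichletCharacter ℂ d) : ‖Pa U χ‖ ≤ 1 := by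
  unfold Pa
  rw [norm_div, Complex.norm_real, Real.norm_of_nonneg (Wt_nonneg U)]
  refine div_le_one_of_le₀ ((norm_sum_le _ _).trans (Finset.sum_le_sum fun u _ => ?_)) (Wt_nonneg U)
  rw [norm_mul, Complex.norm_real, Real.norm_of_nonneg (A1_w u)]
  exact mul_le_of_le_one_right (A1_w u) (DirichletCharacter.norm_le_one χ _)

theorem iter_basic {d : ℕ} [NeZero d] (U : Finset ℕ) (hU : 0 < Wt U) (f : (ZMod d)ˣ → ℝ) (hf0 : ∀ c, 0 ≤ f c)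
    (hf1 : ∀ c, f c ≤ 1) (j : ℕ) :
    (∀ c, 0 ≤ (Sh U)^[j] f c) ∧ (∀ c, (Sh U)^[j] f c ≤ 1) ∧ ∑ c, (Sh U)^[j] f c = ∑ c, f c := by
  induction j with
  | zero => exact ⟨hf0, hf1, rfl⟩
  | succ j ih =>
    obtain ⟨h1, h2, h3⟩ := ih
    rw [Function.iterate_succ_apply']
    exact ⟨Sh_nonneg U _ h1, Sh_le_one U _ h2, (Sh_sum U hU _).trans h3⟩

theorem iter_SF {d : ℕ} [NeZero d] (U : Finset ℕ) (hU : ∀ u ∈ U, u.Coprime d) (f : (ZMod d)ˣ → ℝ)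
    (χ : DirichletCharacter ℂ d) (j : ℕ) : SF ((Sh U)^[j] f) χ = Pa U χ ^ j * SF f χ := by
  induction j with
  | zero => rw [pow_zero, one_mul, Function.iterate_zero, id_eq]
  | succ j ih =>
    rw [Function.iterate_succ_apply', SF_Sh U hU, ih, pow_succ]
    ring

end Pool.Agent.Lib.MP_42948a_nt.PS
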