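import Pool.Agent.Lib.MP_42948a_nt.PS.Defs

/-!
# Purity along the random walk (job A2)

`pure_step`: if `Sh U f c ≠ 0` then some term `(1/u) * f (c * ucl u)` is nonzero (`Finset.sum_eq_zero`), so `f (c * ucl d u) ≠ 0` and the class
`c * ucl d u` is `PurA` at `X` with the sign `σ`. Let `n ≤ X'` be rough of class `c`. Then `n u` is rough (`Rough.mul`, `u` is a prime `> z`, so
`Rough z u`: `Nat.prime_dvd_prime_iff_eq`), `n u ≤ X' Y ≤ X`, of class `c * ucl d u` (`ucl_val`), so `lio (n u) = σ` and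
`lio n * lio u = σ`, `lio u = -1` (`lio_mul`, `lio_prime`), `lio n = -σ`.
`pure_iter`: induction on `j` (`Function.iterate_succ_apply'`), with `Y^j * X' ≤ X`: apply the induction hypothesis with `X'` replaced by `Y * X'`
(`Y^j * (Y * X') = Y^(j+1) * X' ≤ X`) and `pure_step`.
-/

namespace Pool.Agent.Lib.MP_42948a_nt.PS

open Finset Pool.Agent.Lib.MP_42948a_nt.OA Pool.Agent.Lib.MP_42948a_nt.AC Pool.Agent.Lib.MP_42948a_nt.TQ

theorem pure_step {d : ℕ} (z Y X X' : ℕ) (U : Finset ℕ) (hU : ∀ u ∈ U, u.Prime ∧ z < u ∧ u ≤ Y ∧ u.Coprime d)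
    (hX : Y * X' ≤ X) (f : (ZMod d)ˣ → ℝ) (σ : ℝ) (hf : ∀ c, f c ≠ 0 → PurA d z X σ c) :
    ∀ c, Sh U f c ≠ 0 → PurA d z X' (-σ) c := by
  intro c hc n hn1 hn2 hn3
  have h1 : ∃ u ∈ U, f (c * ucl d u) ≠ 0 := by
    by_contra hcon
    push Not at hcon
    apply hc
    unfold Sh
    rw [sum_eq_zero fun u hu => by rw [hcon u hu, mul_zero], zero_div]
  obtain ⟨u, hu, hfu⟩ := h1
  obtain ⟨u1, u2, u3, u4⟩ := hU u hu
  have hru : Rough z u := by
    refine ⟨u1.pos, fun p hp hpu => ?_⟩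
    rw [(Nat.prime_dvd_prime_iff_eq hp u1).1 hpu]
    exact u2
  have h2 := hf _ hfu (n * u) (hn1.mul hru) ((Nat.mul_le_mul hn2 u3).trans (by rw [mul_comm]; exact hX)) (by
    rw [Nat.cast_mul, hn3, Units.val_mul, ucl_val u4])
  rw [lio_mul hn1.pos u1.pos, lio_prime u1] at h2
  linarith

theorem pure_iter {d : ℕ} (z Y X : ℕ) (U : Finset ℕ) (hU : ∀ u ∈ U, u.Prime ∧ z < u ∧ u ≤ Y ∧ u.Coprime d)
    (f : (ZMod d)ˣ → ℝ) (σ : ℝ) (hf : ∀ c, f c ≠ 0 → PurA d z X σ c) (j : ℕ) :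
    ∀ X' : ℕ, Y ^ j * X' ≤ X → ∀ c, (Sh U)^[j] f c ≠ 0 → PurA d z X' ((-1) ^ j * σ) c := by
  induction j with
  | zero =>
    intro X' hX' c hc n hn1 hn2 hn3
    rw [pow_zero, one_mul] at hX'
    rw [pow_zero, one_mul]
    exact hf c hc n hn1 (hn2.trans hX') hn3
  | succ j ih =>
    intro X' hX' c hc
    rw [Function.iterate_succ_apply'] at hc
    have h1 := pure_step z Y (Y * X') X' U hU le_rfl ((Sh U)^[j] f) ((-1) ^ j * σ)
      (ih (Y * X') (by rw [← mul_assoc, ← pow_succ]; exact hX')) c hc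
    have h2 : (-1 : ℝ) ^ (j + 1) * σ = -((-1) ^ j * σ) := by ring
    rw [h2]
    exact h1

end Pool.Agent.Lib.MP_42948a_nt.PS
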