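import Pool.Agent.Lib.MP_42948a_nt.PS.Defs
import Pool.Agent.Lib.MP_42948a_nt.TQ.M1

/-!
# Fourth moment and bilinear sums (job A3)

`rp_sum`: every pair `(a, b) ∈ A × B` has exactly one class `ucl d (a b)` and `((a b : ℕ) : ZMod d) = (c : ZMod d)` iff `ucl d (a b) = c` (`a b` is
coprime to `d`; `ucl_val`, `ucl_eq`); copy the proof of `M1_sum` (`TQ/M1.lean`).
`fourth`: `(AR A f χ)^2 = ∑_{(a,b) ∈ A × A} f a f b ev χ (ucl (a b)) = ∑_c r c * ev χ c` with `r c = ∑_{(a,b), ucl (a b) = c} f a f b` (`ucl_mul`, `ev_mul`,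
`ev χ (ucl a) = χ a`), `|r c| ≤ rp d A A c ≤ rp d R R c`. `parseval_gen` (`TQ/B2.lean`): `∑_χ ‖AR A f χ‖^4 = φ ∑_c ‖r c‖^2 ≤ φ ∑_c rp^2` and
`rp^2 ≤ ((1+τ) m + Er)^2 ≤ 2 (1.1)^2 m^2 + 2 Er^2`, `∑_c ≤ (2.42 + 0.02) m^2 φ ≤ 4 m^2 φ`.
`bil_bounds`: `∑_{A×R} f = ∑_c rp c * f c` (`rp_sum`), `|rp - m| ≤ τ m + Er`, and by Cauchy-Schwarz
`∑ Er f ≤ √(∑ Er^2) √(∑ f^2) ≤ τ m √(∑ f) √(∑ f)` (`f^2 ≤ f`).
`bil_fourier`: `inversion` (`TQ/B2.lean`): `φ f c = ∑_χ SF f χ * ev χ c`; `ev χ (ucl (a b)) = χ a * χ b`.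
-/

namespace Pool.Agent.Lib.MP_42948a_nt.PS

open Finset Pool.Agent.Lib.MP_42948a_nt.OA Pool.Agent.Lib.MP_42948a_nt.AC Pool.Agent.Lib.MP_42948a_nt.TQ

theorem A3_card {d : ℕ} [NeZero d] [DecidableEq (ZMod d)ˣ] (A B : Finset ℕ)
    (hA : ∀ a ∈ A, a.Coprime d) (hB : ∀ b ∈ B, b.Coprime d) (c : (ZMod d)ˣ) :
    ((A ×ˢ B).filter (fun q => ucl d (q.1 * q.2) = c)).card = rp d A B c := by
  unfold rp
  congr 1
  apply Finset.filter_congr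
  intro q hq
  have hq1 := Finset.mem_product.1 hq
  have hc : (q.1 * q.2).Coprime d := Nat.Coprime.mul_left (hA _ hq1.1) (hB _ hq1.2)
  constructor
  · intro h3
    rw [← h3, ucl_val hc]
  · intro h3
    exact ucl_eq hc h3

theorem rp_sum {S : Type*} [Semiring S] {d : ℕ} [NeZero d] (A B : Finset ℕ) (hA : ∀ a ∈ A, a.Coprime d)
    (hB : ∀ b ∈ B, b.Coprime d) (h : (ZMod d)ˣ → S) :
    ∑ q ∈ A ×ˢ B, h (ucl d (q.1 * q.2)) = ∑ c, (rp d A B c : S) * h c := by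
  classical
  rw [← Finset.sum_fiberwise (A ×ˢ B) (fun q => ucl d (q.1 * q.2)) (fun q => h (ucl d (q.1 * q.2)))]
  apply Finset.sum_congr rfl
  intro c _
  have h1 : ∑ q ∈ (A ×ˢ B).filter (fun q => ucl d (q.1 * q.2) = c), h (ucl d (q.1 * q.2)) =
      ∑ q ∈ (A ×ˢ B).filter (fun q => ucl d (q.1 * q.2) = c), h c := by
    apply Finset.sum_congr rfl
    intro q hq
    rw [(Finset.mem_filter.1 hq).2]
  rw [h1, Finset.sum_const, nsmul_eq_mul, A3_card A B hA hB c]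

theorem A3_mul {d : ℕ} (χ : DirichletCharacter ℂ d) {a b : ℕ} (ha : a.Coprime d) (hb : b.Coprime d) :
    ev χ (ucl d (a * b)) = χ (a : ZMod d) * χ (b : ZMod d) := by
  rw [ev, ucl_val (Nat.Coprime.mul_left ha hb), Nat.cast_mul, map_mul]

/-- coefficients of the square of a character sum -/
noncomputable def A3_r (d : ℕ) (A : Finset ℕ) (f : ℕ → ℝ) (c : (ZMod d)ˣ) : ℂ :=
  open Classical in
  ∑ q ∈ (A ×ˢ A).filter (fun q => ucl d (q.1 * q.2) = c), (f q.1 : ℂ) * (f q.2 : ℂ)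

theorem A3_sq {d : ℕ} [NeZero d] (A : Finset ℕ) (hA : ∀ a ∈ A, a.Coprime d) (f : ℕ → ℝ)
    (χ : DirichletCharacter ℂ d) : AR A f χ ^ 2 = ∑ c, A3_r d A f c * ev χ c := by
  classical
  have h1 : AR A f χ ^ 2 = ∑ q ∈ A ×ˢ A, ((f q.1 : ℂ) * (f q.2 : ℂ)) * ev χ (ucl d (q.1 * q.2)) := by
    rw [sq, AR, Finset.sum_mul_sum, Finset.sum_product]
    apply Finset.sum_congr rfl
    intro a ha
    apply Finset.sum_congr rfl
    intro b hb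
    rw [A3_mul χ (hA a ha) (hA b hb)]
    ring
  rw [h1, ← Finset.sum_fiberwise (A ×ˢ A) (fun q => ucl d (q.1 * q.2))
    (fun q => ((f q.1 : ℂ) * (f q.2 : ℂ)) * ev χ (ucl d (q.1 * q.2)))]
  apply Finset.sum_congr rfl
  intro c _
  unfold A3_r
  rw [Finset.sum_mul]
  apply Finset.sum_congr rfl
  intro q hq
  rw [(Finset.mem_filter.1 hq).2]

theorem A3_norm {d : ℕ} [NeZero d] (R A : Finset ℕ) (hR : ∀ a ∈ R, a.Coprime d) (hAR : A ⊆ R) (f : ℕ → ℝ)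
    (hf : ∀ a, |f a| ≤ 1) (c : (ZMod d)ˣ) : ‖A3_r d A f c‖ ≤ (rp d R R c : ℝ) := by
  classical
  unfold A3_r
  refine (norm_sum_le _ _).trans ?_
  have h1 : ∑ q ∈ (A ×ˢ A).filter (fun q => ucl d (q.1 * q.2) = c), ‖(f q.1 : ℂ) * (f q.2 : ℂ)‖ ≤
      ∑ q ∈ (A ×ˢ A).filter (fun q => ucl d (q.1 * q.2) = c), (1 : ℝ) := by
    refine Finset.sum_le_sum fun q _ => ?_
    rw [norm_mul, Complex.norm_real, Complex.norm_real, Real.norm_eq_abs, Real.norm_eq_abs]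
    exact mul_le_one₀ (hf _) (abs_nonneg _) (hf _)
  refine h1.trans ?_
  rw [Finset.sum_const, nsmul_eq_mul, mul_one]
  have h2 : (A ×ˢ A).filter (fun q => ucl d (q.1 * q.2) = c) ⊆
      (R ×ˢ R).filter (fun q => ucl d (q.1 * q.2) = c) :=
    Finset.filter_subset_filter _ (Finset.product_subset_product hAR hAR)
  have h3 := Finset.card_le_card h2
  rw [A3_card R R hR hR c] at h3
  exact_mod_cast h3

theorem fourth {d : ℕ} [NeZero d] (R A : Finset ℕ) (hR : ∀ a ∈ R, a.Coprime d) (hAR : A ⊆ R) (f : ℕ → ℝ)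
    (hf : ∀ a, |f a| ≤ 1) (m τ : ℝ) (Er : (ZMod d)ˣ → ℝ) (hm : 0 < m) (hτ : 0 < τ) (hτ1 : τ ≤ 1 / 10)
    (hEr0 : ∀ c, 0 ≤ Er c) (hr : ∀ c, |(rp d R R c : ℝ) - m| ≤ τ * m + Er c)
    (hEr : ∑ c, Er c ^ 2 ≤ (τ * m) ^ 2 * (Fintype.card (ZMod d)ˣ : ℝ)) :
    ∑ χ : DirichletCharacter ℂ d, ‖AR A f χ‖ ^ 4 ≤ (2 * m * (Fintype.card (ZMod d)ˣ : ℝ)) ^ 2 := by
  have hA : ∀ a ∈ A, a.Coprime d := fun a ha => hR a (hAR ha)
  set φ : ℝ := (Fintype.card (ZMod d)ˣ : ℝ) with hφdef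
  have hφ : 0 ≤ φ := Nat.cast_nonneg _
  have h1 : ∑ χ : DirichletCharacter ℂ d, ‖AR A f χ‖ ^ 4 = φ * ∑ c, ‖A3_r d A f c‖ ^ 2 := by
    rw [hφdef, ← parseval_gen]
    refine Finset.sum_congr rfl fun χ _ => ?_
    rw [← A3_sq A hA f χ, norm_pow]
    ring
  have h2 : ∑ c, ‖A3_r d A f c‖ ^ 2 ≤ ∑ c : (ZMod d)ˣ, (2 * (11 / 10 * m) ^ 2 + 2 * Er c ^ 2) := by
    refine Finset.sum_le_sum fun c _ => ?_
    have h3 := A3_norm R A hR hAR f hf c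
    have h4 : (rp d R R c : ℝ) ≤ 11 / 10 * m + Er c := by
      have h5 := (abs_le.1 (hr c)).2
      nlinarith
    have h6 : ‖A3_r d A f c‖ ^ 2 ≤ (11 / 10 * m + Er c) ^ 2 :=
      pow_le_pow_left₀ (norm_nonneg _) (h3.trans h4) 2
    nlinarith [sq_nonneg (11 / 10 * m - Er c)]
  have h2' : ∑ c : (ZMod d)ˣ, (2 * (11 / 10 * m) ^ 2 + 2 * Er c ^ 2) =
      φ * (2 * (11 / 10 * m) ^ 2) + 2 * ∑ c, Er c ^ 2 := by
    rw [Finset.sum_add_distrib, Finset.sum_const, Finset.card_univ, nsmul_eq_mul, Finset.mul_sum]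
  rw [h2'] at h2
  have h7 : (τ * m) ^ 2 ≤ (1 / 10 * m) ^ 2 := by
    refine pow_le_pow_left₀ (by positivity) (mul_le_mul_of_nonneg_right hτ1 hm.le) 2
  have h8 : ∑ c, ‖A3_r d A f c‖ ^ 2 ≤ 4 * m ^ 2 * φ := by
    have h9 : (τ * m) ^ 2 * φ ≤ (1 / 10 * m) ^ 2 * φ := mul_le_mul_of_nonneg_right h7 hφ
    have h10 : 0 ≤ m ^ 2 * φ := by positivity
    nlinarith
  rw [h1]
  calc φ * ∑ c, ‖A3_r d A f c‖ ^ 2 ≤ φ * (4 * m ^ 2 * φ) := mul_le_mul_of_nonneg_left h8 hφ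
    _ = (2 * m * φ) ^ 2 := by ring

theorem bil_bounds {d : ℕ} [NeZero d] (A R : Finset ℕ) (hA : ∀ a ∈ A, a.Coprime d) (hR : ∀ a ∈ R, a.Coprime d)
    (f : (ZMod d)ˣ → ℝ) (hf0 : ∀ c, 0 ≤ f c) (hf1 : ∀ c, f c ≤ 1) (m τ : ℝ) (Er : (ZMod d)ˣ → ℝ) (hm : 0 < m) (hτ : 0 < τ)
    (hEr0 : ∀ c, 0 ≤ Er c) (hr : ∀ c, |(rp d A R c : ℝ) - m| ≤ τ * m + Er c)
    (hEr : ∑ c, Er c ^ 2 ≤ (τ * m) ^ 2 * ∑ c, f c) :
    (1 - 2 * τ) * m * ∑ c, f c ≤ ∑ q ∈ A ×ˢ R, f (ucl d (q.1 * q.2)) ∧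
      ∑ q ∈ A ×ˢ R, f (ucl d (q.1 * q.2)) ≤ (1 + 2 * τ) * m * ∑ c, f c := by
  rw [rp_sum A R hA hR f]
  set F : ℝ := ∑ c, f c with hFdef
  have hF0 : 0 ≤ F := Finset.sum_nonneg fun c _ => hf0 c
  have hsq : ∑ c, f c ^ 2 ≤ F := by
    refine Finset.sum_le_sum fun c _ => ?_
    have h1 := mul_le_mul_of_nonneg_left (hf1 c) (hf0 c)
    rw [mul_one, ← sq] at h1
    exact h1
  have hE : ∑ c, Er c * f c ≤ τ * m * F :=
    M1_cs (univ : Finset (ZMod d)ˣ) Er f ((τ * m) ^ 2 * F) F (τ * m * F) hEr hsq (by positivity)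
      (le_of_eq (by ring))
  constructor
  · have h1 : ∑ c, ((1 - τ) * m * f c - Er c * f c) ≤ ∑ c, (rp d A R c : ℝ) * f c := by
      refine Finset.sum_le_sum fun c _ => ?_
      have h2 := (abs_le.1 (hr c)).1
      have h3 : (1 - τ) * m - Er c ≤ (rp d A R c : ℝ) := by linarith
      have h4 := mul_le_mul_of_nonneg_right h3 (hf0 c)
      rw [sub_mul] at h4
      exact h4
    rw [Finset.sum_sub_distrib, ← Finset.mul_sum] at h1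
    nlinarith
  · have h1 : ∑ c, (rp d A R c : ℝ) * f c ≤ ∑ c, ((1 + τ) * m * f c + Er c * f c) := by
      refine Finset.sum_le_sum fun c _ => ?_
      have h2 := (abs_le.1 (hr c)).2
      have h3 : (rp d A R c : ℝ) ≤ (1 + τ) * m + Er c := by linarith
      have h4 := mul_le_mul_of_nonneg_right h3 (hf0 c)
      rw [add_mul] at h4
      exact h4
    rw [Finset.sum_add_distrib, ← Finset.mul_sum] at h1
    nlinarith

theorem bil_fourier {d : ℕ} [NeZero d] (A B : Finset ℕ) (hA : ∀ a ∈ A, a.Coprime d) (hB : ∀ b ∈ B, b.Coprime d)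
    (x y : ℕ → ℝ) (f : (ZMod d)ˣ → ℝ) :
    (Fintype.card (ZMod d)ˣ : ℂ) * ∑ q ∈ A ×ˢ B, ((x q.1 : ℂ) * (y q.2 : ℂ)) * ((f (ucl d (q.1 * q.2)) : ℝ) : ℂ) =
      ∑ χ : DirichletCharacter ℂ d, SF f χ * (AR A x χ * AR B y χ) := by
  have h1 : ∀ χ : DirichletCharacter ℂ d, AR A x χ * AR B y χ =
      ∑ q ∈ A ×ˢ B, ((x q.1 : ℂ) * (y q.2 : ℂ)) * ev χ (ucl d (q.1 * q.2)) := by
    intro χ
    rw [AR, AR, Finset.sum_mul_sum, Finset.sum_product]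
    apply Finset.sum_congr rfl
    intro a ha
    apply Finset.sum_congr rfl
    intro b hb
    rw [A3_mul χ (hA a ha) (hB b hb)]
    ring
  rw [Finset.mul_sum]
  have h2 : ∀ χ : DirichletCharacter ℂ d, SF f χ * (AR A x χ * AR B y χ) =
      ∑ q ∈ A ×ˢ B, SF f χ * (((x q.1 : ℂ) * (y q.2 : ℂ)) * ev χ (ucl d (q.1 * q.2))) := by
    intro χ
    rw [h1 χ, Finset.mul_sum]
  rw [Finset.sum_congr rfl fun χ _ => h2 χ, Finset.sum_comm]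
  refine Finset.sum_congr rfl fun q _ => ?_
  calc (Fintype.card (ZMod d)ˣ : ℂ) * (((x q.1 : ℂ) * (y q.2 : ℂ)) * ((f (ucl d (q.1 * q.2)) : ℝ) : ℂ))
      = ((x q.1 : ℂ) * (y q.2 : ℂ)) *
        ((Fintype.card (ZMod d)ˣ : ℂ) * ((f (ucl d (q.1 * q.2)) : ℝ) : ℂ)) := by ring
    _ = _ := by
      rw [← inversion f (ucl d (q.1 * q.2)), Finset.mul_sum]
      refine Finset.sum_congr rfl fun χ _ => ?_
      ring

end Pool.Agent.Lib.MP_42948a_nt.PS
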