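import Pool.Agent.Lib.MP_42948a_nt.PS.Defs
import Pool.Agent.Lib.MP_42948a_nt.OA.SN

/-!
# Primes in `(M, 8M]` (job B1)

Chebyshev's bounds are in Mathlib (`Mathlib/NumberTheory/Chebyshev.lean`: `Chebyshev.theta_ge`, `Chebyshev.theta_le_log4_mul_x`,
`theta_eq_sum_Icc`). For `M ≥ M0`: `θ(8M) - θ(M) ≥ 8 M log 2 - log(8M+1) - 2 √(8M) log(8M) - 2 M log 2 ≥ 4 M log 2`. So
`∑_{M < p ≤ 8M} 1/p ≥ (1/(8M)) #{p} ≥ (1/(8 M log (8M))) ∑ log p ≥ log 2/(2 log (8M))`.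
-/

namespace Pool.Agent.Lib.MP_42948a_nt.PS

open Finset Pool.Agent.Lib.MP_42948a_nt.OA Pool.Agent.Lib.MP_42948a_nt.AC Pool.Agent.Lib.MP_42948a_nt.TQ

private theorem B1_num {M : ℕ} (hM : 80 ^ 4 ≤ M) :
    Real.log ((8 * M : ℕ) + 1) + 2 * √((8 * M : ℕ) : ℝ) * Real.log ((8 * M : ℕ) : ℝ) ≤
      2 * M * Real.log 2 := by
  have hMr : (80 : ℝ) ^ 4 ≤ M := by exact_mod_cast hM
  have hx : ((8 * M : ℕ) : ℝ) = 8 * (M : ℝ) := by push_cast; ring
  rw [hx]
  set x : ℝ := 8 * (M : ℝ) with hxdef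
  have hx4 : (80 : ℝ) ^ 4 ≤ x := by rw [hxdef]; linarith
  have hx1 : 1 ≤ x := by norm_num at hx4 ⊢; linarith
  have hx0 : 0 < x := by linarith
  set y : ℝ := x ^ ((1 : ℝ) / 4) with hy
  have hy0 : 0 ≤ y := Real.rpow_nonneg hx0.le _
  have hy4 : y ^ 4 = x := by
    rw [hy, ← Real.rpow_natCast, ← Real.rpow_mul hx0.le]
    norm_num
  have hy80 : 80 ≤ y := by
    by_contra h
    push Not at h
    have : y ^ 4 < 80 ^ 4 := pow_lt_pow_left₀ h hy0 (by norm_num)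
    rw [hy4] at this
    linarith
  have hs : √x = y ^ 2 := by
    rw [← hy4, show y ^ 4 = (y ^ 2) ^ 2 by ring, Real.sqrt_sq (sq_nonneg y)]
  have hlog : Real.log x ≤ 4 * y := by
    have h := Real.log_le_rpow_div hx0.le (show (0 : ℝ) < 1 / 4 by norm_num)
    rw [← hy] at h
    linarith
  have hlog0 : 0 ≤ Real.log x := Real.log_nonneg hx1
  have hlog1 : Real.log (x + 1) ≤ Real.log x + 1 := by
    have h1 : x + 1 = x * (1 + 1 / x) := by field_simp
    have h2 : 0 < 1 + 1 / x := by positivity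
    rw [h1, Real.log_mul hx0.ne' h2.ne']
    have h3 := Real.log_le_sub_one_of_pos h2
    have h4 : 1 / x ≤ 1 := by rw [div_le_one hx0]; exact hx1
    linarith
  have hl2 : 0.69 < Real.log 2 := lt_trans (by norm_num) Real.log_two_gt_d9
  have hM' : (M : ℝ) = y ^ 4 / 8 := by rw [hy4, hxdef]; ring
  rw [hs, hM']
  have h1 : 2 * y ^ 2 * Real.log x ≤ 2 * y ^ 2 * (4 * y) :=
    mul_le_mul_of_nonneg_left hlog (by positivity)
  have h2 : 2 * (y ^ 4 / 8) * 0.69 ≤ 2 * (y ^ 4 / 8) * Real.log 2 :=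
    mul_le_mul_of_nonneg_left hl2.le (by positivity)
  have h3 : 80 * y ^ 3 ≤ y ^ 4 := by
    have := mul_le_mul_of_nonneg_right hy80 (pow_nonneg hy0 3)
    calc 80 * y ^ 3 ≤ y * y ^ 3 := this
      _ = y ^ 4 := by ring
  have h4 : 1 ≤ y ^ 3 := one_le_pow₀ (by linarith)
  have h5 : y ≤ y ^ 3 := by
    calc y = y ^ 1 := (pow_one y).symm
      _ ≤ y ^ 3 := pow_le_pow_right₀ (by linarith) (by norm_num)
  nlinarith [h1, h2, h3, h4, h5, hlog1, hlog]

private theorem B1_theta (M : ℕ) :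
    Chebyshev.theta ((8 * M : ℕ) : ℝ) - Chebyshev.theta (M : ℝ) =
      ∑ p ∈ (Ioc M (8 * M)).filter Nat.Prime, Real.log p := by
  rw [Chebyshev.theta, Chebyshev.theta, Nat.floor_natCast, Nat.floor_natCast, sum_filter,
    sum_filter, sum_filter,
    ← sum_Ioc_consecutive (fun p => if Nat.Prime p then Real.log (p : ℝ) else 0) (Nat.zero_le M)
      (by omega : M ≤ 8 * M)]
  ring

theorem octave : ∃ M0 : ℕ, ∀ M : ℕ, M0 ≤ M →
    Real.log 2 / (2 * Real.log (8 * M)) ≤ ∑ p ∈ (Ioc M (8 * M)).filter Nat.Prime, 1 / (p : ℝ) := by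
  refine ⟨80 ^ 4, fun M hM => ?_⟩
  have hMr : (80 : ℝ) ^ 4 ≤ M := by exact_mod_cast hM
  have hM0 : (0 : ℝ) < M := by linarith [show (0 : ℝ) < 80 ^ 4 by norm_num]
  have hx : ((8 * M : ℕ) : ℝ) = 8 * (M : ℝ) := by push_cast; ring
  have h1 := Chebyshev.theta_ge (8 * M)
  have h2 := Chebyshev.theta_le_log4_mul_x hM0.le
  have h3 := B1_num hM
  have h4 := B1_theta M
  have hl4 : Real.log 4 = 2 * Real.log 2 := by
    rw [show (4 : ℝ) = 2 ^ 2 by norm_num, Real.log_pow]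
    norm_num
  rw [hl4] at h2
  have h5 : 4 * M * Real.log 2 ≤ ∑ p ∈ (Ioc M (8 * M)).filter Nat.Prime, Real.log p := by
    rw [← h4]
    rw [hx] at h1 h3 ⊢
    linarith
  have hL : 0 < Real.log (8 * (M : ℝ)) := Real.log_pos (by
    have : (1 : ℝ) < 80 ^ 4 := by norm_num
    linarith)
  have h6 : ∀ p ∈ (Ioc M (8 * M)).filter Nat.Prime,
      Real.log p / (8 * M * Real.log (8 * M)) ≤ 1 / (p : ℝ) := by
    intro p hp
    rw [mem_filter, mem_Ioc] at hp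
    have hp0 : (0 : ℝ) < p := by exact_mod_cast hp.2.pos
    have hp8 : (p : ℝ) ≤ 8 * M := by exact_mod_cast hp.1.2
    have hlp : Real.log p ≤ Real.log (8 * M) := Real.log_le_log hp0 hp8
    have hlp0 : 0 ≤ Real.log p := Real.log_nonneg (by exact_mod_cast hp.2.one_le)
    rw [div_le_div_iff₀ (by positivity) hp0, one_mul, mul_comm]
    exact mul_le_mul hp8 hlp hlp0 (by positivity)
  have h7 := sum_le_sum h6
  rw [← sum_div] at h7
  refine le_trans ?_ h7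
  rw [div_le_div_iff₀ (by positivity) (by positivity)]
  nlinarith [mul_le_mul_of_nonneg_right h5 hL.le]

end Pool.Agent.Lib.MP_42948a_nt.PS
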