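import Pool.Agent.Lib.MP_42948a_nt.PS.Defs

/-!
# Mertens' product, upper bound (job B2)

`PP z` = primes `≤ z`. `harm`: `∏_{p ≤ z} (1 - 1/p)⁻¹ ≥ ∑_{n ≤ z} 1/n`: every `n ≤ z`, `n ≥ 1` is a product of primes `≤ z`; e.g. by
`Nat.smoothNumbers`/`EulerProduct` (`EulerProduct.summable_and_hasSum_smoothNumbers_prod_primesBelow_tsum` or
`..._geometric`, with the completely multiplicative function `n ↦ 1/n`, `primesBelow (z+1)`), or by induction over the finite set of primes; and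
`∑_{n ≤ z} 1/n ≥ log (z+1) ≥ log z` (`log_add_one_le_harmonic`).
-/

namespace Pool.Agent.Lib.MP_42948a_nt.PS

open Finset Pool.Agent.Lib.MP_42948a_nt.OA Pool.Agent.Lib.MP_42948a_nt.AC Pool.Agent.Lib.MP_42948a_nt.TQ

/-- The completely multiplicative function `n ↦ 1/n`. -/
private noncomputable def B2_f : ℕ →* ℝ where
  toFun n := ((n : ℝ))⁻¹
  map_one' := by simp
  map_mul' a b := by
    push_cast
    rw [mul_inv]

private lemma B2_f_apply (n : ℕ) : B2_f n = ((n : ℝ))⁻¹ := rfl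

private lemma B2_harmonic (z : ℕ) : Real.log ((z : ℝ) + 1) ≤ ∑ n ∈ Icc 1 z, ((n : ℝ))⁻¹ := by
  have h := log_add_one_le_harmonic z
  rw [harmonic_eq_sum_Icc] at h
  push_cast at h
  exact h

private lemma B2_euler (z : ℕ) :
    ∑ n ∈ Icc 1 z, ((n : ℝ))⁻¹ ≤ ∏ p ∈ PP z, (1 - ((p : ℝ))⁻¹)⁻¹ := by
  have h := (EulerProduct.summable_and_hasSum_smoothNumbers_prod_primesBelow_geometric
    (f := B2_f) (fun {p} hp => by
      rw [B2_f_apply, norm_inv, Real.norm_natCast]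
      exact inv_lt_one_of_one_lt₀ (by exact_mod_cast hp.one_lt)) (z + 1)).2
  have hP : (z + 1).primesBelow = PP z := by
    ext p
    unfold PP
    rw [Nat.mem_primesBelow, mem_filter, mem_Icc]
    constructor
    · rintro ⟨h1, h2⟩
      exact ⟨⟨h2.one_le, by omega⟩, h2⟩
    · rintro ⟨⟨h1, h2⟩, h3⟩
      exact ⟨by omega, h3⟩
  rw [hP] at h
  have hmem : ∀ n ∈ Icc 1 z, n ∈ (z + 1).smoothNumbers := fun n hn => by
    rw [mem_Icc] at hn
    exact Nat.mem_smoothNumbers_of_lt hn.1 (by omega)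
  have h2 : ∑ n ∈ Icc 1 z, ((n : ℝ))⁻¹
      = ∑ m ∈ (Icc 1 z).attach.image (fun n => (⟨n.1, hmem n.1 n.2⟩ : (z + 1).smoothNumbers)),
        B2_f (m : ℕ) := by
    rw [sum_image]
    · rw [← sum_attach]
      exact sum_congr rfl fun n _ => rfl
    · intro a _ b _ hab
      have h3 : a.1 = b.1 := congrArg (fun m : (z + 1).smoothNumbers => (m : ℕ)) hab
      exact Subtype.ext h3
  rw [h2]
  exact sum_le_hasSum _ (fun m _ => by
    rw [B2_f_apply]
    positivity) h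


theorem harm (z : ℕ) (hz : 2 ≤ z) : ∏ p ∈ PP z, (1 - 1 / (p : ℝ)) ≤ 1 / Real.log z := by
  have hz1 : (1 : ℝ) < z := by
    have : (2 : ℝ) ≤ z := by exact_mod_cast hz
    linarith
  have hlog : 0 < Real.log z := Real.log_pos hz1
  have hfac : ∀ p ∈ PP z, 0 < 1 - ((p : ℝ))⁻¹ := fun p hp => by
    unfold PP at hp
    rw [mem_filter] at hp
    have h1 : (1 : ℝ) < p := by exact_mod_cast hp.2.one_lt
    have h2 := inv_lt_one_of_one_lt₀ h1
    linarith
  have h1 : ∏ p ∈ PP z, (1 - 1 / (p : ℝ)) = (∏ p ∈ PP z, (1 - ((p : ℝ))⁻¹)⁻¹)⁻¹ := by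
    rw [← prod_inv_distrib]
    refine prod_congr rfl fun p _ => ?_
    rw [inv_inv, one_div]
  rw [h1, one_div]
  refine inv_anti₀ hlog ?_
  have h2 := B2_harmonic z
  have h3 := B2_euler z
  have h4 : Real.log z ≤ Real.log ((z : ℝ) + 1) := Real.log_le_log (by linarith) (by linarith)
  linarith

end Pool.Agent.Lib.MP_42948a_nt.PS
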