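import Pool.Agent.Lib.MP_42948a_nt.PS.Defs

/-!
# Powers of sums over primes (job B3)

Let `a n` be the number of `f : Fin k → ℕ` with values in `U` (`Fintype.piFinset (fun _ => U)`) and `∏ i, f i = n`. Then
`(∑_{u ∈ U} (1/u) χ(u))^k = ∑_f ∏ i, (1/f i) χ(f i) = ∑_n (a n / n) χ(n)` (`Finset.prod_univ_sum`, `Finset.sum_fiberwise_of_maps_to`), as in the proof of
`moment` (`TQ/C1.lean`). `a n ≤ k^k`: if `a n ≠ 0` fix `f0` with product `n`; every `f` with product `n` has all `f i` prime and dividing `∏ f0 j`, so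
`f i ∈ image f0 univ`, a set of at most `k` elements (see `C1`). If `a n ≠ 0` then `n = ∏ f i` with all `f i` primes in `(z1, Y]` coprime to `d`, so
`z1^k < n ≤ Y^k` (`k ≥ 1`), `n` is rough (`Rough.mul`, `Rough.one`) and coprime to `d`.
-/

namespace Pool.Agent.Lib.MP_42948a_nt.PS

open Finset Pool.Agent.Lib.MP_42948a_nt.OA Pool.Agent.Lib.MP_42948a_nt.AC Pool.Agent.Lib.MP_42948a_nt.TQ

open Classical in
private noncomputable def B3_r (k : ℕ) (U : Finset ℕ) (n : ℕ) : ℕ :=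
  ((Fintype.piFinset fun _ : Fin k => U).filter (fun f => ∏ i, f i = n)).card

private theorem B3_card {d z1 Y k : ℕ} {U : Finset ℕ}
    (hU : ∀ u ∈ U, u.Prime ∧ z1 < u ∧ u ≤ Y ∧ u.Coprime d) (n : ℕ) : B3_r k U n ≤ k ^ k := by
  classical
  unfold B3_r
  rcases ((Fintype.piFinset fun _ : Fin k => U).filter (fun f => ∏ i, f i = n)).eq_empty_or_nonempty
    with h | ⟨f0, h0⟩
  · rw [h, Finset.card_empty]
    exact Nat.zero_le _
  · rw [Finset.mem_filter, Fintype.mem_piFinset] at h0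
    have hsub : (Fintype.piFinset fun _ : Fin k => U).filter (fun f => ∏ i, f i = n) ⊆
        Fintype.piFinset fun _ : Fin k => univ.image f0 := by
      intro f hf
      rw [Finset.mem_filter, Fintype.mem_piFinset] at hf
      rw [Fintype.mem_piFinset]
      intro i
      have h2 : f i ∣ ∏ j, f0 j := by
        rw [h0.2, ← hf.2]
        exact Finset.dvd_prod_of_mem f (mem_univ i)
      obtain ⟨j, -, hj⟩ := ((hU _ (hf.1 i)).1.prime.dvd_finsetProd_iff f0).1 h2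
      have h3 := (Nat.prime_dvd_prime_iff_eq (hU _ (hf.1 i)).1 (hU _ (h0.1 j)).1).1 hj
      rw [h3]
      exact mem_image_of_mem f0 (mem_univ j)
    refine (card_le_card hsub).trans ?_
    rw [Fintype.card_piFinset_const]
    have h4 : (univ.image f0).card ≤ k := by
      have h5 := Finset.card_image_le (s := (univ : Finset (Fin k))) (f := f0)
      rwa [Finset.card_univ, Fintype.card_fin] at h5
    simpa using Nat.pow_le_pow_left h4 k

private theorem B3_prod {d z1 Y k : ℕ} (hk : 1 ≤ k) {U : Finset ℕ}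
    (hU : ∀ u ∈ U, u.Prime ∧ z1 < u ∧ u ≤ Y ∧ u.Coprime d) {f : Fin k → ℕ} (hf : ∀ i, f i ∈ U) :
    z1 ^ k < ∏ i, f i ∧ ∏ i, f i ≤ Y ^ k ∧ Rough z1 (∏ i, f i) ∧ (∏ i, f i).Coprime d := by
  refine ⟨?_, ?_, ?_, Nat.Coprime.prod_left fun i _ => (hU _ (hf i)).2.2.2⟩
  · have h1 : (z1 + 1) ^ k ≤ ∏ i, f i := by
      have h2 := Finset.prod_le_prod (s := (univ : Finset (Fin k))) (f := fun _ => z1 + 1) (g := f)
        (fun i _ => Nat.zero_le _) (fun i _ => (hU _ (hf i)).2.1)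
      rwa [Finset.prod_const, Finset.card_univ, Fintype.card_fin] at h2
    exact (Nat.pow_lt_pow_left (Nat.lt_succ_self z1) (by omega)).trans_le h1
  · have h2 := Finset.prod_le_pow_card (univ : Finset (Fin k)) f Y fun i _ => (hU _ (hf i)).2.2.1
    rwa [Finset.card_univ, Fintype.card_fin] at h2
  · refine ⟨Finset.prod_pos fun i _ => (hU _ (hf i)).1.pos, fun p hp hpd => ?_⟩
    obtain ⟨j, -, hj⟩ := (hp.prime.dvd_finsetProd_iff f).1 hpd
    rw [(Nat.prime_dvd_prime_iff_eq hp (hU _ (hf j)).1).1 hj]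
    exact (hU _ (hf j)).2.1

theorem pow_expand (d z1 Y k : ℕ) (hk : 1 ≤ k) (U : Finset ℕ)
    (hU : ∀ u ∈ U, u.Prime ∧ z1 < u ∧ u ≤ Y ∧ u.Coprime d) :
    ∃ a : ℕ → ℝ, (∀ n, 0 ≤ a n ∧ a n ≤ (k : ℝ) ^ k) ∧
      (∀ n, a n ≠ 0 → z1 ^ k < n ∧ n ≤ Y ^ k ∧ Rough z1 n ∧ n.Coprime d) ∧
      ∀ χ : DirichletCharacter ℂ d, (∑ u ∈ U, ((1 / (u : ℝ) : ℝ) : ℂ) * χ (u : ZMod d)) ^ k =
        ∑ n ∈ Icc 1 (Y ^ k), ((a n / (n : ℝ) : ℝ) : ℂ) * χ (n : ZMod d) := by
  classical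
  refine ⟨fun n => (B3_r k U n : ℝ), fun n => ⟨Nat.cast_nonneg _, ?_⟩, fun n hn => ?_, fun χ => ?_⟩
  · have h0 := B3_card (k := k) hU n
    change ((B3_r k U n : ℕ) : ℝ) ≤ (k : ℝ) ^ k
    exact_mod_cast h0
  · have h1 : ((Fintype.piFinset fun _ : Fin k => U).filter (fun f => ∏ i, f i = n)).Nonempty := by
      rw [← Finset.card_pos]
      refine Nat.pos_of_ne_zero fun h => hn ?_
      change ((B3_r k U n : ℕ) : ℝ) = 0
      rw [Nat.cast_eq_zero]
      unfold B3_r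
      convert h
    obtain ⟨f, hf⟩ := h1
    rw [Finset.mem_filter, Fintype.mem_piFinset] at hf
    rw [← hf.2]
    exact B3_prod hk hU hf.1
  · have h2 : (∑ u ∈ U, ((1 / (u : ℝ) : ℝ) : ℂ) * χ (u : ZMod d)) ^ k =
        ∏ _i : Fin k, ∑ u ∈ U, ((1 / (u : ℝ) : ℝ) : ℂ) * χ (u : ZMod d) := by
      rw [Finset.prod_const, Finset.card_univ, Fintype.card_fin]
    rw [h2, Finset.prod_univ_sum]
    have h3 : ∀ f ∈ Fintype.piFinset fun _ : Fin k => U,
        ∏ i, (((1 / ((f i : ℕ) : ℝ) : ℝ) : ℂ) * χ ((f i : ℕ) : ZMod d)) =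
        ((1 / ((∏ i, f i : ℕ) : ℝ) : ℝ) : ℂ) * χ ((∏ i, f i : ℕ) : ZMod d) := by
      intro f _
      rw [Finset.prod_mul_distrib, Nat.cast_prod, Nat.cast_prod, map_prod]
      congr 1
      push_cast
      rw [Finset.prod_div_distrib, Finset.prod_const_one]
    rw [Finset.sum_congr rfl h3, ← Finset.sum_fiberwise_of_maps_to
      (s := Fintype.piFinset fun _ : Fin k => U) (t := Icc 1 (Y ^ k)) (g := fun f => ∏ i, f i)]
    · refine Finset.sum_congr rfl fun n _ => ?_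
      rw [Finset.sum_congr rfl (g := fun _ => ((1 / (n : ℝ) : ℝ) : ℂ) * χ (n : ZMod d))
        fun f hf => by rw [(Finset.mem_filter.1 hf).2], Finset.sum_const, nsmul_eq_mul]
      have h4 : ((((B3_r k U n : ℕ) : ℝ) / (n : ℝ) : ℝ) : ℂ) =
          ((B3_r k U n : ℕ) : ℂ) * ((1 / (n : ℝ) : ℝ) : ℂ) := by
        push_cast
        ring
      rw [h4, mul_assoc]
      congr 2
    · intro f hf
      rw [Fintype.mem_piFinset] at hf
      obtain ⟨h5, h6, -, -⟩ := B3_prod hk hU hf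
      rw [Finset.mem_Icc]
      exact ⟨by omega, h6⟩

end Pool.Agent.Lib.MP_42948a_nt.PS
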