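import Pool.Agent.Lib.MP_42948a_nt.PS.A5

/-!
# One dyadic block (B4)

`W = VV d z * (φ (2M)/d)`. Let `f n = a n * M / (n * D0)` for `n ∈ Ioc M (2M)` and `0` otherwise; `|f n| ≤ 1` (`0 ≤ a n ≤ D0`, `M/n ≤ 1`; `D0 > 0`). The
`n ∈ Ioc M (2M)` with `a n ≠ 0` lie in `RC d z (2M)`, so `AR (RC d z (2M)) f χ = (M/D0) * ∑_{n ∈ Ioc M (2M)} (a n / n) χ n`. `bessel` (`TQ/B6.lean`, or `bessel2`
with `A = RC`): `∑_{χ ∈ Ξ} ‖AR‖^2 ≤ #RC * ((1+τ) W + W) ≤ 3 W #RC` by `hs` (`τ ≤ 1`), and `#RC ≤ ∑_{n ≤ 2M coprime} rho ≤ (1+τ) W + z^K (1 + BB d) ≤ 3 W` (`rho_ge_one`,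
`rho_nonneg`, `rho_mass` in `TQ/B5.lean`; `Ξ.card * (z^K * BB) ≥ 0`). Multiply by `(D0/M)^2`: `≤ (3 W D0/M)^2 = (D0 * (6 * (VV d z * (φ/d))))^2`.
-/

namespace Pool.Agent.Lib.MP_42948a_nt.PS

open Finset Pool.Agent.Lib.MP_42948a_nt.OA Pool.Agent.Lib.MP_42948a_nt.AC Pool.Agent.Lib.MP_42948a_nt.TQ

private theorem B4_AR (d z M : ℕ) (hM : 1 ≤ M) (D0 : ℝ) (hD0 : 0 < D0) (a : ℕ → ℝ)
    (ha2 : ∀ n, a n ≠ 0 → Rough z n ∧ n.Coprime d) (χ : DirichletCharacter ℂ d) :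
    AR (RC d z (2 * M)) (fun n => if n ∈ Ioc M (2 * M) then a n * M / (n * D0) else 0) χ =
      ((M / D0 : ℝ) : ℂ) * ∑ n ∈ Ioc M (2 * M), ((a n / (n : ℝ) : ℝ) : ℂ) * χ (n : ZMod d) := by
  classical
  unfold AR
  have h1 : ∑ n ∈ RC d z (2 * M), (((if n ∈ Ioc M (2 * M) then a n * M / (n * D0) else 0 : ℝ)) : ℂ) *
      χ (n : ZMod d) = ∑ n ∈ Icc 1 (2 * M),
      (((if n ∈ Ioc M (2 * M) then a n * M / (n * D0) else 0 : ℝ)) : ℂ) * χ (n : ZMod d) := by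
    apply Finset.sum_subset
    · unfold RC
      exact Finset.filter_subset _ _
    · intro n hn hn2
      by_cases h : n ∈ Ioc M (2 * M)
      · have h3 : a n = 0 := by
          by_contra h4
          apply hn2
          unfold RC
          rw [mem_filter]
          exact ⟨hn, ha2 n h4⟩
        rw [if_pos h, h3]
        simp
      · rw [if_neg h]
        simp
  have h2 : ∑ n ∈ Ioc M (2 * M), (((if n ∈ Ioc M (2 * M) then a n * M / (n * D0) else 0 : ℝ)) : ℂ) *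
      χ (n : ZMod d) = ∑ n ∈ Icc 1 (2 * M),
      (((if n ∈ Ioc M (2 * M) then a n * M / (n * D0) else 0 : ℝ)) : ℂ) * χ (n : ZMod d) := by
    apply Finset.sum_subset
    · intro n hn
      rw [mem_Ioc] at hn
      rw [mem_Icc]
      omega
    · intro n _ hn2
      rw [if_neg hn2]
      simp
  rw [h1, ← h2, Finset.mul_sum]
  refine Finset.sum_congr rfl fun n hn => ?_
  rw [if_pos hn]
  rw [mem_Ioc] at hn
  have hn0 : (n : ℝ) ≠ 0 := by
    have : n ≠ 0 := by omega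
    exact_mod_cast this
  have h3 : a n * M / (n * D0) = M / D0 * (a n / n) := by
    field_simp
  rw [h3, Complex.ofReal_mul, mul_assoc]

theorem block {τ : ℝ} {K z : ℕ} {u l : Finset ℕ → ℝ} (hF : Fund τ K z u l) (hτ : 0 < τ) (hτ1 : τ ≤ 1) (d : ℕ) [NeZero d] (M : ℕ)
    (hM : 1 ≤ M) (D0 : ℝ) (hD0 : 0 < D0) (a : ℕ → ℝ) (ha : ∀ n, 0 ≤ a n ∧ a n ≤ D0)
    (ha2 : ∀ n, a n ≠ 0 → Rough z n ∧ n.Coprime d) (Ξ : Finset (DirichletCharacter ℂ d))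
    (hs : (z : ℝ) ^ K * (1 + BB d) + (Ξ.card : ℝ) * ((z : ℝ) ^ K * BB d) ≤
      VV d z * ((Fintype.card (ZMod d)ˣ : ℝ) * (2 * M : ℕ) / d)) :
    ∑ χ ∈ Ξ, ‖∑ n ∈ Ioc M (2 * M), ((a n / (n : ℝ) : ℝ) : ℂ) * χ (n : ZMod d)‖ ^ 2 ≤
      (D0 * (6 * (VV d z * ((Fintype.card (ZMod d)ˣ : ℝ) / d)))) ^ 2 := by
  classical
  have hd0 : (0 : ℝ) < d := by
    have := NeZero.pos d
    exact_mod_cast this
  have hM0 : (0 : ℝ) < M := by exact_mod_cast hM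
  have hBB : 0 ≤ BB d := by
    unfold BB
    have := Real.log_natCast_nonneg d
    positivity
  have hz : (0 : ℝ) ≤ (z : ℝ) ^ K := by positivity
  obtain ⟨W, hW⟩ : ∃ W : ℝ, W = VV d z * ((Fintype.card (ZMod d)ˣ : ℝ) * (2 * M : ℕ) / d) := ⟨_, rfl⟩
  have hW0 : 0 ≤ W := by
    rw [hW]
    have := (VV_pos d z).le
    positivity
  rw [← hW] at hs
  have hX : 0 ≤ (Ξ.card : ℝ) * ((z : ℝ) ^ K * BB d) := by positivity
  have hX2 : 0 ≤ (z : ℝ) ^ K * (1 + BB d) := by positivity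
  have hcard : ((RC d z (2 * M)).card : ℝ) ≤ 3 * W := by
    have h1 := rho_mass hF d (2 * M)
    rw [← hW] at h1
    have h2 : ((RC d z (2 * M)).card : ℝ) ≤
        ∑ n ∈ (Icc 1 (2 * M)).filter (fun n : ℕ => n.Coprime d), rho z u n := by
      have h3 : ((RC d z (2 * M)).card : ℝ) = ∑ n ∈ RC d z (2 * M), (1 : ℝ) := by
        rw [Finset.sum_const, nsmul_eq_mul, mul_one]
      rw [h3]
      refine (Finset.sum_le_sum (g := fun n => rho z u n) fun n hn => ?_).trans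
        (Finset.sum_le_sum_of_subset_of_nonneg ?_ fun n _ _ => rho_nonneg hF n)
      · unfold RC at hn
        rw [mem_filter] at hn
        exact rho_ge_one hF hn.2.1
      · intro n hn
        unfold RC at hn
        rw [mem_filter] at hn
        rw [mem_filter]
        exact ⟨hn.1, hn.2.2⟩
    nlinarith
  have hf : ∀ n, |(fun n : ℕ => if n ∈ Ioc M (2 * M) then a n * M / (n * D0) else 0) n| ≤ 1 := by
    intro n
    show |if n ∈ Ioc M (2 * M) then a n * M / (n * D0) else 0| ≤ 1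
    split_ifs with h
    · rw [mem_Ioc] at h
      have hn1 : (M : ℝ) ≤ n := by exact_mod_cast h.1.le
      have hn0 : (0 : ℝ) < n := by linarith
      have h1 := ha n
      rw [abs_of_nonneg (div_nonneg (mul_nonneg h1.1 hM0.le) (by positivity)),
        div_le_one (by positivity)]
      calc a n * M ≤ D0 * n := mul_le_mul h1.2 hn1 hM0.le hD0.le
        _ = n * D0 := mul_comm _ _
    · rw [abs_zero]
      exact zero_le_one
  have hb := bessel hF d (2 * M) _ hf Ξ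
  have hbd : ((RC d z (2 * M)).card : ℝ) *
      ((1 + τ) * (VV d z * ((Fintype.card (ZMod d)ˣ : ℝ) * (2 * M : ℕ) / d)) + (z : ℝ) ^ K * (1 + BB d) +
        (Ξ.card : ℝ) * ((z : ℝ) ^ K * BB d)) ≤ (3 * W) * (3 * W) := by
    rw [← hW]
    refine mul_le_mul hcard ?_ ?_ (by positivity)
    · nlinarith
    · positivity
  have hmain := hb.trans hbd
  have hsum : ∑ χ ∈ Ξ, ‖AR (RC d z (2 * M))
      (fun n => if n ∈ Ioc M (2 * M) then a n * M / (n * D0) else 0) χ‖ ^ 2 =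
      (M / D0) ^ 2 * ∑ χ ∈ Ξ, ‖∑ n ∈ Ioc M (2 * M), ((a n / (n : ℝ) : ℝ) : ℂ) * χ (n : ZMod d)‖ ^ 2 := by
    rw [Finset.mul_sum]
    refine Finset.sum_congr rfl fun χ _ => ?_
    rw [B4_AR d z M hM D0 hD0 a ha2 χ, norm_mul, mul_pow, Complex.norm_real,
      Real.norm_of_nonneg (by positivity)]
  rw [hsum] at hmain
  have h5 : (D0 * (6 * (VV d z * ((Fintype.card (ZMod d)ˣ : ℝ) / d)))) ^ 2 =
      (D0 / M) ^ 2 * ((3 * W) * (3 * W)) := by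
    rw [hW]
    push_cast
    field_simp
    ring
  have h6 : ∑ χ ∈ Ξ, ‖∑ n ∈ Ioc M (2 * M), ((a n / (n : ℝ) : ℝ) : ℂ) * χ (n : ZMod d)‖ ^ 2 =
      (D0 / M) ^ 2 * ((M / D0) ^ 2 *
        ∑ χ ∈ Ξ, ‖∑ n ∈ Ioc M (2 * M), ((a n / (n : ℝ) : ℝ) : ℂ) * χ (n : ZMod d)‖ ^ 2) := by
    rw [← mul_assoc, ← mul_pow]
    have h7 : D0 / M * (M / D0) = 1 := by
      field_simp
    rw [h7, one_pow, one_mul]
  rw [h5, h6]
  exact mul_le_mul_of_nonneg_left hmain (by positivity)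

end Pool.Agent.Lib.MP_42948a_nt.PS
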