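import Pool.Agent.Lib.MP_42948a_nt.PS.B4
import Pool.Agent.Lib.MP_42948a_nt.TQ.A4

/-!
# All dyadic blocks (job B5)

`minkowski`: `√(∑_Ξ ‖x + y‖^2) ≤ √(∑ ‖x‖^2) + √(∑ ‖y‖^2)` in the form: if `∑_Ξ ‖x χ‖^2 ≤ A^2`, `∑_Ξ ‖y χ‖^2 ≤ B^2`, `A, B ≥ 0` then
`∑_Ξ ‖x χ + y χ‖^2 ≤ (A + B)^2` (`‖x+y‖^2 ≤ ‖x‖^2 + 2 ‖x‖ ‖y‖ + ‖y‖^2` and Cauchy-Schwarz `∑ ‖x‖ ‖y‖ ≤ A B`, `Finset.sum_mul_sq_le_sq_mul_sq` /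
`Real.sum_mul_le_sqrt_mul_sqrt`). `blocks`: induction on `J`: `Ioc M0 (2^(J+1) M0)` is the disjoint union of `Ioc M0 (2^J M0)` and
`Ioc (2^J M0) (2 * (2^J M0))`; `block` with `M = 2^J M0` (`hs` follows from the one for `M0` since the right side is monotone in `M`: `VV ≥ 0`, `VV_pos`).
-/

namespace Pool.Agent.Lib.MP_42948a_nt.PS

open Finset Pool.Agent.Lib.MP_42948a_nt.OA Pool.Agent.Lib.MP_42948a_nt.AC Pool.Agent.Lib.MP_42948a_nt.TQ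

theorem minkowski {X : Type*} (Ξ : Finset X) (x y : X → ℂ) (A B : ℝ) (hA : 0 ≤ A) (hB : 0 ≤ B)
    (hx : ∑ χ ∈ Ξ, ‖x χ‖ ^ 2 ≤ A ^ 2) (hy : ∑ χ ∈ Ξ, ‖y χ‖ ^ 2 ≤ B ^ 2) : ∑ χ ∈ Ξ, ‖x χ + y χ‖ ^ 2 ≤ (A + B) ^ 2 := by
  have h1 : ∀ χ ∈ Ξ, ‖x χ + y χ‖ ^ 2 ≤ ‖x χ‖ ^ 2 + 2 * (‖x χ‖ * ‖y χ‖) + ‖y χ‖ ^ 2 := by
    intro χ _
    have h2 := pow_le_pow_left₀ (norm_nonneg _) (norm_add_le (x χ) (y χ)) 2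
    refine h2.trans (le_of_eq ?_)
    ring
  have h3 : (∑ χ ∈ Ξ, ‖x χ‖ * ‖y χ‖) ^ 2 ≤ (∑ χ ∈ Ξ, ‖x χ‖ ^ 2) * ∑ χ ∈ Ξ, ‖y χ‖ ^ 2 :=
    Finset.sum_mul_sq_le_sq_mul_sq Ξ _ _
  have hx0 : 0 ≤ ∑ χ ∈ Ξ, ‖x χ‖ ^ 2 := Finset.sum_nonneg fun χ _ => sq_nonneg _
  have hy0 : 0 ≤ ∑ χ ∈ Ξ, ‖y χ‖ ^ 2 := Finset.sum_nonneg fun χ _ => sq_nonneg _
  have h4 : (∑ χ ∈ Ξ, ‖x χ‖ * ‖y χ‖) ^ 2 ≤ (A * B) ^ 2 := by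
    rw [mul_pow]
    exact h3.trans (mul_le_mul hx hy hy0 (sq_nonneg A))
  have h5 : ∑ χ ∈ Ξ, ‖x χ‖ * ‖y χ‖ ≤ A * B := abs_le_of_sq_le_sq' h4 (mul_nonneg hA hB) |>.2
  calc ∑ χ ∈ Ξ, ‖x χ + y χ‖ ^ 2 ≤ ∑ χ ∈ Ξ, (‖x χ‖ ^ 2 + 2 * (‖x χ‖ * ‖y χ‖) + ‖y χ‖ ^ 2) :=
        Finset.sum_le_sum h1
    _ = ∑ χ ∈ Ξ, ‖x χ‖ ^ 2 + 2 * ∑ χ ∈ Ξ, ‖x χ‖ * ‖y χ‖ + ∑ χ ∈ Ξ, ‖y χ‖ ^ 2 := by
        rw [Finset.sum_add_distrib, Finset.sum_add_distrib, Finset.mul_sum]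
    _ ≤ A ^ 2 + 2 * (A * B) + B ^ 2 := by linarith
    _ = (A + B) ^ 2 := by ring

theorem blocks {τ : ℝ} {K z : ℕ} {u l : Finset ℕ → ℝ} (hF : Fund τ K z u l) (hτ : 0 < τ) (hτ1 : τ ≤ 1) (d : ℕ) [NeZero d] (M0 : ℕ)
    (hM : 1 ≤ M0) (D0 : ℝ) (hD0 : 0 < D0) (a : ℕ → ℝ) (ha : ∀ n, 0 ≤ a n ∧ a n ≤ D0)
    (ha2 : ∀ n, a n ≠ 0 → Rough z n ∧ n.Coprime d) (Ξ : Finset (DirichletCharacter ℂ d))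
    (hs : (z : ℝ) ^ K * (1 + BB d) + (Ξ.card : ℝ) * ((z : ℝ) ^ K * BB d) ≤
      VV d z * ((Fintype.card (ZMod d)ˣ : ℝ) * (2 * M0 : ℕ) / d)) (J : ℕ) :
    ∑ χ ∈ Ξ, ‖∑ n ∈ Ioc M0 (2 ^ J * M0), ((a n / (n : ℝ) : ℝ) : ℂ) * χ (n : ZMod d)‖ ^ 2 ≤
      ((J : ℝ) * (D0 * (6 * (VV d z * ((Fintype.card (ZMod d)ˣ : ℝ) / d))))) ^ 2 := by
  have hV := (VV_pos d z).le
  have hd0 : (0 : ℝ) ≤ (d : ℝ) := Nat.cast_nonneg _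
  have hφ : (0 : ℝ) ≤ (Fintype.card (ZMod d)ˣ : ℝ) := Nat.cast_nonneg _
  have hc : 0 ≤ D0 * (6 * (VV d z * ((Fintype.card (ZMod d)ˣ : ℝ) / d))) := by positivity
  induction J with
  | zero =>
    have h1 : ∀ χ ∈ Ξ, ‖∑ n ∈ Ioc M0 (2 ^ 0 * M0), ((a n / (n : ℝ) : ℝ) : ℂ) * χ (n : ZMod d)‖ ^ 2 = 0 := by
      intro χ _
      rw [pow_zero, one_mul, Ioc_self, sum_empty, norm_zero]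
      norm_num
    rw [Finset.sum_congr rfl h1, Finset.sum_const_zero]
    exact sq_nonneg _
  | succ J ih =>
    have e0 : 2 ^ (J + 1) * M0 = 2 * (2 ^ J * M0) := by ring
    have hM1 : M0 ≤ 2 ^ J * M0 := Nat.le_mul_of_pos_left _ (by positivity)
    have hM2 : 2 ^ J * M0 ≤ 2 * (2 ^ J * M0) := by omega
    have e1 : ∀ χ ∈ Ξ, ‖∑ n ∈ Ioc M0 (2 ^ (J + 1) * M0), ((a n / (n : ℝ) : ℝ) : ℂ) * χ (n : ZMod d)‖ ^ 2 =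
        ‖∑ n ∈ Ioc M0 (2 ^ J * M0), ((a n / (n : ℝ) : ℝ) : ℂ) * χ (n : ZMod d) +
          ∑ n ∈ Ioc (2 ^ J * M0) (2 * (2 ^ J * M0)), ((a n / (n : ℝ) : ℝ) : ℂ) * χ (n : ZMod d)‖ ^ 2 := by
      intro χ _
      rw [e0, ← Finset.sum_Ioc_consecutive _ hM1 hM2]
    rw [Finset.sum_congr rfl e1]
    have hs' : (z : ℝ) ^ K * (1 + BB d) + (Ξ.card : ℝ) * ((z : ℝ) ^ K * BB d) ≤
        VV d z * ((Fintype.card (ZMod d)ˣ : ℝ) * (2 * (2 ^ J * M0) : ℕ) / d) := by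
      refine hs.trans (mul_le_mul_of_nonneg_left ?_ hV)
      refine div_le_div_of_nonneg_right (mul_le_mul_of_nonneg_left ?_ hφ) hd0
      have : 2 * M0 ≤ 2 * (2 ^ J * M0) := by omega
      exact_mod_cast this
    have hb := block hF hτ hτ1 d (2 ^ J * M0) (hM.trans hM1) D0 hD0 a ha ha2 Ξ hs'
    have hm := minkowski Ξ (fun χ => ∑ n ∈ Ioc M0 (2 ^ J * M0), ((a n / (n : ℝ) : ℝ) : ℂ) * χ (n : ZMod d))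
      (fun χ => ∑ n ∈ Ioc (2 ^ J * M0) (2 * (2 ^ J * M0)), ((a n / (n : ℝ) : ℝ) : ℂ) * χ (n : ZMod d)) _ _
      (mul_nonneg (Nat.cast_nonneg J) hc) hc ih hb
    refine hm.trans (le_of_eq ?_)
    push_cast
    ring

end Pool.Agent.Lib.MP_42948a_nt.PS
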