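import Pool.Agent.Lib.MP_42948a_nt.PS.Defs
import Pool.Agent.Lib.MP_42948a_nt.TQ.Z1
import Pool.Agent.Lib.MP_42948a_nt.TQ.A4
import Pool.Agent.Lib.MP_42948a_nt.OA.ZA

/-!
# Numerical facts for the moment (job B6a)

`num_few`: `z = ⌊d^b⌋`, `b = α/(16 (K + 2))`, `z1 = ⌊d^α⌋`, `M0 = z1^k ≥ (d^α/2)^k ≥ d^(1/2+α) 2^(-k)` (`k α ≥ 1/2 + α`). Left side
`≤ 3 d^(α/8) d^(K b) d^(1/2 + α/16)` for large `d` (`BB_le (α/16)`), `K b ≤ α/16`, so `≤ 3 d^(1/2 + α/4)`; right side `≥ (1/(2 z^2)) d^(-α/16) 2 M0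
≥ d^(-α/8 - α/16) d^(1/2+α) 2^(-k)` (`VV_ge`, `phi_lower (α/16)`; see `TQ/Z1.lean`, `TQ/Z2.lean` for such proofs). So the inequality holds for large `d`.
-/

namespace Pool.Agent.Lib.MP_42948a_nt.PS

open Finset Pool.Agent.Lib.MP_42948a_nt.OA Pool.Agent.Lib.MP_42948a_nt.AC Pool.Agent.Lib.MP_42948a_nt.TQ

private theorem B6a_pow (x c : ℝ) (hx : 1 ≤ x) (n : ℕ) (e : ℝ) (h : c * n ≤ e) :
    ((⌊x ^ c⌋₊ : ℕ) : ℝ) ^ n ≤ x ^ e := by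
  have hx0 : (0 : ℝ) ≤ x := by linarith
  calc ((⌊x ^ c⌋₊ : ℕ) : ℝ) ^ n ≤ (x ^ c) ^ n :=
        pow_le_pow_left₀ (Nat.cast_nonneg _) (Nat.floor_le (Real.rpow_nonneg hx0 c)) n
    _ = x ^ (c * n) := by rw [← Real.rpow_natCast, ← Real.rpow_mul hx0]
    _ ≤ x ^ e := Real.rpow_le_rpow_of_exponent_le hx h

private theorem B6a_half (x : ℝ) (hx : 2 ≤ x) : x / 2 ≤ ((⌊x⌋₊ : ℕ) : ℝ) := by
  have := Nat.sub_one_lt_floor x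
  linarith

theorem num_few (α : ℝ) (hα : 0 < α) (hα1 : α ≤ 1) (K k : ℕ) (hk : 1 / 2 + α ≤ k * α) :
    ∃ d0 : ℕ, ∀ d : ℕ, d0 ≤ d → ∀ [NeZero d], ∀ x : ℝ, 0 ≤ x → x ≤ (d : ℝ) ^ (α / 8) →
      2 ≤ ⌊(d : ℝ) ^ (α / (16 * (K + 2)))⌋₊ ∧
      (⌊(d : ℝ) ^ (α / (16 * (K + 2)))⌋₊ : ℝ) ^ K * (1 + BB d) + x * ((⌊(d : ℝ) ^ (α / (16 * (K + 2)))⌋₊ : ℝ) ^ K * BB d) ≤
        VV d ⌊(d : ℝ) ^ (α / (16 * (K + 2)))⌋₊ *
          ((Fintype.card (ZMod d)ˣ : ℝ) * (2 * ⌊(d : ℝ) ^ α⌋₊ ^ k : ℕ) / d) := by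
  have hα16 : 0 < α / 16 := by positivity
  obtain ⟨d1, hd1⟩ := BB_le (α / 16) hα16
  obtain ⟨d2, hd2⟩ := phi_lower (α / 16) hα16 (by linarith)
  obtain ⟨b, hb⟩ : ∃ b : ℝ, α / (16 * ((K : ℝ) + 2)) = b := ⟨_, rfl⟩
  have hK0 : (0 : ℝ) ≤ (K : ℝ) := Nat.cast_nonneg K
  have hden : (0 : ℝ) < 16 * ((K : ℝ) + 2) := by positivity
  have hb0 : 0 < b := by
    rw [← hb]
    positivity
  have hbe : b * K * 16 + b * 32 = α := by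
    rw [← hb]
    field_simp
    try ring
  have hbK0 : 0 ≤ b * K := mul_nonneg hb0.le hK0
  have hbK : b * (K : ℝ) ≤ α / 16 := by linarith
  have hb2 : b * ((2 : ℕ) : ℝ) ≤ α / 16 := by
    push_cast
    linarith
  have hT := tendsto_natCast_atTop_atTop (R := ℝ)
  have l1 : ∀ᶠ x : ℝ in Filter.atTop, (2 : ℝ) ≤ x ^ b := (tendsto_rpow_atTop hb0).eventually_ge_atTop _
  have l2 : ∀ᶠ x : ℝ in Filter.atTop, (2 : ℝ) ≤ x ^ α := (tendsto_rpow_atTop hα).eventually_ge_atTop _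
  have l3 : ∀ᶠ x : ℝ in Filter.atTop, (3 * 2 ^ k : ℝ) ≤ x ^ (5 * α / 8) :=
    (tendsto_rpow_atTop (by positivity : 0 < 5 * α / 8)).eventually_ge_atTop _
  have l4 : ∀ᶠ d : ℕ in Filter.atTop, 1 ≤ d ∧ (2 : ℝ) ≤ (d : ℝ) ^ b ∧ (2 : ℝ) ≤ (d : ℝ) ^ α ∧
      (3 * 2 ^ k : ℝ) ≤ (d : ℝ) ^ (5 * α / 8) := by
    filter_upwards [Filter.eventually_ge_atTop 1, hT.eventually l1, hT.eventually l2, hT.eventually l3] with d a b c e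
    exact ⟨a, b, c, e⟩
  obtain ⟨d3, hd3⟩ := Filter.eventually_atTop.mp l4
  refine ⟨max (max d1 d2) d3, fun d hd _ x hx0 hx => ?_⟩
  have hda : d1 ≤ d := (le_max_left _ _).trans ((le_max_left _ _).trans hd)
  have hdb : d2 ≤ d := (le_max_right _ _).trans ((le_max_left _ _).trans hd)
  obtain ⟨f1, f2, f3, f4⟩ := hd3 d ((le_max_right _ _).trans hd)
  have hBB := (hd1 d hda).1
  have hφ := hd2 d hdb
  have hy1 : (1 : ℝ) ≤ d := by exact_mod_cast f1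
  have hy0 : (0 : ℝ) < d := by linarith
  have hzK := B6a_pow (d : ℝ) b hy1 K (α / 16) hbK
  have hz2 := B6a_pow (d : ℝ) b hy1 2 (α / 16) hb2
  have hzz : 2 ≤ ⌊(d : ℝ) ^ b⌋₊ := Nat.le_floor (by exact_mod_cast f2)
  have hM := B6a_half _ f3
  rw [hb]
  refine ⟨hzz, ?_⟩
  have hVg := VV_ge d _ hzz
  obtain ⟨z, hze⟩ : ∃ z : ℕ, ⌊(d : ℝ) ^ b⌋₊ = z := ⟨_, rfl⟩
  obtain ⟨w, hwe⟩ : ∃ w : ℕ, ⌊(d : ℝ) ^ α⌋₊ = w := ⟨_, rfl⟩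
  rw [hze] at hzK hz2 hzz hVg ⊢
  rw [hwe] at hM ⊢
  have hz0 : (2 : ℝ) ≤ (z : ℝ) := by exact_mod_cast hzz
  have hBB0 : 0 ≤ BB d := by
    unfold BB
    have : 0 ≤ Real.log d := Real.log_nonneg hy1
    positivity
  have hone : (1 : ℝ) ≤ (d : ℝ) ^ (1 / 2 + α / 16) := Real.one_le_rpow hy1 (by positivity)
  -- left side
  have hleft : (z : ℝ) ^ K * (1 + BB d) + x * ((z : ℝ) ^ K * BB d) ≤ 3 * (d : ℝ) ^ (1 / 2 + α / 4) := by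
    have a1 : (z : ℝ) ^ K * (1 + BB d) ≤ (d : ℝ) ^ (α / 16) * (2 * (d : ℝ) ^ (1 / 2 + α / 16)) := by
      gcongr
      linarith
    have a2 : x * ((z : ℝ) ^ K * BB d) ≤ (d : ℝ) ^ (α / 8) * ((d : ℝ) ^ (α / 16) * (d : ℝ) ^ (1 / 2 + α / 16)) := by
      gcongr
    have a3 : (d : ℝ) ^ (α / 16) * (2 * (d : ℝ) ^ (1 / 2 + α / 16)) ≤ 2 * (d : ℝ) ^ (1 / 2 + α / 4) := by
      have e : (d : ℝ) ^ (α / 16) * (2 * (d : ℝ) ^ (1 / 2 + α / 16)) =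
          2 * ((d : ℝ) ^ (α / 16) * (d : ℝ) ^ (1 / 2 + α / 16)) := by ring
      rw [e, ← Real.rpow_add hy0]
      have := Real.rpow_le_rpow_of_exponent_le hy1 (by linarith : α / 16 + (1 / 2 + α / 16) ≤ 1 / 2 + α / 4)
      linarith
    have a4 : (d : ℝ) ^ (α / 8) * ((d : ℝ) ^ (α / 16) * (d : ℝ) ^ (1 / 2 + α / 16)) = (d : ℝ) ^ (1 / 2 + α / 4) := by
      rw [← Real.rpow_add hy0, ← Real.rpow_add hy0]
      congr 1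
      ring
    linarith
  refine hleft.trans ?_
  -- right side
  have b1 : (d : ℝ) ^ (-(α / 16)) / 2 ≤ VV d z := by
    refine le_trans ?_ hVg
    have e2 : (0 : ℝ) < (z : ℝ) ^ 2 := by positivity
    rw [Real.rpow_neg hy0.le, inv_eq_one_div, div_div, one_div_le_one_div (by positivity) (by positivity)]
    linarith
  have b2 : (d : ℝ) ^ (k * α) / 2 ^ k ≤ (w : ℝ) ^ k := by
    have e1 := pow_le_pow_left₀ (by positivity) hM k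
    refine le_trans (le_of_eq ?_) e1
    rw [div_pow, ← Real.rpow_natCast ((d : ℝ) ^ α) k, ← Real.rpow_mul hy0.le]
    congr 2
    ring
  have b3 : (d : ℝ) ^ (1 / 2 + α) / 2 ^ k ≤ (w : ℝ) ^ k := by
    refine le_trans ?_ b2
    have := Real.rpow_le_rpow_of_exponent_le hy1 hk
    gcongr
  have b4 : (d : ℝ) ^ (-(α / 16)) / 2 * ((d : ℝ) ^ (1 - α / 16) * (2 * ((d : ℝ) ^ (1 / 2 + α) / 2 ^ k)) / d) ≤
      VV d z * ((Fintype.card (ZMod d)ˣ : ℝ) * (2 * w ^ k : ℕ) / d) := by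
    push_cast
    gcongr
    exact (VV_pos d z).le
  refine le_trans ?_ b4
  have b5 : (d : ℝ) ^ (-(α / 16)) / 2 * ((d : ℝ) ^ (1 - α / 16) * (2 * ((d : ℝ) ^ (1 / 2 + α) / 2 ^ k)) / d) =
      (d : ℝ) ^ (1 / 2 + α / 4) * (d : ℝ) ^ (5 * α / 8) / 2 ^ k := by
    have e1 : (d : ℝ) ^ (1 / 2 + α / 4) * (d : ℝ) ^ (5 * α / 8) * d =
        (d : ℝ) ^ (-(α / 16)) * (d : ℝ) ^ (1 - α / 16) * (d : ℝ) ^ (1 / 2 + α) := by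
      have e2 : (d : ℝ) ^ (1 / 2 + α / 4) * (d : ℝ) ^ (5 * α / 8) * d =
          (d : ℝ) ^ (1 / 2 + α / 4) * (d : ℝ) ^ (5 * α / 8) * (d : ℝ) ^ (1 : ℝ) := by rw [Real.rpow_one]
      rw [e2, ← Real.rpow_add hy0, ← Real.rpow_add hy0, ← Real.rpow_add hy0, ← Real.rpow_add hy0]
      congr 1
      ring
    rw [← mul_div_assoc, eq_comm, eq_div_iff hy0.ne', div_mul_eq_mul_div, e1]
    field_simp
  rw [b5, le_div_iff₀ (by positivity)]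
  have hp : 0 < (d : ℝ) ^ (1 / 2 + α / 4) := by positivity
  calc 3 * (d : ℝ) ^ (1 / 2 + α / 4) * 2 ^ k = (d : ℝ) ^ (1 / 2 + α / 4) * (3 * 2 ^ k) := by ring
    _ ≤ (d : ℝ) ^ (1 / 2 + α / 4) * (d : ℝ) ^ (5 * α / 8) := mul_le_mul_of_nonneg_left f4 hp.le

end Pool.Agent.Lib.MP_42948a_nt.PS
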