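import Pool.Agent.Lib.MP_42948a_nt.PS.B1c
import Pool.Agent.Lib.MP_42948a_nt.PS.B2b
import Pool.Agent.Lib.MP_42948a_nt.PS.B3
import Pool.Agent.Lib.MP_42948a_nt.PS.B5
import Pool.Agent.Lib.MP_42948a_nt.PS.B6a
import Pool.Agent.Lib.MP_42948a_nt.TQ.A2

/-!
# A moment of the averages over the primes (job B6)

`fund 1` (`TQ/A2.lean`) gives `K` and `Fund 1 K z u l` for `z ≥ 2` (read `TQ/A2.lean`; `τ = 1`). `b = α/(16 (K + 2))`, `z = ⌊d^b⌋`, `M0 = z1^k`, `z1 = ⌊d^α⌋`, `Y = ⌊d^(2α)⌋`,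
`k ≥ 1`; `J` with `Y^k ≤ 2^J M0` and `J ≤ C1 log d` (`Y^k ≤ d^(2αk)`, e.g. `J = Nat.clog 2 (Y^k) ≤ 2αk log d/log 2 + 1`, `M0 ≥ 1`); `a` from
`pow_expand` (`D0 = k^k`); all `n` with `a n ≠ 0` lie in `Ioc M0 (2^J M0)`, and are `z`-rough (`z ≤ z1`); `blocks` with `num_few`:
`∑_Ξ ‖∑_u (1/u) χ(u)‖^(2k) ≤ (J k^k 6 VV φ/d)^2 ≤ (6 k^k J / log z)^2 ≤ C2` (`VV_upper`; `log z ≥ (b/2) log d`, `J ≤ C1 log d`). Divide by
`Wt^(2k) ≥ 20^(-2k)` (`Wt_lower`): `∑_{χ ∈ Ξ} ‖Pa U χ‖^(2k) ≤ C`, for all `Ξ` with `#Ξ ≤ d^(α/8)`.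
-/

namespace Pool.Agent.Lib.MP_42948a_nt.PS

open Finset Pool.Agent.Lib.MP_42948a_nt.OA Pool.Agent.Lib.MP_42948a_nt.AC Pool.Agent.Lib.MP_42948a_nt.TQ

/-- the number of dyadic blocks -/
private theorem B6_clog (α : ℝ) (hα : 0 < α) (k d : ℕ) (hd : 3 ≤ d) :
    ((Nat.clog 2 (⌊(d : ℝ) ^ (2 * α)⌋₊ ^ k) : ℕ) : ℝ) ≤
      (2 * α * k / Real.log 2 + 1) * Real.log d := by
  have hd1 : (1 : ℝ) ≤ d := by exact_mod_cast (by omega : 1 ≤ d)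
  have hdpos : (0 : ℝ) < d := by linarith
  have hlog : 1 ≤ Real.log d := by
    rw [Real.le_log_iff_exp_le hdpos]
    have h3 : (3 : ℝ) ≤ d := by exact_mod_cast hd
    exact Real.exp_one_lt_three.le.trans h3
  have hl2 : 0 < Real.log 2 := Real.log_pos one_lt_two
  obtain ⟨Y, hY⟩ : ∃ Y, Y = ⌊(d : ℝ) ^ (2 * α)⌋₊ := ⟨_, rfl⟩
  rw [← hY]
  have hx1 : (1 : ℝ) ≤ (d : ℝ) ^ (2 * α) := Real.one_le_rpow hd1 (by linarith)
  have hY1 : 1 ≤ Y := by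
    rw [hY]
    exact Nat.le_floor (by simpa using hx1)
  have hYR : (1 : ℝ) ≤ Y := by exact_mod_cast hY1
  have hYle : (Y : ℝ) ≤ (d : ℝ) ^ (2 * α) := by
    rw [hY]
    exact Nat.floor_le (by positivity)
  have hlY0 : 0 ≤ Real.log Y := Real.log_nonneg hYR
  have hlY : Real.log Y ≤ 2 * α * Real.log d := by
    rw [← Real.log_rpow hdpos]
    exact Real.log_le_log (by linarith) hYle
  have h1 := Real.natCeil_logb_natCast 2 (Y ^ k)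
  rw [← h1]
  have h2 : Real.logb 2 ((Y ^ k : ℕ) : ℝ) = k * Real.log Y / Real.log 2 := by
    rw [Real.logb, Nat.cast_pow, Real.log_pow]
  have h3 : (0 : ℝ) ≤ Real.logb 2 ((Y ^ k : ℕ) : ℝ) := by
    rw [h2]
    positivity
  have h4 := Nat.ceil_lt_add_one h3
  have h5 : k * Real.log Y / Real.log 2 ≤ 2 * α * k / Real.log 2 * Real.log d := by
    rw [div_mul_eq_mul_div]
    refine div_le_div_of_nonneg_right ?_ hl2.le
    have := mul_le_mul_of_nonneg_left hlY (Nat.cast_nonneg (α := ℝ) k)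
    linarith
  push_cast at h4 ⊢
  push_cast at h2
  rw [h2] at h4 ⊢
  linarith

theorem moment_log (α : ℝ) (hα : 0 < α) (hα1 : α ≤ 1) (k : ℕ) (hk : 1 / 2 + α ≤ k * α) :
    ∃ C : ℝ, 0 < C ∧ ∃ d0 : ℕ, ∀ d : ℕ, d0 ≤ d → ∀ [NeZero d], ∀ Ξ : Finset (DirichletCharacter ℂ d),
      (Ξ.card : ℝ) ≤ (d : ℝ) ^ (α / 8) →
      ∑ χ ∈ Ξ, ‖Pa (primesOff d ⌊(d : ℝ) ^ α⌋₊ ⌊(d : ℝ) ^ (2 * α)⌋₊) χ‖ ^ (2 * k) ≤ C := by
  obtain ⟨K, hK⟩ := fund 1 one_pos le_rfl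
  obtain ⟨d1, h1⟩ := Wt_lower α hα
  obtain ⟨d2, h2⟩ := num_few α hα hα1 K k hk
  have hk1 : 1 ≤ k := by
    rcases Nat.eq_zero_or_pos k with rfl | h
    · rw [Nat.cast_zero, zero_mul] at hk
      linarith
    · exact h
  have hkR : (1 : ℝ) ≤ k := by exact_mod_cast hk1
  obtain ⟨b, hb⟩ : ∃ b : ℝ, b = α / (16 * (K + 2)) := ⟨_, rfl⟩
  have hKR : (0 : ℝ) ≤ K := Nat.cast_nonneg K
  have hb0 : 0 < b := by rw [hb]; positivity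
  have hbα : b ≤ α := by
    rw [hb]
    exact div_le_self hα.le (by linarith)
  have hl2 : 0 < Real.log 2 := Real.log_pos one_lt_two
  obtain ⟨C1, hC1⟩ : ∃ C1 : ℝ, C1 = 2 * α * k / Real.log 2 + 1 := ⟨_, rfl⟩
  have hC10 : 0 < C1 := by rw [hC1]; positivity
  have hkk : (0 : ℝ) < (k : ℝ) ^ k := by positivity
  refine ⟨(C1 * ((k : ℝ) ^ k * (6 * (2 / b)))) ^ 2 * 20 ^ (2 * k), by positivity,
    max (max d1 d2) 3, fun d hd _ Ξ hΞ => ?_⟩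
  have hd1 : d1 ≤ d := le_trans (le_trans (le_max_left _ _) (le_max_left _ _)) hd
  have hd2 : d2 ≤ d := le_trans (le_trans (le_max_right _ _) (le_max_left _ _)) hd
  have hd3 : 3 ≤ d := le_trans (le_max_right _ _) hd
  have hdR : (1 : ℝ) ≤ d := by exact_mod_cast (by omega : 1 ≤ d)
  have hdpos : (0 : ℝ) < d := by linarith
  have hld : 0 < Real.log d := Real.log_pos (by exact_mod_cast (by omega : 1 < d))
  obtain ⟨hz2, hs⟩ := h2 d hd2 (Ξ.card : ℝ) (Nat.cast_nonneg _) hΞ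
  rw [← hb] at hz2 hs
  have hW := h1 d hd1
  obtain ⟨z, hz⟩ : ∃ z, z = ⌊(d : ℝ) ^ b⌋₊ := ⟨_, rfl⟩
  obtain ⟨z1, hz1⟩ : ∃ z1, z1 = ⌊(d : ℝ) ^ α⌋₊ := ⟨_, rfl⟩
  obtain ⟨Y, hY⟩ : ∃ Y, Y = ⌊(d : ℝ) ^ (2 * α)⌋₊ := ⟨_, rfl⟩
  have hJ1 := B6_clog α hα k d hd3
  rw [← hC1, ← hY] at hJ1
  rw [← hz] at hz2
  rw [← hz, ← hz1] at hs
  rw [← hz1, ← hY] at hW ⊢
  obtain ⟨U, hU⟩ : ∃ U, U = primesOff d z1 Y := ⟨_, rfl⟩
  rw [← hU] at hW ⊢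
  have hUp : ∀ u ∈ U, u.Prime ∧ z1 < u ∧ u ≤ Y ∧ u.Coprime d := by
    intro u hu
    rw [hU, primesOff, mem_filter, mem_Icc] at hu
    exact ⟨hu.2.1, hu.2.2.1, hu.1.2, (Nat.Prime.coprime_iff_not_dvd hu.2.1).2 hu.2.2.2⟩
  have hzz1 : z ≤ z1 := by
    rw [hz, hz1]
    exact Nat.floor_le_floor (Real.rpow_le_rpow_of_exponent_le hdR hbα)
  have hlz : b / 2 * Real.log d ≤ Real.log z := by
    have e1 : (d : ℝ) ^ b < z + 1 := by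
      rw [hz]
      exact Nat.lt_floor_add_one _
    have e2 : (2 : ℝ) ≤ z := by exact_mod_cast hz2
    have e3 : (d : ℝ) ^ b ≤ (z : ℝ) ^ 2 := by nlinarith
    have e4 := Real.log_le_log (by positivity) e3
    rw [Real.log_rpow hdpos, Real.log_pow] at e4
    push_cast at e4
    linarith
  have hlz0 : 0 < Real.log z := lt_of_lt_of_le (by positivity) hlz
  obtain ⟨u, l, hF⟩ := hK z hz2
  obtain ⟨a, ha, ha2, ha3⟩ := pow_expand d z1 Y k hk1 U hUp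
  obtain ⟨M0, hM0⟩ : ∃ M0, M0 = z1 ^ k := ⟨_, rfl⟩
  have hM01 : 1 ≤ M0 := by
    rw [hM0]
    exact Nat.one_le_pow _ _ (by omega)
  obtain ⟨J, hJ⟩ : ∃ J, J = Nat.clog 2 (Y ^ k) := ⟨_, rfl⟩
  rw [← hJ] at hJ1
  rw [← hM0] at hs ha2
  have hYJ : Y ^ k ≤ 2 ^ J * M0 := by
    rw [hJ]
    calc Y ^ k ≤ 2 ^ Nat.clog 2 (Y ^ k) := Nat.le_pow_clog one_lt_two _
      _ = 2 ^ Nat.clog 2 (Y ^ k) * 1 := (mul_one _).symm
      _ ≤ _ := Nat.mul_le_mul_left _ hM01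
  have hbl := blocks hF one_pos le_rfl d M0 hM01 ((k : ℝ) ^ k) hkk a ha
    (fun n hn => by
      obtain ⟨g1, g2, g3, g4⟩ := ha2 n hn
      exact ⟨⟨g3.1, fun p hp hpn => lt_of_le_of_lt hzz1 (g3.2 p hp hpn)⟩, g4⟩) Ξ hs J
  have hsum : ∀ χ : DirichletCharacter ℂ d,
      ∑ n ∈ Ioc M0 (2 ^ J * M0), ((a n / (n : ℝ) : ℝ) : ℂ) * χ (n : ZMod d) =
        (∑ u ∈ U, ((1 / (u : ℝ) : ℝ) : ℂ) * χ (u : ZMod d)) ^ k := by
    intro χ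
    rw [ha3 χ]
    have s1 : Ioc M0 (Y ^ k) ⊆ Ioc M0 (2 ^ J * M0) := Finset.Ioc_subset_Ioc_right hYJ
    have s2 : Ioc M0 (Y ^ k) ⊆ Icc 1 (Y ^ k) := by
      intro n hn
      rw [mem_Ioc] at hn
      rw [mem_Icc]
      exact ⟨by omega, hn.2⟩
    have hz0 : ∀ n, n ∉ Ioc M0 (Y ^ k) → ((a n / (n : ℝ) : ℝ) : ℂ) * χ (n : ZMod d) = 0 := by
      intro n hn
      have h0 : a n = 0 := by
        by_contra hne
        obtain ⟨g1, g2, -⟩ := ha2 n hne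
        exact hn (mem_Ioc.2 ⟨g1, g2⟩)
      rw [h0, zero_div, Complex.ofReal_zero, zero_mul]
    rw [← Finset.sum_subset s1 (fun n _ hn => hz0 n hn),
      ← Finset.sum_subset s2 (fun n _ hn => hz0 n hn)]
  have hWpos : 0 < Wt U := lt_of_lt_of_le (by norm_num) hW
  have hterm : ∀ χ ∈ Ξ, ‖Pa U χ‖ ^ (2 * k) ≤
      ‖∑ n ∈ Ioc M0 (2 ^ J * M0), ((a n / (n : ℝ) : ℝ) : ℂ) * χ (n : ZMod d)‖ ^ 2 *
        20 ^ (2 * k) := by
    intro χ _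
    rw [hsum χ, Pa, norm_div, Complex.norm_real, Real.norm_of_nonneg hWpos.le, norm_pow,
      ← pow_mul, mul_comm k 2, ← mul_pow]
    refine pow_le_pow_left₀ (by positivity) ?_ _
    rw [div_le_iff₀ hWpos]
    have e1 : 1 ≤ 20 * Wt U := by linarith
    have e2 := norm_nonneg (∑ u ∈ U, ((1 / (u : ℝ) : ℝ) : ℂ) * χ (u : ZMod d))
    nlinarith
  refine (Finset.sum_le_sum hterm).trans ?_
  rw [← Finset.sum_mul]
  refine mul_le_mul_of_nonneg_right (hbl.trans ?_) (by positivity)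
  have hVV := VV_upper d z hz2
  have hVV0 : 0 ≤ VV d z * ((Fintype.card (ZMod d)ˣ : ℝ) / d) :=
    mul_nonneg (VV_pos d z).le (by positivity)
  have hVV2 : VV d z * ((Fintype.card (ZMod d)ˣ : ℝ) / d) ≤ (2 / b) / Real.log d := by
    refine hVV.trans ?_
    rw [div_le_div_iff₀ hlz0 hld, one_mul]
    calc Real.log d = (2 / b) * (b / 2 * Real.log d) := by field_simp
      _ ≤ (2 / b) * Real.log z := mul_le_mul_of_nonneg_left hlz (by positivity)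
  refine pow_le_pow_left₀ (by positivity) ?_ 2
  calc (J : ℝ) * ((k : ℝ) ^ k * (6 * (VV d z * ((Fintype.card (ZMod d)ˣ : ℝ) / d))))
      ≤ (C1 * Real.log d) * ((k : ℝ) ^ k * (6 * ((2 / b) / Real.log d))) := by
        refine mul_le_mul hJ1 ?_ (by positivity) (by positivity)
        refine mul_le_mul_of_nonneg_left ?_ hkk.le
        linarith
    _ = C1 * ((k : ℝ) ^ k * (6 * (2 / b))) := by
        field_simp

end Pool.Agent.Lib.MP_42948a_nt.PS
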