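import Pool.Agent.Lib.MP_42948a_nt.PS.Defs
import Pool.Agent.Lib.MP_42948a_nt.TQ.M1

/-!
# The norm `Nn f` on the characters

`f ≥ 0`, `e = ∑ f > 0`, `SF f χ = ∑_c f c * conj (ev χ c)`, so `‖SF f χ‖ ≤ e`, `SF f 1 = e` (`ev 1 c = 1`), `SF f χ⁻¹ = conj (SF f χ)` (`conj_ev`, `f` real).
`Nn_sq`: `nf ≤ 1`, `Real.sq_sqrt`.
`Nn_mul`: choose `θ, θ'` of norm one with `θ * SF f χ = ‖SF f χ‖`, `θ' * SF f ψ = ‖SF f ψ‖` (`M1_theta` in `TQ/M1.lean`). For every `χ`, `θ` of norm one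
(`dist_id`): `∑_c f c ‖ev χ c - θ‖^2 = 2 e - 2 Re (θ * SF f χ)` (`‖ev - θ‖^2 = 2 - 2 Re (θ conj (ev χ c))`), which is `= 2 e - 2 ‖SF f χ‖ = e (Nn f χ)^2` for the
chosen `θ`, and `≥ 2e - 2‖SF f χ‖ = e (Nn f χ)^2` for every `θ`. `ev (χ ψ) c - θ θ' = (ev χ c - θ) ev ψ c + θ (ev ψ c - θ')`, so
`‖ev (χ ψ) c - θ θ'‖ ≤ ‖ev χ c - θ‖ + ‖ev ψ c - θ'‖`, and by Minkowski (expand the square and use Cauchy-Schwarz `Finset.sum_mul_sq_le_sq_mul_sq` with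
`√(f c) ‖..‖`): `e (Nn (χψ))^2 ≤ ∑ f ‖ev (χψ) - θθ'‖^2 ≤ e (Nn χ + Nn ψ)^2`. Divide by `e` and take roots (`abs_le_of_sq_le_sq`-like, `Nn ≥ 0`).
-/

namespace Pool.Agent.Lib.MP_42948a_nt.PS

open Finset Pool.Agent.Lib.MP_42948a_nt.OA Pool.Agent.Lib.MP_42948a_nt.AC Pool.Agent.Lib.MP_42948a_nt.TQ

private theorem C1_norm_le {d : ℕ} [NeZero d] (f : (ZMod d)ˣ → ℝ) (hf : ∀ c, 0 ≤ f c) (χ : DirichletCharacter ℂ d) :
    ‖SF f χ‖ ≤ ∑ c, f c := by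
  unfold SF
  refine (norm_sum_le _ _).trans (le_of_eq ?_)
  apply Finset.sum_congr rfl
  intro c _
  rw [norm_mul, RCLike.norm_conj, norm_ev, mul_one, Complex.norm_real, Real.norm_eq_abs, abs_of_nonneg (hf c)]

private theorem C1_SF_one {d : ℕ} [NeZero d] (f : (ZMod d)ˣ → ℝ) : SF f 1 = ((∑ c, f c : ℝ) : ℂ) := by
  unfold SF
  rw [Complex.ofReal_sum]
  apply Finset.sum_congr rfl
  intro c _
  have h1 : ev (1 : DirichletCharacter ℂ d) c = 1 := by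
    unfold ev
    exact MulChar.one_apply_coe c
  rw [h1, map_one, mul_one]

private theorem C1_SF_inv {d : ℕ} [NeZero d] (f : (ZMod d)ˣ → ℝ) (χ : DirichletCharacter ℂ d) :
    SF f χ⁻¹ = (starRingEnd ℂ) (SF f χ) := by
  unfold SF
  rw [map_sum]
  apply Finset.sum_congr rfl
  intro c _
  rw [map_mul, Complex.conj_ofReal, ← conj_ev' χ c]

private theorem C1_term {d : ℕ} [NeZero d] (χ : DirichletCharacter ℂ d) (c : (ZMod d)ˣ) (θ : ℂ) (hθ : ‖θ‖ = 1) :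
    ‖ev χ c - θ‖ ^ 2 = 2 - 2 * (θ * (starRingEnd ℂ) (ev χ c)).re := by
  have hz : ‖ev χ c‖ ^ 2 = 1 := by rw [norm_ev]; norm_num
  have hw : ‖θ‖ ^ 2 = 1 := by rw [hθ]; norm_num
  rw [← Complex.normSq_eq_norm_sq] at hz hw ⊢
  rw [Complex.normSq_sub, hz, hw]
  have h4 : (ev χ c * (starRingEnd ℂ) θ).re = (θ * (starRingEnd ℂ) (ev χ c)).re := by
    rw [← Complex.conj_re (ev χ c * (starRingEnd ℂ) θ)]
    congr 1
    rw [map_mul, Complex.conj_conj]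
    ring
  rw [h4]
  ring

private theorem C1_dist {d : ℕ} [NeZero d] (f : (ZMod d)ˣ → ℝ) (χ : DirichletCharacter ℂ d) (θ : ℂ) (hθ : ‖θ‖ = 1) :
    ∑ c, f c * ‖ev χ c - θ‖ ^ 2 = 2 * (∑ c, f c) - 2 * (θ * SF f χ).re := by
  have h1 : ∀ c, f c * ‖ev χ c - θ‖ ^ 2 = 2 * f c - 2 * (θ * ((f c : ℂ) * (starRingEnd ℂ) (ev χ c))).re := by
    intro c
    rw [C1_term χ c θ hθ]
    have h2 : (θ * ((f c : ℂ) * (starRingEnd ℂ) (ev χ c))).re = f c * (θ * (starRingEnd ℂ) (ev χ c)).re := by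
      rw [← Complex.re_ofReal_mul]
      congr 1
      ring
    rw [h2]
    ring
  rw [Finset.sum_congr rfl (fun c _ => h1 c), Finset.sum_sub_distrib, ← Finset.mul_sum, ← Finset.mul_sum,
    ← Complex.re_sum, ← Finset.mul_sum]
  rfl

theorem nf_nonneg {d : ℕ} [NeZero d] (f : (ZMod d)ˣ → ℝ) (hf : ∀ c, 0 ≤ f c) (χ : DirichletCharacter ℂ d) : 0 ≤ nf f χ :=
  div_nonneg (norm_nonneg _) (Finset.sum_nonneg fun c _ => hf c)

theorem nf_le_one {d : ℕ} [NeZero d] (f : (ZMod d)ˣ → ℝ) (hf : ∀ c, 0 ≤ f c) (χ : DirichletCharacter ℂ d) : nf f χ ≤ 1 :=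
  div_le_one_of_le₀ (C1_norm_le f hf χ) (Finset.sum_nonneg fun c _ => hf c)

theorem Nn_nonneg {d : ℕ} [NeZero d] (f : (ZMod d)ˣ → ℝ) (χ : DirichletCharacter ℂ d) : 0 ≤ Nn f χ :=
  Real.sqrt_nonneg _

theorem Nn_sq {d : ℕ} [NeZero d] (f : (ZMod d)ˣ → ℝ) (hf : ∀ c, 0 ≤ f c) (χ : DirichletCharacter ℂ d) :
    Nn f χ ^ 2 = 2 - 2 * nf f χ := by
  have h1 := nf_le_one f hf χ
  exact Real.sq_sqrt (by linarith)

theorem Nn_one {d : ℕ} [NeZero d] (f : (ZMod d)ˣ → ℝ) (hf : ∀ c, 0 ≤ f c) (he : 0 < ∑ c, f c) : Nn f 1 = 0 := by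
  have h1 : nf f 1 = 1 := by
    unfold nf
    rw [C1_SF_one, Complex.norm_real, Real.norm_eq_abs, abs_of_pos he, div_self he.ne']
  unfold Nn
  rw [h1, mul_one, sub_self, Real.sqrt_zero]

theorem Nn_inv {d : ℕ} [NeZero d] (f : (ZMod d)ˣ → ℝ) (χ : DirichletCharacter ℂ d) : Nn f χ⁻¹ = Nn f χ := by
  unfold Nn nf
  rw [C1_SF_inv, RCLike.norm_conj]

private theorem C1_mul_sq {d : ℕ} [NeZero d] (f : (ZMod d)ˣ → ℝ) (hf : ∀ c, 0 ≤ f c) (he : 0 < ∑ c, f c)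
    (χ : DirichletCharacter ℂ d) : (∑ c, f c) * Nn f χ ^ 2 = 2 * (∑ c, f c) - 2 * ‖SF f χ‖ := by
  rw [Nn_sq f hf χ]
  unfold nf
  field_simp

theorem Nn_mul {d : ℕ} [NeZero d] (f : (ZMod d)ˣ → ℝ) (hf : ∀ c, 0 ≤ f c) (he : 0 < ∑ c, f c)
    (χ ψ : DirichletCharacter ℂ d) : Nn f (χ * ψ) ≤ Nn f χ + Nn f ψ := by
  obtain ⟨θ, hθ1, hθ⟩ := M1_theta (SF f χ)
  obtain ⟨θ', hθ1', hθ'⟩ := M1_theta (SF f ψ)
  set e : ℝ := ∑ c, f c with hedef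
  set a : (ZMod d)ˣ → ℝ := fun c => ‖ev χ c - θ‖ with ha
  set b : (ZMod d)ˣ → ℝ := fun c => ‖ev ψ c - θ'‖ with hb
  have hA : ∑ c, f c * a c ^ 2 = e * Nn f χ ^ 2 := by
    rw [C1_mul_sq f hf he χ, ← hedef]
    have h1 := C1_dist f χ θ hθ1
    rw [hθ, Complex.ofReal_re] at h1
    exact h1
  have hB : ∑ c, f c * b c ^ 2 = e * Nn f ψ ^ 2 := by
    rw [C1_mul_sq f hf he ψ, ← hedef]
    have h1 := C1_dist f ψ θ' hθ1'
    rw [hθ', Complex.ofReal_re] at h1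
    exact h1
  have hθθ : ‖θ * θ'‖ = 1 := by rw [norm_mul, hθ1, hθ1', mul_one]
  have hC : e * Nn f (χ * ψ) ^ 2 ≤ ∑ c, f c * ‖ev (χ * ψ) c - θ * θ'‖ ^ 2 := by
    rw [C1_mul_sq f hf he (χ * ψ), C1_dist f (χ * ψ) (θ * θ') hθθ, ← hedef]
    have h1 : (θ * θ' * SF f (χ * ψ)).re ≤ ‖SF f (χ * ψ)‖ := by
      refine (Complex.re_le_norm _).trans (le_of_eq ?_)
      rw [norm_mul, hθθ, one_mul]
    linarith
  have hD : ∀ c, ‖ev (χ * ψ) c - θ * θ'‖ ≤ a c + b c := by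
    intro c
    have h1 : ev (χ * ψ) c - θ * θ' = (ev χ c - θ) * ev ψ c + θ * (ev ψ c - θ') := by
      rw [ev_mul_char]
      ring
    rw [h1]
    refine (norm_add_le _ _).trans (le_of_eq ?_)
    rw [norm_mul, norm_mul, norm_ev, hθ1, mul_one, one_mul]
  have hE : ∑ c, f c * ‖ev (χ * ψ) c - θ * θ'‖ ^ 2 ≤ ∑ c, f c * (a c + b c) ^ 2 :=
    Finset.sum_le_sum fun c _ => mul_le_mul_of_nonneg_left (pow_le_pow_left₀ (norm_nonneg _) (hD c) 2) (hf c)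
  have hF : ∑ c, f c * (a c + b c) ^ 2 =
      ∑ c, f c * a c ^ 2 + 2 * (∑ c, f c * (a c * b c)) + ∑ c, f c * b c ^ 2 := by
    rw [Finset.mul_sum, ← Finset.sum_add_distrib, ← Finset.sum_add_distrib]
    apply Finset.sum_congr rfl
    intro c _
    ring
  have hχ0 := Nn_nonneg f χ
  have hψ0 := Nn_nonneg f ψ
  have hG : ∑ c, f c * (a c * b c) ≤ e * (Nn f χ * Nn f ψ) := by
    have h1 := Finset.sum_mul_sq_le_sq_mul_sq (Finset.univ : Finset (ZMod d)ˣ) (fun c => √(f c) * a c)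
      (fun c => √(f c) * b c)
    have h2 : ∀ c, √(f c) * a c * (√(f c) * b c) = f c * (a c * b c) := by
      intro c
      calc √(f c) * a c * (√(f c) * b c) = (√(f c) * √(f c)) * (a c * b c) := by ring
        _ = _ := by rw [Real.mul_self_sqrt (hf c)]
    have h3 : ∀ c, (√(f c) * a c) ^ 2 = f c * a c ^ 2 := by
      intro c
      rw [mul_pow, Real.sq_sqrt (hf c)]
    have h4 : ∀ c, (√(f c) * b c) ^ 2 = f c * b c ^ 2 := by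
      intro c
      rw [mul_pow, Real.sq_sqrt (hf c)]
    simp only [h2, h3, h4] at h1
    rw [hA, hB] at h1
    have h5 : e * Nn f χ ^ 2 * (e * Nn f ψ ^ 2) = (e * (Nn f χ * Nn f ψ)) ^ 2 := by ring
    rw [h5] at h1
    exact (le_abs_self _).trans (abs_le_of_sq_le_sq h1 (mul_nonneg he.le (mul_nonneg hχ0 hψ0)))
  have hH : e * Nn f (χ * ψ) ^ 2 ≤ e * (Nn f χ + Nn f ψ) ^ 2 := by
    refine hC.trans (hE.trans ?_)
    rw [hF, hA, hB]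
    nlinarith
  have hI := le_of_mul_le_mul_left hH he
  exact (le_abs_self _).trans (abs_le_of_sq_le_sq hI (add_nonneg hχ0 hψ0))

end Pool.Agent.Lib.MP_42948a_nt.PS
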