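import Mathlib

/-!
# An empty annulus (job C2)

For `i = 0, ..., M0` let `ρ_i = r0 * 10^i`. If for every `i ≤ M0` there were `g_i` with `ρ_i < N g_i ≤ 10 ρ_i` the `g_i` would be `M0 + 1` different elements
(the intervals are disjoint) with `N g_i ≤ 10 ρ_{M0} = r0 * 10^(M0+1) ≤ R1`, contradicting `hM` with `S = image` of `range (M0+1)`. So for some `i ≤ M0` there is
no `g` with `ρ < N g ≤ 10 ρ`, `ρ = ρ_i`. `H = {g : N g ≤ ρ}` is closed under multiplication (`N (g h) ≤ 2 ρ ≤ 10 ρ`, so `N (g h) ≤ ρ`), inverses and contains `1`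
(`0 ≤ ρ`).
-/

namespace Pool.Agent.Lib.MP_42948a_nt.PS

open Finset

theorem annulus {G : Type*} [CommGroup G] (N : G → ℝ) (h1 : N 1 = 0) (hinv : ∀ g, N g⁻¹ = N g)
    (hsub : ∀ g h, N (g * h) ≤ N g + N h) (M0 : ℕ) (r0 R1 : ℝ) (hr0 : 0 < r0)
    (hM : ∀ S : Finset G, (∀ g ∈ S, N g ≤ R1) → S.card ≤ M0) (hR : r0 * 10 ^ (M0 + 1) ≤ R1) :
    ∃ (ρ : ℝ) (H : Subgroup G), r0 ≤ ρ ∧ ρ * 10 ≤ R1 ∧ (∀ g, g ∈ H ↔ N g ≤ ρ) ∧ ∀ g, g ∉ H → 10 * ρ < N g := by
  classical
  by_cases hex : ∃ i, i ≤ M0 ∧ ∀ g, ¬ (r0 * 10 ^ i < N g ∧ N g ≤ 10 * (r0 * 10 ^ i))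
  · obtain ⟨i, hi, hg⟩ := hex
    obtain ⟨ρ, hρ⟩ : ∃ ρ : ℝ, ρ = r0 * 10 ^ i := ⟨_, rfl⟩
    rw [← hρ] at hg
    have hρ0 : r0 ≤ ρ := by
      rw [hρ]
      exact le_mul_of_one_le_right hr0.le (one_le_pow₀ (by norm_num))
    have hρpos : 0 < ρ := lt_of_lt_of_le hr0 hρ0
    have hstep : ∀ g, N g ≤ 10 * ρ → N g ≤ ρ := fun g h => by
      by_contra hc
      exact hg g ⟨not_le.mp hc, h⟩
    refine ⟨ρ,
      { carrier := {g | N g ≤ ρ}
        mul_mem' := fun {a b} ha hb => hstep _ ((hsub a b).trans (by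
          have ha' : N a ≤ ρ := ha
          have hb' : N b ≤ ρ := hb
          linarith))
        one_mem' := by
          change N 1 ≤ ρ
          rw [h1]
          exact hρpos.le
        inv_mem' := fun {a} ha => by
          change N a⁻¹ ≤ ρ
          rw [hinv]
          exact ha }, hρ0, ?_, fun g => Iff.rfl, ?_⟩
    · refine le_trans ?_ hR
      rw [hρ, mul_assoc, ← pow_succ]
      exact mul_le_mul_of_nonneg_left (pow_le_pow_right₀ (by norm_num) (by omega)) hr0.le
    · intro g hgH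
      by_contra hc
      exact hgH (hstep g (not_lt.mp hc))
  · exfalso
    push Not at hex
    have hch : ∀ i : ℕ, ∃ g : G, i ≤ M0 → r0 * 10 ^ i < N g ∧ N g ≤ 10 * (r0 * 10 ^ i) := by
      intro i
      by_cases hi : i ≤ M0
      · obtain ⟨g, hg⟩ := hex i hi
        exact ⟨g, fun _ => hg⟩
      · exact ⟨1, fun h => absurd h hi⟩
    choose g hg using hch
    have hlt : ∀ i j : ℕ, i < j → j ≤ M0 → N (g i) < N (g j) := by
      intro i j hij hj
      have h2 := (hg i (by omega)).2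
      have h3 := (hg j hj).1
      have h4 : 10 * (r0 * 10 ^ i) ≤ r0 * 10 ^ j := by
        have h5 : (10 : ℝ) ^ (i + 1) ≤ 10 ^ j := pow_le_pow_right₀ (by norm_num) (by omega)
        have h6 := mul_le_mul_of_nonneg_left h5 hr0.le
        rw [pow_succ] at h6
        linarith
      linarith
    have hinj : Set.InjOn g (Finset.range (M0 + 1) : Set ℕ) := by
      intro i hi j hj hij
      rw [Finset.coe_range, Set.mem_Iio] at hi hj
      rcases lt_trichotomy i j with h | h | h
      · have := hlt i j h (by omega)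
        rw [hij] at this
        exact absurd this (lt_irrefl _)
      · exact h
      · have := hlt j i h (by omega)
        rw [hij] at this
        exact absurd this (lt_irrefl _)
    have h7 := hM ((Finset.range (M0 + 1)).image g) (by
      intro x hx
      obtain ⟨i, hi, rfl⟩ := Finset.mem_image.mp hx
      rw [Finset.mem_range] at hi
      refine (hg i (by omega)).2.trans (le_trans ?_ hR)
      have h5 : (10 : ℝ) ^ (i + 1) ≤ 10 ^ (M0 + 1) := pow_le_pow_right₀ (by norm_num) (by omega)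
      have h6 := mul_le_mul_of_nonneg_left h5 hr0.le
      rw [pow_succ] at h6
      linarith)
    rw [Finset.card_image_of_injOn hinj, Finset.card_range] at h7
    omega

end Pool.Agent.Lib.MP_42948a_nt.PS
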