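import Pool.Agent.Lib.MP_42948a_nt.PS.Defs
import Pool.Agent.Lib.MP_42948a_nt.TQ.B2

/-!
# Orthogonality for a subgroup of characters (job C3)

`perp_sum`: if `g ∈ perp 𝓗` all terms are `1`. Otherwise there is `χ0 ∈ 𝓗` with `ev χ0 g ≠ 1`; `χ ↦ χ0 χ` is a bijection of `𝓗`, so
`ev χ0 g * S = S`, `S = 0`. `perp_card`: sum `perp_sum` over `g`: `∑_{χ ∈ 𝓗} ∑_g ev χ g = φ` (`sum_ev_unit`, only `χ = 1`), right side `#𝓗 * #(perp 𝓗)`.
`coset_mass_sum`: `‖SF f χ‖^2 = ∑_{c, c'} f c f c' ev χ (c⁻¹ c')` (`conj_ev`, `ev_mul`, real `f`); sum over `χ ∈ 𝓗` with `perp_sum`.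
`coset_mass`: `#𝓗 (1 - ρ^2/2)^2 e^2 ≤ ∑_{χ ∈ 𝓗} ‖SF f χ‖^2 = #𝓗 ∑_c f c * F c`, `F c = ∑_{c' : c⁻¹ c' ∈ perp} f c'`; if all `F c < (1 - ρ^2) e` then the right side is
`< #𝓗 (1-ρ^2) e^2` (`e > 0`), but `(1 - ρ^2/2)^2 ≥ 1 - ρ^2`.
-/

namespace Pool.Agent.Lib.MP_42948a_nt.PS

open Finset Pool.Agent.Lib.MP_42948a_nt.OA Pool.Agent.Lib.MP_42948a_nt.AC Pool.Agent.Lib.MP_42948a_nt.TQ

open Classical in
theorem perp_sum {d : ℕ} [NeZero d] (𝓗 : Subgroup (DirichletCharacter ℂ d)) (g : (ZMod d)ˣ) :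
    ∑ χ ∈ (univ : Finset (DirichletCharacter ℂ d)).filter (fun χ => χ ∈ 𝓗), ev χ g =
      if g ∈ perp 𝓗 then (((univ : Finset (DirichletCharacter ℂ d)).filter (fun χ => χ ∈ 𝓗)).card : ℂ) else 0 := by
  by_cases hg : g ∈ perp 𝓗
  · rw [if_pos hg]
    have h1 : ∀ χ ∈ (univ : Finset (DirichletCharacter ℂ d)).filter (fun χ => χ ∈ 𝓗), ev χ g = 1 := by
      intro χ hχ
      exact hg χ (Finset.mem_filter.1 hχ).2
    rw [Finset.sum_congr rfl h1, Finset.sum_const, nsmul_eq_mul, mul_one]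
  · rw [if_neg hg]
    obtain ⟨χ0, h0, h1⟩ : ∃ χ0 ∈ 𝓗, ev χ0 g ≠ 1 := by
      by_contra hc
      push Not at hc
      exact hg fun χ hχ => hc χ hχ
    have h2 : ev χ0 g * ∑ χ ∈ (univ : Finset (DirichletCharacter ℂ d)).filter (fun χ => χ ∈ 𝓗), ev χ g =
        ∑ χ ∈ (univ : Finset (DirichletCharacter ℂ d)).filter (fun χ => χ ∈ 𝓗), ev χ g := by
      rw [Finset.mul_sum]
      refine Finset.sum_equiv (Equiv.mulLeft χ0) (fun χ => ?_) (fun χ _ => ?_)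
      · rw [Finset.mem_filter, Finset.mem_filter, Equiv.coe_mulLeft]
        simp only [Finset.mem_univ, true_and]
        exact (𝓗.mul_mem_cancel_left h0).symm
      · rw [Equiv.coe_mulLeft, ev_mul_char]
    have h3 : (ev χ0 g - 1) * ∑ χ ∈ (univ : Finset (DirichletCharacter ℂ d)).filter (fun χ => χ ∈ 𝓗), ev χ g = 0 := by
      rw [sub_mul, one_mul, h2, sub_self]
    exact (mul_eq_zero.1 h3).resolve_left (sub_ne_zero.2 h1)

open Classical in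
theorem perp_card {d : ℕ} [NeZero d] (𝓗 : Subgroup (DirichletCharacter ℂ d)) :
    (Fintype.card (ZMod d)ˣ : ℝ) =
      (((univ : Finset (DirichletCharacter ℂ d)).filter (fun χ => χ ∈ 𝓗)).card : ℝ) * (Nat.card (perp 𝓗) : ℝ) := by
  have h1 : ∑ g : (ZMod d)ˣ, ∑ χ ∈ (univ : Finset (DirichletCharacter ℂ d)).filter (fun χ => χ ∈ 𝓗), ev χ g =
      (Fintype.card (ZMod d)ˣ : ℂ) := by
    rw [Finset.sum_comm, Finset.sum_congr rfl fun χ _ => sum_ev_unit χ, Finset.sum_ite_eq',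
      if_pos (Finset.mem_filter.2 ⟨Finset.mem_univ _, 𝓗.one_mem⟩)]
  have h2 : ∑ g : (ZMod d)ˣ, ∑ χ ∈ (univ : Finset (DirichletCharacter ℂ d)).filter (fun χ => χ ∈ 𝓗), ev χ g =
      (((univ : Finset (DirichletCharacter ℂ d)).filter (fun χ => χ ∈ 𝓗)).card : ℂ) * (Nat.card (perp 𝓗) : ℂ) := by
    rw [Finset.sum_congr rfl fun g _ => perp_sum 𝓗 g, ← Finset.sum_filter, Finset.sum_const, nsmul_eq_mul,
      mul_comm, Nat.card_eq_fintype_card, Fintype.card_subtype]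
  rw [h1] at h2
  exact_mod_cast h2

private theorem C3_norm {d : ℕ} [NeZero d] (f : (ZMod d)ˣ → ℝ) (χ : DirichletCharacter ℂ d) :
    ((‖SF f χ‖ ^ 2 : ℝ) : ℂ) = ∑ c : (ZMod d)ˣ, ∑ c' : (ZMod d)ˣ, (f c : ℂ) * (f c' : ℂ) * ev χ (c⁻¹ * c') := by
  rw [Complex.ofReal_pow, ← Complex.mul_conj']
  have h1 : SF f χ = ∑ c : (ZMod d)ˣ, (f c : ℂ) * ev χ c⁻¹ := by
    unfold SF
    exact Finset.sum_congr rfl fun c _ => by rw [conj_ev]
  have h2 : (starRingEnd ℂ) (SF f χ) = ∑ c : (ZMod d)ˣ, (f c : ℂ) * ev χ c := by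
    unfold SF
    rw [map_sum]
    refine Finset.sum_congr rfl fun c _ => ?_
    rw [map_mul, Complex.conj_ofReal, Complex.conj_conj]
  rw [h2, h1, Finset.sum_mul_sum]
  refine Finset.sum_congr rfl fun c _ => Finset.sum_congr rfl fun c' _ => ?_
  rw [ev_mul]
  ring

open Classical in
theorem coset_mass_sum {d : ℕ} [NeZero d] (𝓗 : Subgroup (DirichletCharacter ℂ d)) (f : (ZMod d)ˣ → ℝ) :
    ∑ χ ∈ (univ : Finset (DirichletCharacter ℂ d)).filter (fun χ => χ ∈ 𝓗), ‖SF f χ‖ ^ 2 =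
      (((univ : Finset (DirichletCharacter ℂ d)).filter (fun χ => χ ∈ 𝓗)).card : ℝ) *
        ∑ c, f c * ∑ c' ∈ (univ : Finset (ZMod d)ˣ).filter (fun c' => c⁻¹ * c' ∈ perp 𝓗), f c' := by
  apply Complex.ofReal_injective
  rw [Complex.ofReal_sum, Finset.sum_congr rfl fun χ _ => C3_norm f χ, Finset.sum_comm, Complex.ofReal_mul,
    Complex.ofReal_natCast, Complex.ofReal_sum, Finset.mul_sum]
  refine Finset.sum_congr rfl fun c _ => ?_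
  rw [Finset.sum_comm, Complex.ofReal_mul, Complex.ofReal_sum, Finset.sum_filter, Finset.mul_sum, Finset.mul_sum]
  refine Finset.sum_congr rfl fun c' _ => ?_
  rw [← Finset.mul_sum, perp_sum]
  split_ifs with h
  · ring
  · rw [mul_zero, mul_zero, mul_zero]

open Classical in
theorem coset_mass {d : ℕ} [NeZero d] (𝓗 : Subgroup (DirichletCharacter ℂ d)) (f : (ZMod d)ˣ → ℝ) (hf : ∀ c, 0 ≤ f c)
    (he : 0 < ∑ c, f c) (ρ : ℝ) (hρ : 0 ≤ ρ) (hρ1 : ρ ≤ 1) (hH : ∀ χ ∈ 𝓗, (1 - ρ ^ 2 / 2) * ∑ c, f c ≤ ‖SF f χ‖) :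
    ∃ c0 : (ZMod d)ˣ, (1 - ρ ^ 2) * ∑ c, f c ≤
      ∑ c ∈ (univ : Finset (ZMod d)ˣ).filter (fun c => c0⁻¹ * c ∈ perp 𝓗), f c := by
  by_contra hcon
  push Not at hcon
  have hn : 0 < (((univ : Finset (DirichletCharacter ℂ d)).filter (fun χ => χ ∈ 𝓗)).card : ℝ) := by
    have : 0 < ((univ : Finset (DirichletCharacter ℂ d)).filter (fun χ => χ ∈ 𝓗)).card :=
      Finset.card_pos.2 ⟨1, Finset.mem_filter.2 ⟨Finset.mem_univ _, 𝓗.one_mem⟩⟩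
    exact_mod_cast this
  have hm := coset_mass_sum 𝓗 f
  set n : ℝ := (((univ : Finset (DirichletCharacter ℂ d)).filter (fun χ => χ ∈ 𝓗)).card : ℝ) with hndef
  set e : ℝ := ∑ c, f c with hedef
  have hρ2 : ρ ^ 2 ≤ 1 := pow_le_one₀ hρ hρ1
  have h1 : n * ((1 - ρ ^ 2 / 2) * e) ^ 2 ≤
      ∑ χ ∈ (univ : Finset (DirichletCharacter ℂ d)).filter (fun χ => χ ∈ 𝓗), ‖SF f χ‖ ^ 2 := by
    rw [hndef, ← nsmul_eq_mul, ← Finset.sum_const]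
    refine Finset.sum_le_sum fun χ hχ => ?_
    exact pow_le_pow_left₀ (mul_nonneg (by linarith) he.le) (hH χ (Finset.mem_filter.1 hχ).2) 2
  obtain ⟨c1, hc1⟩ : ∃ c, 0 < f c := by
    by_contra hc
    push Not at hc
    have : e ≤ 0 := Finset.sum_nonpos fun c _ => hc c
    linarith
  have h2 : ∑ c, f c * ∑ c' ∈ (univ : Finset (ZMod d)ˣ).filter (fun c' => c⁻¹ * c' ∈ perp 𝓗), f c' <
      ∑ c, f c * ((1 - ρ ^ 2) * e) :=
    Finset.sum_lt_sum (fun c _ => mul_le_mul_of_nonneg_left (hcon c).le (hf c))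
      ⟨c1, Finset.mem_univ _, mul_lt_mul_of_pos_left (hcon c1) hc1⟩
  rw [← Finset.sum_mul, ← hedef] at h2
  have h3 := mul_lt_mul_of_pos_left h2 hn
  rw [← hm] at h3
  have h4 : n * ((1 - ρ ^ 2 / 2) * e) ^ 2 < n * (e * ((1 - ρ ^ 2) * e)) := lt_of_le_of_lt h1 h3
  have h5 := lt_of_mul_lt_mul_left h4 hn.le
  have h6 : ((1 - ρ ^ 2 / 2) * e) ^ 2 - e * ((1 - ρ ^ 2) * e) = (ρ ^ 2 / 2 * e) ^ 2 := by ring
  nlinarith [sq_nonneg (ρ ^ 2 / 2 * e)]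

end Pool.Agent.Lib.MP_42948a_nt.PS
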