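import Pool.Agent.Lib.MP_42948a_nt.PS.A3

/-!
# The mass of `λ` on the characters in `S` (job D1)

`e = ∑ f ≤ φ` (`f ≤ 1`), so `∑ Er^2 ≤ (τ m)^2 e ≤ (τ m)^2 φ`. `bil_bounds` with the constant function `1`: `(1-2τ) m φ ≤ #R^2 ≤ (1+2τ) m φ`. By `hfR`
`∑_{R×R} lio lio f = σ ∑_{R×R} f`, of absolute value `≥ (1-2τ) m e` (`bil_bounds`); by `bil_fourier` (`x = y = lio`)
`φ (1 - 2τ) m e ≤ ∑_χ ‖SF f χ‖ ‖AR R lio χ‖^2`. Outside `S`, by Cauchy-Schwarz and `fourth` (`A = R`):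
`≤ √(∑_{∉S} ‖SF f‖^2) √(∑ ‖AR‖^4) ≤ (τ/8) e * 2 m φ = (τ/4) e m φ ≤ (τ/2) e #R^2` (`m φ ≤ #R^2/(1-2τ) ≤ 2 #R^2`). So
`∑_S ≥ (1-2τ) m φ e - (τ/2) e #R^2 ≥ ((1-2τ)/(1+2τ) - τ/2) e #R^2 ≥ (1 - 5τ) e #R^2`.
-/

namespace Pool.Agent.Lib.MP_42948a_nt.PS

open Finset Pool.Agent.Lib.MP_42948a_nt.OA Pool.Agent.Lib.MP_42948a_nt.AC Pool.Agent.Lib.MP_42948a_nt.TQ

private theorem D1_lio (a : ℕ) : |lio a| ≤ 1 := by
  unfold lio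
  rw [abs_pow, abs_neg, abs_one, one_pow]

theorem mass_lower {d : ℕ} [NeZero d] (R : Finset ℕ) (hR : ∀ a ∈ R, a.Coprime d) (f : (ZMod d)ˣ → ℝ) (hf0 : ∀ c, 0 ≤ f c)
    (hf1 : ∀ c, f c ≤ 1) (σ : ℝ) (hσ : σ = 1 ∨ σ = -1)
    (hfR : ∀ a ∈ R, ∀ b ∈ R, f (ucl d (a * b)) ≠ 0 → lio a * lio b = σ) (m τ : ℝ) (Er : (ZMod d)ˣ → ℝ) (hm : 0 < m)
    (hτ : 0 < τ) (hτ1 : τ ≤ 1 / 10) (hEr0 : ∀ c, 0 ≤ Er c) (hr : ∀ c, |(rp d R R c : ℝ) - m| ≤ τ * m + Er c)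
    (hEr : ∑ c, Er c ^ 2 ≤ (τ * m) ^ 2 * ∑ c, f c) (S : Finset (DirichletCharacter ℂ d))
    (hS : ∑ χ ∈ (univ : Finset (DirichletCharacter ℂ d)) \ S, ‖SF f χ‖ ^ 2 ≤ (τ / 8 * ∑ c, f c) ^ 2) :
    (1 - 5 * τ) * (R.card : ℝ) ^ 2 * ∑ c, f c ≤ ∑ χ ∈ S, ‖SF f χ‖ * ‖AR R lio χ‖ ^ 2 := by
  classical
  have he0 : 0 ≤ ∑ c, f c := Finset.sum_nonneg fun c _ => hf0 c
  have heφ : ∑ c, f c ≤ (Fintype.card (ZMod d)ˣ : ℝ) := by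
    have h1 : ∑ c, f c ≤ ∑ c : (ZMod d)ˣ, (1 : ℝ) := Finset.sum_le_sum fun c _ => hf1 c
    simpa using h1
  have hEr' : ∑ c, Er c ^ 2 ≤ (τ * m) ^ 2 * (Fintype.card (ZMod d)ˣ : ℝ) :=
    hEr.trans (mul_le_mul_of_nonneg_left heφ (sq_nonneg _))
  have hb1 := (bil_bounds R R hR hR (fun _ => 1) (fun _ => zero_le_one) (fun _ => le_rfl) m τ Er hm hτ hEr0 hr
    (by simpa using hEr')).2
  have hb2 := (bil_bounds R R hR hR f hf0 hf1 m τ Er hm hτ hEr0 hr hEr).1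
  have h4 := fourth R R hR (Finset.Subset.refl R) lio D1_lio m τ Er hm hτ hτ1 hEr0 hr hEr'
  have hfo := bil_fourier R R hR hR lio lio f
  have hcard : ∑ q ∈ R ×ˢ R, (1 : ℝ) = (R.card : ℝ) ^ 2 := by
    rw [Finset.sum_const, Finset.card_product, nsmul_eq_mul, mul_one, Nat.cast_mul, sq]
  have hcard2 : ∑ _c : (ZMod d)ˣ, (1 : ℝ) = (Fintype.card (ZMod d)ˣ : ℝ) := by simp
  rw [hcard2] at hb1
  have hb1' : (R.card : ℝ) ^ 2 ≤ (1 + 2 * τ) * m * (Fintype.card (ZMod d)ˣ : ℝ) := by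
    rw [← hcard]
    exact hb1
  have hσT : ∑ q ∈ R ×ˢ R, ((lio q.1 : ℂ) * (lio q.2 : ℂ)) * ((f (ucl d (q.1 * q.2)) : ℝ) : ℂ) =
      ((σ * ∑ q ∈ R ×ˢ R, f (ucl d (q.1 * q.2)) : ℝ) : ℂ) := by
    rw [Complex.ofReal_mul, Complex.ofReal_sum, Finset.mul_sum]
    refine Finset.sum_congr rfl fun q hq => ?_
    rw [Finset.mem_product] at hq
    by_cases h0 : f (ucl d (q.1 * q.2)) = 0
    · rw [h0, Complex.ofReal_zero, mul_zero, mul_zero]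
    · rw [← hfR q.1 hq.1 q.2 hq.2 h0, Complex.ofReal_mul]
  rw [hσT] at hfo
  have hT0 : 0 ≤ ∑ q ∈ R ×ˢ R, f (ucl d (q.1 * q.2)) := Finset.sum_nonneg fun q _ => hf0 _
  have hσ1 : |σ| = 1 := by
    rcases hσ with h | h
    · rw [h, abs_one]
    · rw [h, abs_neg, abs_one]
  have hn1 : (Fintype.card (ZMod d)ˣ : ℝ) * ∑ q ∈ R ×ˢ R, f (ucl d (q.1 * q.2)) ≤
      ∑ χ : DirichletCharacter ℂ d, ‖SF f χ‖ * ‖AR R lio χ‖ ^ 2 := by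
    have h5 := congrArg norm hfo
    rw [norm_mul, Complex.norm_natCast, Complex.norm_real, Real.norm_eq_abs, abs_mul, hσ1, one_mul,
      abs_of_nonneg hT0] at h5
    rw [h5]
    refine (norm_sum_le _ _).trans (Finset.sum_le_sum fun χ _ => ?_)
    rw [norm_mul, norm_mul, sq]
  have hsplit : ∑ χ : DirichletCharacter ℂ d, ‖SF f χ‖ * ‖AR R lio χ‖ ^ 2 =
      ∑ χ ∈ (univ : Finset (DirichletCharacter ℂ d)) \ S, ‖SF f χ‖ * ‖AR R lio χ‖ ^ 2 +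
        ∑ χ ∈ S, ‖SF f χ‖ * ‖AR R lio χ‖ ^ 2 :=
    (Finset.sum_sdiff (Finset.subset_univ S)).symm
  have hout : ∑ χ ∈ (univ : Finset (DirichletCharacter ℂ d)) \ S, ‖SF f χ‖ * ‖AR R lio χ‖ ^ 2 ≤
      τ / 8 * (∑ c, f c) * (2 * m * (Fintype.card (ZMod d)ˣ : ℝ)) := by
    have h6 := Finset.sum_mul_sq_le_sq_mul_sq ((univ : Finset (DirichletCharacter ℂ d)) \ S)
      (fun χ => ‖SF f χ‖) (fun χ => ‖AR R lio χ‖ ^ 2)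
    have h7 : ∑ χ ∈ (univ : Finset (DirichletCharacter ℂ d)) \ S, (‖AR R lio χ‖ ^ 2) ^ 2 ≤
        (2 * m * (Fintype.card (ZMod d)ˣ : ℝ)) ^ 2 := by
      refine le_trans ?_ h4
      have h8 : ∀ χ : DirichletCharacter ℂ d, (‖AR R lio χ‖ ^ 2) ^ 2 = ‖AR R lio χ‖ ^ 4 := fun χ => by ring
      simp only [h8]
      exact Finset.sum_le_sum_of_subset_of_nonneg (Finset.sdiff_subset) fun χ _ _ => by positivity
    have h9 : (∑ χ ∈ (univ : Finset (DirichletCharacter ℂ d)) \ S, ‖SF f χ‖ * ‖AR R lio χ‖ ^ 2) ^ 2 ≤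
        (τ / 8 * (∑ c, f c) * (2 * m * (Fintype.card (ZMod d)ˣ : ℝ))) ^ 2 := by
      rw [mul_pow (τ / 8 * ∑ c, f c)]
      exact h6.trans (mul_le_mul hS h7 (Finset.sum_nonneg fun χ _ => by positivity) (sq_nonneg _))
    exact le_of_sq_le_sq h9 (by positivity)
  have hφ : (0 : ℝ) ≤ (Fintype.card (ZMod d)ˣ : ℝ) := Nat.cast_nonneg _
  have hmain := mul_le_mul_of_nonneg_left hb2 hφ
  have hfin : (1 - 5 * τ) * (R.card : ℝ) ^ 2 * ∑ c, f c ≤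
      (1 - 5 * τ) * ((1 + 2 * τ) * m * (Fintype.card (ZMod d)ˣ : ℝ)) * ∑ c, f c :=
    mul_le_mul_of_nonneg_right (mul_le_mul_of_nonneg_left hb1' (by linarith)) he0
  have hX : 0 ≤ m * (Fintype.card (ZMod d)ˣ : ℝ) * ∑ c, f c := by positivity
  have hmul : (1 - 5 * τ) * ((1 + 2 * τ) * m * (Fintype.card (ZMod d)ˣ : ℝ)) * ∑ c, f c ≤
      (1 - 2 * τ - τ / 4) * (m * (Fintype.card (ZMod d)ˣ : ℝ) * ∑ c, f c) := by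
    have h10 : (1 - 5 * τ) * ((1 + 2 * τ) * m * (Fintype.card (ZMod d)ˣ : ℝ)) * ∑ c, f c =
        (1 - 5 * τ) * (1 + 2 * τ) * (m * (Fintype.card (ZMod d)ˣ : ℝ) * ∑ c, f c) := by ring
    rw [h10]
    refine mul_le_mul_of_nonneg_right ?_ hX
    nlinarith
  nlinarith

end Pool.Agent.Lib.MP_42948a_nt.PS
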