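import Pool.Agent.Lib.MP_42948a_nt.PS.C1

/-!
# Concentration on the subgroup (job D2)

`μ χ = ‖AR R lio χ‖^2`, `n χ = nf f χ ∈ [0, 1]`, `‖SF f χ‖ = n χ * ∑ f`. For `χ ∉ 𝓗`: `n χ = 1 - (Nn f χ)^2/2 < 1 - 50 ρ^2` (`Nn_sq`). `hmass` divided by `∑ f`:
`∑_S n μ ≥ (1-5τ) #R^2`; with `hB`: `∑_S (1 - n) μ ≤ 8 τ #R^2`, so `50 ρ^2 ∑_{S \ 𝓗} μ ≤ 8 τ #R^2`. Hence
`∑_{S ∩ 𝓗} μ ≥ ∑_S n μ - ∑_{S \ 𝓗} μ ≥ (1 - 5τ - (4/25) τ/ρ^2) #R^2 ≥ (1 - τ/ρ^2) #R^2` (`ρ^2 ≤ 1/100`, so `5 τ ≤ τ/(20 ρ^2)`). Every `χ ∈ 𝓗` satisfies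
`ev χ h = 1` for `h ∈ perp 𝓗` (definition of `perp`), and `((1 : perp 𝓗 →* ℤˣ) h : ℤ) = 1`; the other terms are `≥ 0`.
-/

namespace Pool.Agent.Lib.MP_42948a_nt.PS

open Finset Pool.Agent.Lib.MP_42948a_nt.OA Pool.Agent.Lib.MP_42948a_nt.AC Pool.Agent.Lib.MP_42948a_nt.TQ

private theorem D2_real {ι : Type*} (A B : Finset ι) (n μ : ι → ℝ) (hn1 : ∀ i, n i ≤ 1)
    (hμ : ∀ i, 0 ≤ μ i) (τ ρ Q : ℝ) (hτ : 0 < τ) (hρ : 0 < ρ) (hρ1 : ρ ≤ 1 / 10) (hQ : 0 ≤ Q)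
    (hB1 : ∀ i ∈ B, n i ≤ 1 - 50 * ρ ^ 2)
    (h1 : (1 - 5 * τ) * Q ≤ ∑ i ∈ A, n i * μ i + ∑ i ∈ B, n i * μ i)
    (h2 : ∑ i ∈ A, μ i + ∑ i ∈ B, μ i ≤ (1 + 3 * τ) * Q) :
    (1 - τ / ρ ^ 2) * Q ≤ ∑ i ∈ A, μ i := by
  have h3 : ∑ i ∈ A, n i * μ i ≤ ∑ i ∈ A, μ i :=
    Finset.sum_le_sum fun i _ => mul_le_of_le_one_left (hμ i) (hn1 i)
  have h4 : ∑ i ∈ B, n i * μ i ≤ (1 - 50 * ρ ^ 2) * ∑ i ∈ B, μ i := by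
    rw [Finset.mul_sum]
    exact Finset.sum_le_sum fun i hi => mul_le_mul_of_nonneg_right (hB1 i hi) (hμ i)
  have h5 : 0 ≤ ∑ i ∈ B, μ i := Finset.sum_nonneg fun i _ => hμ i
  have hρ2 : 0 < ρ ^ 2 := by positivity
  have hρ3 : ρ ^ 2 ≤ 1 / 100 := by nlinarith
  -- `50 ρ^2 ∑_B μ ≤ 8 τ Q`
  have h6 : 50 * ρ ^ 2 * ∑ i ∈ B, μ i ≤ 8 * τ * Q := by nlinarith
  have h7 : ∑ i ∈ B, μ i ≤ 8 * τ * Q / (50 * ρ ^ 2) := by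
    rw [le_div_iff₀ (by positivity)]
    linarith
  have h8 : ∑ i ∈ B, n i * μ i ≤ ∑ i ∈ B, μ i :=
    Finset.sum_le_sum fun i _ => mul_le_of_le_one_left (hμ i) (hn1 i)
  have h9 : (1 - 5 * τ) * Q - 8 * τ * Q / (50 * ρ ^ 2) ≤ ∑ i ∈ A, μ i := by linarith
  refine le_trans ?_ h9
  have h10 : τ / ρ ^ 2 * Q = 8 * τ * Q / (50 * ρ ^ 2) + 21 / 25 * (τ * Q / ρ ^ 2) := by
    field_simp
    ring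
  have h11 : 5 * τ * Q ≤ 21 / 25 * (τ * Q / ρ ^ 2) := by
    have h12 : 100 * (τ * Q) ≤ τ * Q / ρ ^ 2 := by
      rw [le_div_iff₀ hρ2]
      have : 0 ≤ τ * Q := mul_nonneg hτ.le hQ
      nlinarith
    have : 0 ≤ τ * Q := mul_nonneg hτ.le hQ
    linarith
  calc (1 - τ / ρ ^ 2) * Q = Q - τ / ρ ^ 2 * Q := by ring
    _ ≤ _ := by
      rw [h10]
      linarith

open Classical in
theorem concentrate {d : ℕ} [NeZero d] (R : Finset ℕ) (f : (ZMod d)ˣ → ℝ) (hf0 : ∀ c, 0 ≤ f c) (he : 0 < ∑ c, f c)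
    (τ ρ : ℝ) (hτ : 0 < τ) (hρ : 0 < ρ) (hρ1 : ρ ≤ 1 / 10) (S : Finset (DirichletCharacter ℂ d))
    (𝓗 : Subgroup (DirichletCharacter ℂ d)) (hH : ∀ χ, χ ∉ 𝓗 → 10 * ρ < Nn f χ)
    (hmass : (1 - 5 * τ) * (R.card : ℝ) ^ 2 * ∑ c, f c ≤ ∑ χ ∈ S, ‖SF f χ‖ * ‖AR R lio χ‖ ^ 2)
    (hB : ∑ χ ∈ S, ‖AR R lio χ‖ ^ 2 ≤ (1 + 3 * τ) * (R.card : ℝ) ^ 2) :
    (1 - τ / ρ ^ 2) * (R.card : ℝ) ^ 2 ≤ ∑ χ ∈ (univ : Finset (DirichletCharacter ℂ d)).filter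
      (fun χ => ∀ h : perp 𝓗, ev χ (h : (ZMod d)ˣ) = ((((1 : perp 𝓗 →* ℤˣ) h : ℤˣ) : ℤ) : ℂ)), ‖AR R lio χ‖ ^ 2 := by
  have h1 : (1 - 5 * τ) * (R.card : ℝ) ^ 2 ≤ ∑ χ ∈ S, nf f χ * ‖AR R lio χ‖ ^ 2 := by
    have h2 : ∑ χ ∈ S, ‖SF f χ‖ * ‖AR R lio χ‖ ^ 2 =
        (∑ χ ∈ S, nf f χ * ‖AR R lio χ‖ ^ 2) * ∑ c, f c := by
      rw [Finset.sum_mul]
      refine Finset.sum_congr rfl fun χ _ => ?_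
      unfold nf
      field_simp
    rw [h2] at hmass
    exact le_of_mul_le_mul_right hmass he
  have hn : ∀ χ, χ ∉ 𝓗 → nf f χ ≤ 1 - 50 * ρ ^ 2 := by
    intro χ hχ
    have h3 := hH χ hχ
    have h4 := Nn_sq f hf0 χ
    have h5 : (10 * ρ) ^ 2 < Nn f χ ^ 2 := pow_lt_pow_left₀ h3 (by positivity) two_ne_zero
    rw [h4] at h5
    nlinarith
  have h6 : (1 - τ / ρ ^ 2) * (R.card : ℝ) ^ 2 ≤ ∑ χ ∈ S.filter (fun χ => χ ∈ 𝓗), ‖AR R lio χ‖ ^ 2 := by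
    refine D2_real (S.filter (fun χ => χ ∈ 𝓗)) (S.filter (fun χ => ¬ χ ∈ 𝓗)) (fun χ => nf f χ)
      (fun χ => ‖AR R lio χ‖ ^ 2) (nf_le_one f hf0) (fun χ => sq_nonneg _) τ ρ
      ((R.card : ℝ) ^ 2) hτ hρ hρ1 (sq_nonneg _) (fun χ hχ => hn χ (Finset.mem_filter.1 hχ).2) ?_ ?_
    · rw [Finset.sum_filter_add_sum_filter_not]
      exact h1
    · rw [Finset.sum_filter_add_sum_filter_not]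
      exact hB
  refine h6.trans (Finset.sum_le_sum_of_subset_of_nonneg (fun χ hχ => ?_) fun χ _ _ => sq_nonneg _)
  rw [Finset.mem_filter] at hχ ⊢
  refine ⟨Finset.mem_univ _, fun h => ?_⟩
  have h7 : χ (((h : (ZMod d)ˣ) : ZMod d)) = 1 := h.2 χ hχ.2
  rw [MonoidHom.one_apply, Units.val_one, Int.cast_one]
  exact h7

end Pool.Agent.Lib.MP_42948a_nt.PS
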