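import Pool.Agent.Lib.MP_42948a_nt.PS.A3
import Pool.Agent.Lib.MP_42948a_nt.PS.C1

/-!
# The spectral gap (job D3)

`e = ∑ f`, `α χ = ‖AR A 1 χ‖ ≤ #A`, `β χ = ‖AR B 1 χ‖ ≤ #B` (here `1` is the constant function). `bil_fourier` with `x = y = 1`:
`φ ∑_{A×B} f ≤ ∑_χ ‖SF f χ‖ α χ β χ` (the left side is a real number `≥ 0`). Split into `χ ∈ 𝓗` (`‖SF f χ‖ ≤ e`, at most `I` terms: `≤ I e #A #B`),
`χ ∈ S \ 𝓗` (`‖SF f χ‖ = nf * e`, `nf = 1 - Nn^2/2 ≤ 1 - 50 ρ^2` by `Nn_sq`: `≤ (1 - 50 ρ^2) e ∑_S α β ≤ (1-50ρ^2) e √(∑_S α^2) √(∑_S β^2) ≤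
(1 - 50 ρ^2) e (1+3τ) #R √(#A #B)`; `0 ≤ 1 - 50 ρ^2` as `ρ ≤ 1/10`) and the rest, contained in the complement of `S`: by Cauchy-Schwarz twice and `fourth`
(for `A` and `B`) `≤ √(∑_{∉S} ‖SF f‖^2) √(∑ α^2 β^2) ≤ ζ e √(√(∑ α^4) √(∑ β^4)) ≤ ζ e 2 m φ`.
-/

namespace Pool.Agent.Lib.MP_42948a_nt.PS

open Finset Pool.Agent.Lib.MP_42948a_nt.OA Pool.Agent.Lib.MP_42948a_nt.AC Pool.Agent.Lib.MP_42948a_nt.TQ

private theorem D3_AR_le {d : ℕ} [NeZero d] (A : Finset ℕ) (χ : DirichletCharacter ℂ d) :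
    ‖AR A (fun _ => 1) χ‖ ≤ (A.card : ℝ) := by
  unfold AR
  refine (norm_sum_le _ _).trans ?_
  have h1 : ∀ n ∈ A, ‖(((fun _ => 1 : ℕ → ℝ) n : ℝ) : ℂ) * χ (n : ZMod d)‖ ≤ (1 : ℝ) := by
    intro n _
    have h2 := χ.norm_le_one (n : ZMod d)
    simpa using h2
  have h3 := Finset.sum_le_card_nsmul _ _ _ h1
  simpa using h3

open Classical in
theorem bil_gap {d : ℕ} [NeZero d] (R A B : Finset ℕ) (hR : ∀ a ∈ R, a.Coprime d) (hAR : A ⊆ R) (hBR : B ⊆ R)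
    (f : (ZMod d)ˣ → ℝ) (hf0 : ∀ c, 0 ≤ f c) (he : 0 < ∑ c, f c) (m τ : ℝ) (Er : (ZMod d)ˣ → ℝ) (hm : 0 < m)
    (hτ : 0 < τ) (hτ1 : τ ≤ 1 / 10) (hEr0 : ∀ c, 0 ≤ Er c) (hr : ∀ c, |(rp d R R c : ℝ) - m| ≤ τ * m + Er c)
    (hEr : ∑ c, Er c ^ 2 ≤ (τ * m) ^ 2 * (Fintype.card (ZMod d)ˣ : ℝ)) (S : Finset (DirichletCharacter ℂ d)) (ζ : ℝ)
    (hζ : 0 ≤ ζ) (hS : ∑ χ ∈ (univ : Finset (DirichletCharacter ℂ d)) \ S, ‖SF f χ‖ ^ 2 ≤ (ζ * ∑ c, f c) ^ 2)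
    (𝓗 : Subgroup (DirichletCharacter ℂ d)) (ρ : ℝ) (hρ : 0 < ρ) (hρ1 : ρ ≤ 1 / 10)
    (hH : ∀ χ, χ ∉ 𝓗 → 10 * ρ < Nn f χ) (I : ℕ)
    (hI : ((univ : Finset (DirichletCharacter ℂ d)).filter (fun χ => χ ∈ 𝓗)).card ≤ I)
    (hA : ∑ χ ∈ S, ‖AR A (fun _ => 1) χ‖ ^ 2 ≤ (1 + 3 * τ) * ((A.card : ℝ) * (R.card : ℝ)))
    (hB : ∑ χ ∈ S, ‖AR B (fun _ => 1) χ‖ ^ 2 ≤ (1 + 3 * τ) * ((B.card : ℝ) * (R.card : ℝ))) :
    (Fintype.card (ZMod d)ˣ : ℝ) * ∑ q ∈ A ×ˢ B, f (ucl d (q.1 * q.2)) ≤ (∑ c, f c) *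
      ((I : ℝ) * (A.card : ℝ) * (B.card : ℝ) +
        (1 - 50 * ρ ^ 2) * ((1 + 3 * τ) * ((R.card : ℝ) * √((A.card : ℝ) * (B.card : ℝ)))) +
        ζ * (2 * m * (Fintype.card (ZMod d)ˣ : ℝ))) := by
  have hA0 : ∀ a ∈ A, a.Coprime d := fun a ha => hR a (hAR ha)
  have hB0 : ∀ b ∈ B, b.Coprime d := fun b hb => hR b (hBR hb)
  set e : ℝ := ∑ c, f c with he_def
  set G : ℝ := (Fintype.card (ZMod d)ˣ : ℝ) with hG_def
  have hG0 : 0 ≤ G := by rw [hG_def]; positivity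
  set al : DirichletCharacter ℂ d → ℝ := fun χ => ‖AR A (fun _ => 1) χ‖ with hal
  set be : DirichletCharacter ℂ d → ℝ := fun χ => ‖AR B (fun _ => 1) χ‖ with hbe
  have al0 : ∀ χ, 0 ≤ al χ := fun χ => norm_nonneg _
  have be0 : ∀ χ, 0 ≤ be χ := fun χ => norm_nonneg _
  have alA : ∀ χ, al χ ≤ (A.card : ℝ) := fun χ => D3_AR_le A χ
  have beB : ∀ χ, be χ ≤ (B.card : ℝ) := fun χ => D3_AR_le B χ
  have hA4 : ∑ χ : DirichletCharacter ℂ d, al χ ^ 4 ≤ (2 * m * G) ^ 2 :=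
    fourth R A hR hAR (fun _ => 1) (fun _ => by simp) m τ Er hm hτ hτ1 hEr0 hr hEr
  have hB4 : ∑ χ : DirichletCharacter ℂ d, be χ ^ 4 ≤ (2 * m * G) ^ 2 :=
    fourth R B hR hBR (fun _ => 1) (fun _ => by simp) m τ Er hm hτ hτ1 hEr0 hr hEr
  -- the Fourier identity
  have hF : G * ∑ q ∈ A ×ˢ B, f (ucl d (q.1 * q.2)) ≤
      ∑ χ : DirichletCharacter ℂ d, ‖SF f χ‖ * (al χ * be χ) := by
    have h1 := bil_fourier A B hA0 hB0 (fun _ => 1) (fun _ => 1) f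
    have h2 : (Fintype.card (ZMod d)ˣ : ℂ) * ∑ q ∈ A ×ˢ B,
        ((((fun _ => 1 : ℕ → ℝ) q.1 : ℝ) : ℂ) * (((fun _ => 1 : ℕ → ℝ) q.2 : ℝ) : ℂ)) *
          ((f (ucl d (q.1 * q.2)) : ℝ) : ℂ) =
        ((G * ∑ q ∈ A ×ˢ B, f (ucl d (q.1 * q.2)) : ℝ) : ℂ) := by
      rw [hG_def]
      push_cast
      congr 1
      refine Finset.sum_congr rfl fun q _ => ?_
      ring
    rw [h2] at h1
    have h3 : G * ∑ q ∈ A ×ˢ B, f (ucl d (q.1 * q.2)) ≤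
        ‖((G * ∑ q ∈ A ×ˢ B, f (ucl d (q.1 * q.2)) : ℝ) : ℂ)‖ := by
      rw [Complex.norm_real, Real.norm_eq_abs]
      exact le_abs_self _
    refine h3.trans ?_
    rw [h1]
    refine (norm_sum_le _ _).trans (Finset.sum_le_sum fun χ _ => ?_)
    rw [norm_mul, norm_mul]
  have hSF : ∀ χ, ‖SF f χ‖ = nf f χ * e := by
    intro χ
    rw [nf, div_mul_cancel₀ _ he.ne']
  have hSFe : ∀ χ, ‖SF f χ‖ ≤ e := by
    intro χ
    rw [hSF χ]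
    have h1 := nf_le_one f hf0 χ
    nlinarith
  set g : DirichletCharacter ℂ d → ℝ := fun χ => ‖SF f χ‖ * (al χ * be χ) with hg
  have g0 : ∀ χ, 0 ≤ g χ := fun χ =>
    mul_nonneg (norm_nonneg _) (mul_nonneg (al0 χ) (be0 χ))
  -- splitting
  have hsplit : ∑ χ : DirichletCharacter ℂ d, g χ ≤
      ∑ χ ∈ (univ : Finset (DirichletCharacter ℂ d)).filter (fun χ => χ ∈ 𝓗), g χ +
        ∑ χ ∈ S.filter (fun χ => χ ∉ 𝓗), g χ +
        ∑ χ ∈ (univ : Finset (DirichletCharacter ℂ d)) \ S, g χ := by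
    have h1 := Finset.sum_filter_add_sum_filter_not (univ : Finset (DirichletCharacter ℂ d))
      (fun χ => χ ∈ 𝓗) g
    have h2 : ∑ χ ∈ (univ : Finset (DirichletCharacter ℂ d)).filter (fun χ => ¬ χ ∈ 𝓗), g χ ≤
        ∑ χ ∈ S.filter (fun χ => χ ∉ 𝓗) ∪ ((univ : Finset (DirichletCharacter ℂ d)) \ S), g χ := by
      refine Finset.sum_le_sum_of_subset_of_nonneg ?_ fun χ _ _ => g0 χ
      intro χ hχ
      rw [Finset.mem_filter] at hχ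
      rw [Finset.mem_union, Finset.mem_filter, Finset.mem_sdiff]
      by_cases h : χ ∈ S
      · exact Or.inl ⟨h, hχ.2⟩
      · exact Or.inr ⟨hχ.1, h⟩
    have h3 : ∑ χ ∈ S.filter (fun χ => χ ∉ 𝓗) ∪ ((univ : Finset (DirichletCharacter ℂ d)) \ S), g χ
        = ∑ χ ∈ S.filter (fun χ => χ ∉ 𝓗), g χ +
          ∑ χ ∈ (univ : Finset (DirichletCharacter ℂ d)) \ S, g χ := by
      refine Finset.sum_union ?_
      rw [Finset.disjoint_left]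
      intro χ h1 h2
      exact (Finset.mem_sdiff.mp h2).2 (Finset.mem_filter.mp h1).1
    linarith
  -- first part
  have hT1 : ∑ χ ∈ (univ : Finset (DirichletCharacter ℂ d)).filter (fun χ => χ ∈ 𝓗), g χ ≤
      e * ((I : ℝ) * (A.card : ℝ) * (B.card : ℝ)) := by
    have h1 : ∀ χ ∈ (univ : Finset (DirichletCharacter ℂ d)).filter (fun χ => χ ∈ 𝓗),
        g χ ≤ e * ((A.card : ℝ) * (B.card : ℝ)) := by
      intro χ _
      exact mul_le_mul (hSFe χ) (mul_le_mul (alA χ) (beB χ) (be0 χ) (Nat.cast_nonneg _))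
        (mul_nonneg (al0 χ) (be0 χ)) he.le
    have h2 := Finset.sum_le_card_nsmul _ _ _ h1
    rw [nsmul_eq_mul] at h2
    have h3 : (((univ : Finset (DirichletCharacter ℂ d)).filter (fun χ => χ ∈ 𝓗)).card : ℝ) ≤ (I : ℝ) := by
      exact_mod_cast hI
    have h4 : 0 ≤ e * ((A.card : ℝ) * (B.card : ℝ)) := by positivity
    have h5 := mul_le_mul_of_nonneg_right h3 h4
    linarith
  -- second part
  have hρ2 : 0 ≤ 1 - 50 * ρ ^ 2 := by nlinarith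
  have hT2 : ∑ χ ∈ S.filter (fun χ => χ ∉ 𝓗), g χ ≤
      e * ((1 - 50 * ρ ^ 2) * ((1 + 3 * τ) * ((R.card : ℝ) * √((A.card : ℝ) * (B.card : ℝ))))) := by
    have h1 : ∀ χ ∈ S.filter (fun χ => χ ∉ 𝓗), g χ ≤ ((1 - 50 * ρ ^ 2) * e) * (al χ * be χ) := by
      intro χ hχ
      have h2 := hH χ (Finset.mem_filter.mp hχ).2
      have h3 := Nn_sq f hf0 χ
      have h4 : nf f χ ≤ 1 - 50 * ρ ^ 2 := by nlinarith
      have h5 : ‖SF f χ‖ ≤ (1 - 50 * ρ ^ 2) * e := by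
        rw [hSF χ]
        exact mul_le_mul_of_nonneg_right h4 he.le
      exact mul_le_mul_of_nonneg_right h5 (mul_nonneg (al0 χ) (be0 χ))
    have h2 := Finset.sum_le_sum h1
    have h3 : ∑ χ ∈ S.filter (fun χ => χ ∉ 𝓗), ((1 - 50 * ρ ^ 2) * e) * (al χ * be χ) ≤
        ∑ χ ∈ S, ((1 - 50 * ρ ^ 2) * e) * (al χ * be χ) :=
      Finset.sum_le_sum_of_subset_of_nonneg (Finset.filter_subset _ _) fun χ _ _ =>
        mul_nonneg (mul_nonneg hρ2 he.le) (mul_nonneg (al0 χ) (be0 χ))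
    have h3' : ∑ χ ∈ S, ((1 - 50 * ρ ^ 2) * e) * (al χ * be χ) =
        ((1 - 50 * ρ ^ 2) * e) * ∑ χ ∈ S, al χ * be χ := (Finset.mul_sum _ _ _).symm
    have h4 := Real.sum_mul_le_sqrt_mul_sqrt S al be
    have h5 : √(∑ χ ∈ S, al χ ^ 2) * √(∑ χ ∈ S, be χ ^ 2) ≤
        (1 + 3 * τ) * ((R.card : ℝ) * √((A.card : ℝ) * (B.card : ℝ))) := by
      have hc : (0 : ℝ) ≤ 1 + 3 * τ := by linarith
      have h6 : √(∑ χ ∈ S, al χ ^ 2) ≤ √((1 + 3 * τ) * ((A.card : ℝ) * (R.card : ℝ))) :=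
        Real.sqrt_le_sqrt hA
      have h7 : √(∑ χ ∈ S, be χ ^ 2) ≤ √((1 + 3 * τ) * ((B.card : ℝ) * (R.card : ℝ))) :=
        Real.sqrt_le_sqrt hB
      refine (mul_le_mul h6 h7 (Real.sqrt_nonneg _) (Real.sqrt_nonneg _)).trans (le_of_eq ?_)
      rw [← Real.sqrt_mul (by positivity)]
      have h8 : (1 + 3 * τ) * ((A.card : ℝ) * (R.card : ℝ)) * ((1 + 3 * τ) * ((B.card : ℝ) * (R.card : ℝ)))
          = ((1 + 3 * τ) * (R.card : ℝ)) ^ 2 * ((A.card : ℝ) * (B.card : ℝ)) := by ring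
      rw [h8, Real.sqrt_mul (by positivity), Real.sqrt_sq (by positivity)]
      ring
    have h6 := mul_le_mul_of_nonneg_left (h4.trans h5) (mul_nonneg hρ2 he.le)
    linarith
  -- third part
  have hT3 : ∑ χ ∈ (univ : Finset (DirichletCharacter ℂ d)) \ S, g χ ≤ e * (ζ * (2 * m * G)) := by
    have h1 := Real.sum_mul_le_sqrt_mul_sqrt ((univ : Finset (DirichletCharacter ℂ d)) \ S)
      (fun χ => ‖SF f χ‖) (fun χ => al χ * be χ)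
    have h2 : √(∑ χ ∈ (univ : Finset (DirichletCharacter ℂ d)) \ S, ‖SF f χ‖ ^ 2) ≤ ζ * e := by
      refine (Real.sqrt_le_sqrt hS).trans (le_of_eq ?_)
      exact Real.sqrt_sq (mul_nonneg hζ he.le)
    have h3 : ∑ χ ∈ (univ : Finset (DirichletCharacter ℂ d)) \ S, (al χ * be χ) ^ 2 ≤ (2 * m * G) ^ 2 := by
      have h4 : ∑ χ ∈ (univ : Finset (DirichletCharacter ℂ d)) \ S, (al χ * be χ) ^ 2 ≤
          ∑ χ : DirichletCharacter ℂ d, (al χ * be χ) ^ 2 :=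
        Finset.sum_le_sum_of_subset_of_nonneg (Finset.subset_univ _) fun χ _ _ => sq_nonneg _
      have h5 : ∑ χ : DirichletCharacter ℂ d, (al χ * be χ) ^ 2 =
          ∑ χ : DirichletCharacter ℂ d, (al χ ^ 2) * (be χ ^ 2) :=
        Finset.sum_congr rfl fun χ _ => mul_pow _ _ _
      have h6 := Real.sum_mul_le_sqrt_mul_sqrt (univ : Finset (DirichletCharacter ℂ d))
        (fun χ => al χ ^ 2) (fun χ => be χ ^ 2)
      have h7 : ∀ w : DirichletCharacter ℂ d → ℝ, ∑ χ : DirichletCharacter ℂ d, (w χ ^ 2) ^ 2 =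
          ∑ χ : DirichletCharacter ℂ d, w χ ^ 4 := fun w =>
        Finset.sum_congr rfl fun χ _ => by rw [← pow_mul]
      have h8 : √(∑ χ : DirichletCharacter ℂ d, (al χ ^ 2) ^ 2) ≤ 2 * m * G := by
        rw [h7 al]
        refine (Real.sqrt_le_sqrt hA4).trans (le_of_eq ?_)
        exact Real.sqrt_sq (by positivity)
      have h9 : √(∑ χ : DirichletCharacter ℂ d, (be χ ^ 2) ^ 2) ≤ 2 * m * G := by
        rw [h7 be]
        refine (Real.sqrt_le_sqrt hB4).trans (le_of_eq ?_)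
        exact Real.sqrt_sq (by positivity)
      have h10 := mul_le_mul h8 h9 (Real.sqrt_nonneg _) (by positivity)
      calc ∑ χ ∈ (univ : Finset (DirichletCharacter ℂ d)) \ S, (al χ * be χ) ^ 2
          ≤ ∑ χ : DirichletCharacter ℂ d, (al χ * be χ) ^ 2 := h4
        _ = ∑ χ : DirichletCharacter ℂ d, (al χ ^ 2) * (be χ ^ 2) := h5
        _ ≤ _ := h6
        _ ≤ 2 * m * G * (2 * m * G) := h10
        _ = (2 * m * G) ^ 2 := by ring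
    have h4 : √(∑ χ ∈ (univ : Finset (DirichletCharacter ℂ d)) \ S, (al χ * be χ) ^ 2) ≤ 2 * m * G := by
      refine (Real.sqrt_le_sqrt h3).trans (le_of_eq ?_)
      exact Real.sqrt_sq (by positivity)
    have h5 := mul_le_mul h2 h4 (Real.sqrt_nonneg _) (mul_nonneg hζ he.le)
    calc ∑ χ ∈ (univ : Finset (DirichletCharacter ℂ d)) \ S, g χ ≤ _ := h1
      _ ≤ ζ * e * (2 * m * G) := h5
      _ = e * (ζ * (2 * m * G)) := by ring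
  calc G * ∑ q ∈ A ×ˢ B, f (ucl d (q.1 * q.2)) ≤ ∑ χ : DirichletCharacter ℂ d, g χ := hF
    _ ≤ _ := hsplit
    _ ≤ _ := add_le_add (add_le_add hT1 hT2) hT3
    _ = _ := by ring

end Pool.Agent.Lib.MP_42948a_nt.PS
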