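import Pool.Agent.Lib.MP_42948a_nt.PS.A3

/-!
# Two identities for the exceptional set (job D4a)

`H = perp 𝓗`, `f1 c = f c` if `c0⁻¹ c ∈ H`, `0` otherwise; `A = R.filter (Λ (ucl a) ≠ lio a)`; `B = R.filter (lio b = - (σ Λ (c0 (ucl b)⁻¹)))`.
If `(a, b) ∈ A × R`, `f1 (ucl (a b)) ≠ 0`: `f (ucl (a b)) ≠ 0`, so `lio a lio b = σ`; `lio a = - Λ (ucl a)` (both `±1`, different: `lio a = (-1)^Ω`); `c0⁻¹ ucl (a b) ∈ H`
gives `ucl a = c0 (ucl b)⁻¹ h`, `h ∈ H` (`ucl_mul`), `Λ (ucl a) = Λ (c0 (ucl b)⁻¹)` (`hΛ.2`); so `lio b = σ lio a = - σ Λ (c0 (ucl b)⁻¹)`, `b ∈ B`.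
If `(a, b) ∈ R × B`, `f1 (ucl (a b)) ≠ 0`: `lio a = σ lio b = - Λ (c0 (ucl b)⁻¹) = - Λ (ucl a)`, so `a ∈ A` (`lio a ≠ 0`). Hence
`∑_{A×R} f1 = ∑_{A×B} f1 = ∑_{R×B} f1 = ∑_{B×R} f1` (`Finset.sum_subset`, swap with `Finset.sum_product'`/`sum_comm`, `mul_comm`), and `f1 ≤ f`.
-/

namespace Pool.Agent.Lib.MP_42948a_nt.PS

open Finset Pool.Agent.Lib.MP_42948a_nt.OA Pool.Agent.Lib.MP_42948a_nt.AC Pool.Agent.Lib.MP_42948a_nt.TQ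

open Classical in
theorem sparse_id {d : ℕ} [NeZero d] (R : Finset ℕ) (hR : ∀ a ∈ R, 0 < a ∧ a.Coprime d) (H : Subgroup (ZMod d)ˣ)
    (Λ : (ZMod d)ˣ → ℝ) (hΛ : Mod H Λ) (f : (ZMod d)ˣ → ℝ) (hf0 : ∀ c, 0 ≤ f c) (σ : ℝ) (hσ : σ = 1 ∨ σ = -1)
    (hfR : ∀ a ∈ R, ∀ b ∈ R, f (ucl d (a * b)) ≠ 0 → lio a * lio b = σ) (c0 : (ZMod d)ˣ) (f1 : (ZMod d)ˣ → ℝ)
    (hf1 : ∀ c, f1 c = if c0⁻¹ * c ∈ H then f c else 0) (A B : Finset ℕ)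
    (hA : A = R.filter (fun a : ℕ => Λ (ucl d a) ≠ lio a))
    (hB : B = R.filter (fun b : ℕ => lio b = -(σ * Λ (c0 * (ucl d b)⁻¹)))) :
    ∑ q ∈ A ×ˢ R, f1 (ucl d (q.1 * q.2)) = ∑ q ∈ B ×ˢ R, f1 (ucl d (q.1 * q.2)) ∧
      ∑ q ∈ A ×ˢ R, f1 (ucl d (q.1 * q.2)) ≤ ∑ q ∈ A ×ˢ B, f (ucl d (q.1 * q.2)) := by
  -- the basic fact for a pair with nonzero weight
  have key : ∀ a ∈ R, ∀ b ∈ R, f1 (ucl d (a * b)) ≠ 0 →
      lio a * lio b = σ ∧ Λ (ucl d a) = Λ (c0 * (ucl d b)⁻¹) := by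
    intro a ha b hb hne
    rw [hf1] at hne
    by_cases hmem : c0⁻¹ * ucl d (a * b) ∈ H
    · rw [if_pos hmem] at hne
      refine ⟨hfR a ha b hb hne, ?_⟩
      rw [ucl_mul (hR a ha).2 (hR b hb).2] at hmem
      have h1 := hΛ.2 (c0 * (ucl d b)⁻¹) _ hmem
      have h2 : c0 * (ucl d b)⁻¹ * (c0⁻¹ * (ucl d a * ucl d b)) = ucl d a := by
        rw [mul_comm (ucl d a) (ucl d b), mul_assoc, mul_comm c0⁻¹, ← mul_assoc (ucl d b)⁻¹,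
          ← mul_assoc (ucl d b)⁻¹, inv_mul_cancel, one_mul, mul_comm (ucl d a), ← mul_assoc,
          mul_inv_cancel, one_mul]
      rw [h2] at h1
      exact h1
    · rw [if_neg hmem] at hne
      exact absurd rfl hne
  have hAR : A ⊆ R := by rw [hA]; exact filter_subset _ _
  have hBR : B ⊆ R := by rw [hB]; exact filter_subset _ _
  have c1 : ∀ a ∈ A, ∀ b ∈ R, f1 (ucl d (a * b)) ≠ 0 → b ∈ B := by
    intro a ha b hb hne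
    obtain ⟨h1, h2⟩ := key a (hAR ha) b hb hne
    rw [hA, mem_filter] at ha
    rw [hB, mem_filter]
    refine ⟨hb, ?_⟩
    have ha2 := ha.2
    rw [h2] at ha2
    rcases hΛ.1 (c0 * (ucl d b)⁻¹) with h3 | h3 <;> rcases lio_val a with h4 | h4 <;>
      rcases lio_val b with h5 | h5 <;> rw [h3, h4] at ha2 <;> rw [h4, h5] at h1 <;>
      rw [h3, h5, ← h1] <;> first | exact absurd rfl ha2 | norm_num
  have c2 : ∀ a ∈ R, ∀ b ∈ B, f1 (ucl d (a * b)) ≠ 0 → a ∈ A := by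
    intro a ha b hb hne
    obtain ⟨h1, h2⟩ := key a ha b (hBR hb) hne
    rw [hB, mem_filter] at hb
    rw [hA, mem_filter]
    refine ⟨ha, ?_⟩
    have hb2 := hb.2
    rw [h2]
    rcases hΛ.1 (c0 * (ucl d b)⁻¹) with h3 | h3 <;> rcases lio_val a with h4 | h4 <;>
      rcases lio_val b with h5 | h5 <;> rw [h3, h5, ← h1, h4, h5] at hb2 <;> rw [h3, h4] <;>
      first | (norm_num at hb2; done) | norm_num
  have e1 : ∑ q ∈ A ×ˢ B, f1 (ucl d (q.1 * q.2)) = ∑ q ∈ A ×ˢ R, f1 (ucl d (q.1 * q.2)) := by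
    apply sum_subset (product_subset_product_right hBR)
    intro q hq hq2
    rw [mem_product] at hq hq2
    by_contra hne
    exact hq2 ⟨hq.1, c1 q.1 hq.1 q.2 hq.2 hne⟩
  have e2 : ∑ q ∈ A ×ˢ B, f1 (ucl d (q.1 * q.2)) = ∑ q ∈ R ×ˢ B, f1 (ucl d (q.1 * q.2)) := by
    apply sum_subset (product_subset_product_left hAR)
    intro q hq hq2
    rw [mem_product] at hq hq2
    by_contra hne
    exact hq2 ⟨c2 q.1 hq.1 q.2 hq.2 hne, hq.2⟩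
  have e3 : ∑ q ∈ R ×ˢ B, f1 (ucl d (q.1 * q.2)) = ∑ q ∈ B ×ˢ R, f1 (ucl d (q.1 * q.2)) := by
    rw [sum_product, sum_product, sum_comm]
    refine sum_congr rfl fun b _ => sum_congr rfl fun a _ => ?_
    rw [mul_comm]
  refine ⟨by rw [← e1, e2, e3], ?_⟩
  rw [← e1]
  refine sum_le_sum fun q _ => ?_
  rw [hf1]
  split_ifs
  · exact le_rfl
  · exact hf0 _

end Pool.Agent.Lib.MP_42948a_nt.PS
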