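import Pool.Agent.Lib.MP_42948a_nt.PS.Defs

/-!
# The final inequality of D4 (job D4b)

`sparse_num`: `(1+3τ)^2 ≤ 1 + 6.1 τ`; left side `≤ (1 + 2τ)(1 + ρ^2/5 - 50 ρ^2 + 6.1 τ) + τ ≤ 1 - 45 ρ^2`, right side `≥ 1 - ρ^2 - 2τ` (`nlinarith`, or by hand
with `x = ρ^2 ≤ 1/100`, `τ ≤ x/100`).
`sparse_fin`: from `h5`, `h4`, `h3`, `h6`: put `a = #A > 0`, `b = #B`, `r = #R`, `P = φ`. `√(a b) ≤ √((1+5τ) a^2) ≤ (1+3τ) a`; `I a b ≤ (ρ^2/10) r * 2 a` (`b ≤ 2 a`);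
`ζ (2 (r μ) P) ≤ τ a μ P`; so `P (1-2τ) a μ (1-ρ^2) e ≤ P J ≤ e a (r (ρ^2/5 + (1-50ρ^2)(1+3τ)^2) + τ μ P)`, `r ≤ (1+2τ) μ P`; divide by `e a μ P > 0` and use `sparse_num`.
-/

namespace Pool.Agent.Lib.MP_42948a_nt.PS

open Finset Pool.Agent.Lib.MP_42948a_nt.OA Pool.Agent.Lib.MP_42948a_nt.AC Pool.Agent.Lib.MP_42948a_nt.TQ

theorem sparse_num (τ ρ : ℝ) (hτ : 0 < τ) (hρ : 0 < ρ) (hρ1 : ρ ≤ 1 / 10) (hτρ : τ ≤ ρ ^ 2 / 100) :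
    (1 + 2 * τ) * (ρ ^ 2 / 5 + (1 - 50 * ρ ^ 2) * (1 + 3 * τ) ^ 2) + τ < (1 - 2 * τ) * (1 - ρ ^ 2) := by
  have hx1 : ρ ^ 2 ≤ 1 / 100 := by nlinarith
  have hx0 : 0 < ρ ^ 2 := by positivity
  generalize ρ ^ 2 = x at *
  have h1 : (1 + 3 * τ) ^ 2 ≤ 1 + 61 / 10 * τ := by nlinarith
  have h2 : (1 - 50 * x) * (1 + 3 * τ) ^ 2 ≤ (1 - 50 * x) * (1 + 61 / 10 * τ) :=
    mul_le_mul_of_nonneg_left h1 (by linarith)
  have h3 : 0 ≤ x * τ := by positivity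
  have h4 : x / 5 + (1 - 50 * x) * (1 + 3 * τ) ^ 2 ≤ 1 - 249 / 5 * x + 61 / 10 * τ := by linarith
  have h5 := mul_le_mul_of_nonneg_left h4 (by linarith : (0 : ℝ) ≤ 1 + 2 * τ)
  have h6 : 2 * τ * (61 / 10 * τ - 249 / 5 * x) ≤ 0 := by
    have : 61 / 10 * τ - 249 / 5 * x ≤ 0 := by linarith
    exact mul_nonpos_of_nonneg_of_nonpos (by linarith) this
  nlinarith

theorem sparse_fin (τ ρ ζ μ e e1 J a b r P I : ℝ) (hτ : 0 < τ) (hρ : 0 < ρ) (hρ1 : ρ ≤ 1 / 10) (hτρ : τ ≤ ρ ^ 2 / 100)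
    (hζ : 0 ≤ ζ) (hμ : 0 < μ) (he : 0 < e) (ha : 0 < a) (hb : 0 ≤ b) (hr : 0 < r) (hP : 0 < P) (hI : 0 ≤ I)
    (h1 : (1 - ρ ^ 2) * e ≤ e1) (h2 : (1 - 2 * τ) * (a * μ) * e1 ≤ J) (h3 : b ≤ (1 + 5 * τ) * a)
    (h4 : P * J ≤ e * (I * a * b + (1 - 50 * ρ ^ 2) * ((1 + 3 * τ) * (r * √(a * b))) + ζ * (2 * (r * μ) * P)))
    (h5 : r ^ 2 ≤ (1 + 2 * τ) * (r * μ) * P) (h6 : I * a ≤ ρ ^ 2 / 10 * r) (h7 : 2 * ζ * r ≤ τ * a) : False := by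
  have hx1 : ρ ^ 2 ≤ 1 / 100 := by nlinarith
  have hx0 : 0 < ρ ^ 2 := by positivity
  have hτ1 : τ ≤ 1 / 10000 := by linarith
  have hnum := sparse_num τ ρ hτ hρ hρ1 hτρ
  -- the square root
  have k1 : √(a * b) ≤ (1 + 3 * τ) * a := by
    rw [Real.sqrt_le_left (by positivity)]
    have : a * b ≤ a * ((1 + 5 * τ) * a) := mul_le_mul_of_nonneg_left h3 ha.le
    have h8 : 0 ≤ τ * a ^ 2 := by positivity
    have h9 : 0 ≤ τ ^ 2 * a ^ 2 := by positivity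
    nlinarith
  -- the first term
  have k2 : I * a * b ≤ ρ ^ 2 / 5 * r * a := by
    have h8 : I * a * b ≤ ρ ^ 2 / 10 * r * b := mul_le_mul_of_nonneg_right h6 hb
    have h9 : b ≤ 2 * a := by nlinarith
    have h10 : ρ ^ 2 / 10 * r * b ≤ ρ ^ 2 / 10 * r * (2 * a) :=
      mul_le_mul_of_nonneg_left h9 (by positivity)
    linarith
  have k3 : ζ * (2 * (r * μ) * P) ≤ τ * a * μ * P := by
    have h8 : (2 * ζ * r) * (μ * P) ≤ (τ * a) * (μ * P) := mul_le_mul_of_nonneg_right h7 (by positivity)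
    linarith
  have hc : 0 ≤ 1 - 50 * ρ ^ 2 := by linarith
  have k4 : (1 - 50 * ρ ^ 2) * ((1 + 3 * τ) * (r * √(a * b)))
      ≤ (1 - 50 * ρ ^ 2) * ((1 + 3 * τ) * (r * ((1 + 3 * τ) * a))) := by
    refine mul_le_mul_of_nonneg_left ?_ hc
    refine mul_le_mul_of_nonneg_left ?_ (by positivity)
    exact mul_le_mul_of_nonneg_left k1 hr.le
  set κ : ℝ := ρ ^ 2 / 5 + (1 - 50 * ρ ^ 2) * (1 + 3 * τ) ^ 2 with hκ
  have hκ0 : 0 ≤ κ := by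
    rw [hκ]
    have := mul_nonneg hc (sq_nonneg (1 + 3 * τ))
    linarith
  have k5 : r ≤ (1 + 2 * τ) * μ * P := by
    have : r * r ≤ r * ((1 + 2 * τ) * μ * P) := by
      calc r * r = r ^ 2 := by ring
        _ ≤ (1 + 2 * τ) * (r * μ) * P := h5
        _ = r * ((1 + 2 * τ) * μ * P) := by ring
    exact le_of_mul_le_mul_left this hr
  have k6 : P * J ≤ e * (a * (r * κ + τ * μ * P)) := by
    refine h4.trans (mul_le_mul_of_nonneg_left ?_ he.le)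
    have h8 : a * (r * κ + τ * μ * P) = ρ ^ 2 / 5 * r * a
        + (1 - 50 * ρ ^ 2) * ((1 + 3 * τ) * (r * ((1 + 3 * τ) * a))) + τ * a * μ * P := by
      rw [hκ]
      ring
    rw [h8]
    linarith
  have k7 : r * κ ≤ (1 + 2 * τ) * μ * P * κ := mul_le_mul_of_nonneg_right k5 hκ0
  have k8 : P * J ≤ e * (a * (μ * P * ((1 + 2 * τ) * κ + τ))) := by
    refine k6.trans (mul_le_mul_of_nonneg_left (mul_le_mul_of_nonneg_left ?_ ha.le) he.le)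
    linarith
  have k9 : P * ((1 - 2 * τ) * (a * μ) * ((1 - ρ ^ 2) * e)) ≤ P * J := by
    refine mul_le_mul_of_nonneg_left ?_ hP.le
    refine le_trans (mul_le_mul_of_nonneg_left h1 ?_) h2
    exact mul_nonneg (by linarith) (by positivity)
  have hw : 0 < e * (a * (μ * P)) := by positivity
  have k10 : e * (a * (μ * P)) * ((1 + 2 * τ) * κ + τ)
      < e * (a * (μ * P)) * ((1 - 2 * τ) * (1 - ρ ^ 2)) := mul_lt_mul_of_pos_left hnum hw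
  have k11 : e * (a * (μ * P)) * ((1 - 2 * τ) * (1 - ρ ^ 2))
      = P * ((1 - 2 * τ) * (a * μ) * ((1 - ρ ^ 2) * e)) := by ring
  have k12 : e * (a * (μ * P * ((1 + 2 * τ) * κ + τ)))
      = e * (a * (μ * P)) * ((1 + 2 * τ) * κ + τ) := by ring
  linarith

end Pool.Agent.Lib.MP_42948a_nt.PS
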