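import Pool.Agent.Lib.MP_42948a_nt.PS.D3
import Pool.Agent.Lib.MP_42948a_nt.PS.D4a
import Pool.Agent.Lib.MP_42948a_nt.PS.D4b

/-!
# The exceptional set is sparse (job D4)

`e = ∑ f`, `H = perp 𝓗`, `f1 c = f c` if `c0⁻¹ c ∈ H`, `0` otherwise, `e1 = ∑ f1 ≥ (1 - ρ^2) e ≥ e/2`; `A = R.filter (Λ (ucl a) ≠ lio a)`, `B` from `sparse_id`
(`D4a.lean`), `J = ∑_{A×R} f1`. Every `hP B'` gives the hypotheses of `bil_bounds` for `(B', R)` with `m = #B' μ` and the functions `f1` (`e/2 ≤ e1`), `f` and `1` (`e/2 ≤ φ`, as `f ≤ 1`).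
(i) `(1 - 2τ) #A μ e1 ≤ J ≤ (1 + 2τ) #A μ e1` (`hP A`). (ii) `J = ∑_{B×R} f1`, `J ≤ ∑_{A×B} f` (`sparse_id`).
(iii) `#B ≤ (1 + 5τ) #A`: clear if `#B ≤ #A`; otherwise `hP B`: `(1-2τ) #B μ e1 ≤ J ≤ (1+2τ) #A μ e1` and `(1+2τ) ≤ (1+5τ)(1-2τ)` (`τ ≤ 1/10`), `e1 > 0`.
(iv) `bil_gap` with `m = #R μ` (`hP R`; `A ⊆ R` so `#A ≤ #R`): `φ J ≤ φ ∑_{A×B} f ≤ e (I #A #B + (1-50ρ^2)(1+3τ) #R √(#A #B) + ζ 2 (#R μ) φ)`.
(v) `#R^2 = ∑_{R×R} 1 ≤ (1+2τ) #R μ φ` (`bil_bounds` with the constant function `1` and `hP R`). Conclude by `sparse_fin` (`D4b.lean`).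
-/

namespace Pool.Agent.Lib.MP_42948a_nt.PS

open Finset Pool.Agent.Lib.MP_42948a_nt.OA Pool.Agent.Lib.MP_42948a_nt.AC Pool.Agent.Lib.MP_42948a_nt.TQ

open Classical in
theorem sparse3 {d : ℕ} [NeZero d] (R : Finset ℕ) (hR : ∀ a ∈ R, 0 < a ∧ a.Coprime d) (𝓗 : Subgroup (DirichletCharacter ℂ d))
    (Λ : (ZMod d)ˣ → ℝ) (hΛ : Mod (perp 𝓗) Λ) (f : (ZMod d)ˣ → ℝ) (hf0 : ∀ c, 0 ≤ f c) (hf1 : ∀ c, f c ≤ 1)
    (he : 0 < ∑ c, f c) (σ : ℝ) (hσ : σ = 1 ∨ σ = -1)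
    (hfR : ∀ a ∈ R, ∀ b ∈ R, f (ucl d (a * b)) ≠ 0 → lio a * lio b = σ) (c0 : (ZMod d)ˣ) (τ ρ : ℝ) (hτ : 0 < τ)
    (hρ : 0 < ρ) (hρ1 : ρ ≤ 1 / 10) (hτρ : τ ≤ ρ ^ 2 / 100)
    (hc0 : (1 - ρ ^ 2) * ∑ c, f c ≤ ∑ c ∈ (univ : Finset (ZMod d)ˣ).filter (fun c => c0⁻¹ * c ∈ perp 𝓗), f c)
    (S : Finset (DirichletCharacter ℂ d)) (ζ : ℝ) (hζ : 0 ≤ ζ)
    (hS : ∑ χ ∈ (univ : Finset (DirichletCharacter ℂ d)) \ S, ‖SF f χ‖ ^ 2 ≤ (ζ * ∑ c, f c) ^ 2)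
    (hH : ∀ χ, χ ∉ 𝓗 → 10 * ρ < Nn f χ) (I : ℕ)
    (hI : ((univ : Finset (DirichletCharacter ℂ d)).filter (fun χ => χ ∈ 𝓗)).card ≤ I) (μ : ℝ) (hμ : 0 < μ)
    (hA0 : 0 < (R.filter (fun a : ℕ => Λ (ucl d a) ≠ lio a)).card)
    (hP : ∀ B ⊆ R, (R.filter (fun a : ℕ => Λ (ucl d a) ≠ lio a)).card ≤ B.card → ∃ Er : (ZMod d)ˣ → ℝ, (∀ c, 0 ≤ Er c) ∧
      (∀ c, |(rp d B R c : ℝ) - (B.card : ℝ) * μ| ≤ τ * ((B.card : ℝ) * μ) + Er c) ∧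
      ∑ c, Er c ^ 2 ≤ (τ * ((B.card : ℝ) * μ)) ^ 2 * ((∑ c, f c) / 2))
    (hBes : ∀ B ⊆ R, ∑ χ ∈ S, ‖AR B (fun _ => 1) χ‖ ^ 2 ≤ (1 + 3 * τ) * ((B.card : ℝ) * (R.card : ℝ)))
    (hIA : (I : ℝ) * ((R.filter (fun a : ℕ => Λ (ucl d a) ≠ lio a)).card : ℝ) ≤ ρ ^ 2 / 10 * (R.card : ℝ))
    (hζA : 2 * ζ * (R.card : ℝ) ≤ τ * ((R.filter (fun a : ℕ => Λ (ucl d a) ≠ lio a)).card : ℝ)) : False := by
  have hcomp : ∀ a ∈ R, a.Coprime d := fun a ha => (hR a ha).2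
  set f1 : (ZMod d)ˣ → ℝ := fun c => if c0⁻¹ * c ∈ perp 𝓗 then f c else 0 with hf1def
  set A := R.filter (fun a : ℕ => Λ (ucl d a) ≠ lio a) with hAdef
  set B := R.filter (fun b : ℕ => lio b = -(σ * Λ (c0 * (ucl d b)⁻¹))) with hBdef
  have hAR : A ⊆ R := Finset.filter_subset _ _
  have hBR : B ⊆ R := Finset.filter_subset _ _
  obtain ⟨hid1, hid2⟩ := sparse_id R hR (perp 𝓗) Λ hΛ f hf0 σ hσ hfR c0 f1 (fun c => rfl) A B hAdef hBdef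
  have hf1a : ∀ c, f1 c = if c0⁻¹ * c ∈ perp 𝓗 then f c else 0 := fun c => rfl
  have hf10 : ∀ c, 0 ≤ f1 c := by
    intro c
    rw [hf1a]
    split_ifs
    · exact hf0 c
    · exact le_rfl
  have hf11 : ∀ c, f1 c ≤ 1 := by
    intro c
    rw [hf1a]
    split_ifs
    · exact hf1 c
    · exact zero_le_one
  have he1 : (1 - ρ ^ 2) * ∑ c, f c ≤ ∑ c, f1 c := by
    refine hc0.trans (le_of_eq ?_)
    rw [Finset.sum_filter]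
  set e := ∑ c, f c with hedef
  set e1 := ∑ c, f1 c with he1def
  have hρ2 : ρ ^ 2 ≤ 1 / 100 := by nlinarith
  have hτ1 : τ ≤ 1 / 10 := by nlinarith
  have hhalf : e / 2 ≤ e1 := by
    refine le_trans ?_ he1
    nlinarith
  have he1pos : 0 < e1 := lt_of_lt_of_le (by linarith) hhalf
  set φ : ℝ := (Fintype.card (ZMod d)ˣ : ℝ) with hφ
  have heφ : e ≤ φ := by
    rw [hedef, hφ]
    calc ∑ c, f c ≤ ∑ _c : (ZMod d)ˣ, (1 : ℝ) := Finset.sum_le_sum (fun c _ => hf1 c)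
      _ = (Fintype.card (ZMod d)ˣ : ℝ) := by rw [Finset.sum_const, Finset.card_univ, nsmul_eq_mul, mul_one]
  have hφpos : 0 < φ := lt_of_lt_of_le he heφ
  have hApos : (0 : ℝ) < (A.card : ℝ) := by exact_mod_cast hA0
  have key : ∀ B' ⊆ R, A.card ≤ B'.card →
      (1 - 2 * τ) * ((B'.card : ℝ) * μ) * e1 ≤ ∑ q ∈ B' ×ˢ R, f1 (ucl d (q.1 * q.2)) ∧
        ∑ q ∈ B' ×ˢ R, f1 (ucl d (q.1 * q.2)) ≤ (1 + 2 * τ) * ((B'.card : ℝ) * μ) * e1 := by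
    intro B' hB' hc
    obtain ⟨Er, hEr0, hr, hEr⟩ := hP B' hB' hc
    have hBpos : (0 : ℝ) < (B'.card : ℝ) := lt_of_lt_of_le hApos (by exact_mod_cast hc)
    exact bil_bounds B' R (fun b hb => hcomp b (hB' hb)) hcomp f1 hf10 hf11 ((B'.card : ℝ) * μ) τ Er
      (mul_pos hBpos hμ) hτ hEr0 hr (hEr.trans (mul_le_mul_of_nonneg_left hhalf (sq_nonneg _)))
  have hRcard : A.card ≤ R.card := Finset.card_le_card hAR
  have hRpos : (0 : ℝ) < (R.card : ℝ) := lt_of_lt_of_le hApos (by exact_mod_cast hRcard)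
  have hJA := key A hAR le_rfl
  have h3 : (B.card : ℝ) ≤ (1 + 5 * τ) * (A.card : ℝ) := by
    by_cases hc : A.card ≤ B.card
    · have hJB := key B hBR hc
      rw [← hid1] at hJB
      have h1 : (1 - 2 * τ) * ((B.card : ℝ) * μ) * e1 ≤ (1 + 2 * τ) * ((A.card : ℝ) * μ) * e1 :=
        hJB.1.trans hJA.2
      have hμe : 0 < μ * e1 := mul_pos hμ he1pos
      have h2 : (1 - 2 * τ) * (B.card : ℝ) ≤ (1 + 2 * τ) * (A.card : ℝ) := by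
        refine le_of_mul_le_mul_right ?_ hμe
        calc (1 - 2 * τ) * (B.card : ℝ) * (μ * e1) = (1 - 2 * τ) * ((B.card : ℝ) * μ) * e1 := by ring
          _ ≤ (1 + 2 * τ) * ((A.card : ℝ) * μ) * e1 := h1
          _ = (1 + 2 * τ) * (A.card : ℝ) * (μ * e1) := by ring
      have h4 : (1 + 2 * τ) ≤ (1 - 2 * τ) * (1 + 5 * τ) := by nlinarith
      have h5 : (1 - 2 * τ) * (B.card : ℝ) ≤ (1 - 2 * τ) * ((1 + 5 * τ) * (A.card : ℝ)) := by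
        refine h2.trans ?_
        rw [← mul_assoc]
        exact mul_le_mul_of_nonneg_right h4 hApos.le
      exact le_of_mul_le_mul_left h5 (by linarith)
    · push Not at hc
      have h1 : (B.card : ℝ) ≤ (A.card : ℝ) := by exact_mod_cast hc.le
      nlinarith [mul_pos hτ hApos]
  obtain ⟨Er, hEr0, hr, hEr⟩ := hP R (Finset.Subset.refl R) hRcard
  have hmR : 0 < (R.card : ℝ) * μ := mul_pos hRpos hμ
  have hErφ : ∑ c, Er c ^ 2 ≤ (τ * ((R.card : ℝ) * μ)) ^ 2 * φ :=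
    hEr.trans (mul_le_mul_of_nonneg_left (by linarith) (sq_nonneg _))
  have h4 := bil_gap R A B hcomp hAR hBR f hf0 he ((R.card : ℝ) * μ) τ Er hmR hτ hτ1 hEr0 hr hErφ S ζ hζ hS 𝓗 ρ hρ
    hρ1 hH I hI (hBes A hAR) (hBes B hBR)
  have h4' : φ * ∑ q ∈ A ×ˢ R, f1 (ucl d (q.1 * q.2)) ≤ e *
      ((I : ℝ) * (A.card : ℝ) * (B.card : ℝ) +
        (1 - 50 * ρ ^ 2) * ((1 + 3 * τ) * ((R.card : ℝ) * √((A.card : ℝ) * (B.card : ℝ)))) +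
        ζ * (2 * ((R.card : ℝ) * μ) * φ)) :=
    (mul_le_mul_of_nonneg_left hid2 hφpos.le).trans h4
  have h5 : (R.card : ℝ) ^ 2 ≤ (1 + 2 * τ) * ((R.card : ℝ) * μ) * φ := by
    have h1 := (bil_bounds R R hcomp hcomp (fun _ => (1 : ℝ)) (fun _ => zero_le_one) (fun _ => le_rfl)
      ((R.card : ℝ) * μ) τ Er hmR hτ hEr0 hr (by
        rw [Finset.sum_const, Finset.card_univ, nsmul_eq_mul, mul_one]
        exact hErφ)).2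
    rw [Finset.sum_const, Finset.sum_const, Finset.card_univ, Finset.card_product, nsmul_eq_mul, nsmul_eq_mul,
      mul_one, mul_one, Nat.cast_mul] at h1
    rw [pow_two]
    exact h1
  exact sparse_fin τ ρ ζ μ e e1 _ (A.card : ℝ) (B.card : ℝ) (R.card : ℝ) φ (I : ℝ) hτ hρ hρ1 hτρ hζ hμ he hApos
    (Nat.cast_nonneg _) hRpos hφpos (Nat.cast_nonneg _) he1 hJA.1 h3 h4' h5 hIA hζA

end Pool.Agent.Lib.MP_42948a_nt.PS
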