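import Pool.Agent.Lib.MP_42948a_nt.PS.C2
import Pool.Agent.Lib.MP_42948a_nt.PS.C3
import Pool.Agent.Lib.MP_42948a_nt.PS.D1
import Pool.Agent.Lib.MP_42948a_nt.PS.D2
import Pool.Agent.Lib.MP_42948a_nt.PS.D4
import Pool.Agent.Lib.MP_42948a_nt.TQ.G2

/-!
# The structure theorem for one modulus (job D5)

`e = ∑ f`, `φ = card G`. (1) `annulus` with `G = DirichletCharacter ℂ d`, `N = Nn f` (`Nn_one`, `Nn_inv`, `Nn_mul`), `R1 = 1/100`: if `Nn f χ ≤ 1/100` then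
`nf f χ = 1 - Nn^2/2 ≥ 1/2` (`Nn_sq`), so `hfew` bounds the number of such `χ`. We get `r0 ≤ ρ ≤ 1/1000` and `𝓗` with `χ ∈ 𝓗 ↔ Nn f χ ≤ ρ`,
`χ ∉ 𝓗 → 10 ρ < Nn f χ`. `#𝓗 ≤ M0` (same argument); `H = perp 𝓗`, `φ = #𝓗 #H ≤ M0 #H` (`perp_card`). `τ ≤ r0^4/(100 (M0+1)) ≤ ρ^4/(100 (M0+1))`.
(2) `hP R` (`α0 ≤ #R`) and `mass_lower` with `m = #R μ` (`(e/2 ≤ e)`; `hζS`, `ζ ≤ τ/8`), `hBes R lio`, `concentrate` give the hypothesis `h` of `model` (`TQ/G2.lean`) with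
the trivial `ρ = 1 : H →* ℤˣ`, `ω = τ/ρ^2`, `θ = 3τ` (`hθ`); we get `Λ` with `Λ (g h) = Λ g * rhoE 1 h = Λ g` (`rhoE 1 h = 1` for `h ∈ H`: `rhoE` is defined in `TQ/G1.lean`;
unfold, `dif_pos`), i.e. `Mod H Λ`, and `2 #A ≤ (τ/ρ^2 + 3τ) #R`, `A = R.filter (Λ (ucl a) ≠ lio a)`.
(3) Suppose `α0 ≤ #A`. `coset_mass` (`‖SF f χ‖ = nf * e ≥ (1 - ρ^2/2) e` for `χ ∈ 𝓗`, by `Nn_sq`) gives `c0`, and `sparse3` with `I = M0` applies: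
`I #A ≤ M0 (τ/ρ^2 + 3τ)/2 #R ≤ M0 (τ/ρ^2) #R ≤ (ρ^2/100) #R`; `2 ζ #R ≤ τ α0 ≤ τ #A`; `hP` for `#A ≤ #B` since `α0 ≤ #A`; `τ ≤ ρ^4/100 ≤ ρ^2/100`. Contradiction. So `#A < α0`.
-/

namespace Pool.Agent.Lib.MP_42948a_nt.PS

open Finset Pool.Agent.Lib.MP_42948a_nt.OA Pool.Agent.Lib.MP_42948a_nt.AC Pool.Agent.Lib.MP_42948a_nt.TQ

private theorem D5_num {r0 ρ τ m : ℝ} (hr0 : 0 < r0) (hρr : r0 ≤ ρ) (hρ10 : ρ * 10 ≤ 1 / 100)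
    (hτ : 0 < τ) (hm : 0 ≤ m) (hτ1 : τ ≤ r0 ^ 4 / (100 * (m + 1))) :
    100 * (m * τ) ≤ ρ ^ 4 ∧ 100 * τ ≤ ρ ^ 4 ∧ ρ ^ 4 ≤ ρ ^ 2 / 100 ∧ ρ ^ 2 ≤ 1 / 100 := by
  have hρ : 0 < ρ := lt_of_lt_of_le hr0 hρr
  have hM1 : (0 : ℝ) < 100 * (m + 1) := by positivity
  have hr4 : r0 ^ 4 ≤ ρ ^ 4 := pow_le_pow_left₀ hr0.le hρr 4
  have hτ2 : τ * (100 * (m + 1)) ≤ ρ ^ 4 := by
    rw [le_div_iff₀ hM1] at hτ1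
    linarith
  have hmτ : 0 ≤ m * τ := mul_nonneg hm hτ.le
  have e1 : τ * (100 * (m + 1)) = 100 * (m * τ) + 100 * τ := by ring
  have h1 : ρ ≤ 1 / 1000 := by linarith
  have hρ2 : ρ ^ 2 ≤ 1 / 100 := by
    have h2 : ρ ^ 2 ≤ (1 / 1000) ^ 2 := pow_le_pow_left₀ hρ.le h1 2
    norm_num at h2 ⊢
    linarith
  have e2 : ρ ^ 4 = ρ ^ 2 * ρ ^ 2 := by ring
  have h3 : ρ ^ 2 * ρ ^ 2 ≤ ρ ^ 2 * (1 / 100) := mul_le_mul_of_nonneg_left hρ2 (sq_nonneg ρ)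
  refine ⟨by linarith, by linarith, by linarith, hρ2⟩

private theorem D5_fin {ρ τ m A R : ℝ} (hρ : 0 < ρ) (hm : 0 ≤ m) (hR : 0 < R)
    (hMτ : 100 * (m * τ) ≤ ρ ^ 4) (hρ4 : ρ ^ 4 ≤ ρ ^ 2 / 100)
    (h : 2 * A ≤ (τ / ρ ^ 2 + 3 * τ) * R) : m * A ≤ ρ ^ 2 / 10 * R := by
  have h1 : m * (τ / ρ ^ 2) ≤ ρ ^ 2 / 100 := by
    rw [← mul_div_assoc, div_le_iff₀ (by positivity)]
    have e : ρ ^ 2 / 100 * ρ ^ 2 = ρ ^ 4 / 100 := by ring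
    linarith
  have h2 : m * (3 * τ) ≤ ρ ^ 2 / 100 := by
    have h3 : 0 ≤ ρ ^ 2 := sq_nonneg ρ
    linarith
  have h3 : m * (2 * A) ≤ m * ((τ / ρ ^ 2 + 3 * τ) * R) := mul_le_mul_of_nonneg_left h hm
  have h4 : m * ((τ / ρ ^ 2 + 3 * τ) * R) = (m * (τ / ρ ^ 2) + m * (3 * τ)) * R := by ring
  have h5 : (m * (τ / ρ ^ 2) + m * (3 * τ)) * R ≤ (ρ ^ 2 / 100 + ρ ^ 2 / 100) * R :=
    mul_le_mul_of_nonneg_right (add_le_add h1 h2) hR.le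
  have h6 : 0 ≤ ρ ^ 2 * R := by positivity
  linarith

private theorem D5_nf {d : ℕ} [NeZero d] {f : (ZMod d)ˣ → ℝ} (hf0 : ∀ c, 0 ≤ f c)
    {χ : DirichletCharacter ℂ d} {r : ℝ} (hχ : Nn f χ ≤ r) : 1 - r ^ 2 / 2 ≤ nf f χ := by
  have h1 := Nn_sq f hf0 χ
  have h2 := Nn_nonneg f χ
  have h3 : Nn f χ ^ 2 ≤ r ^ 2 := pow_le_pow_left₀ h2 hχ 2
  linarith

private theorem D5_lio (n : ℕ) : |lio n| ≤ 1 := by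
  rcases lio_val n with h | h
  · rw [h]; norm_num
  · rw [h]; norm_num

private theorem D5_rho {G : Type*} [Group G] (H : Subgroup G) {h : G} (hh : h ∈ H) :
    rhoE (1 : H →* ℤˣ) h = 1 := by
  unfold rhoE
  rw [dif_pos hh]
  simp

open Classical in
theorem struct_fixed {d : ℕ} [NeZero d] (R : Finset ℕ) (hR : ∀ a ∈ R, 0 < a ∧ a.Coprime d)
    (f : (ZMod d)ˣ → ℝ) (hf0 : ∀ c, 0 ≤ f c) (hf1 : ∀ c, f c ≤ 1)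
    (he : 0 < ∑ c, f c) (σ : ℝ) (hσ : σ = 1 ∨ σ = -1)
    (hfR : ∀ a ∈ R, ∀ b ∈ R, f (ucl d (a * b)) ≠ 0 → lio a * lio b = σ) (M0 : ℕ) (r0 τ : ℝ) (hr0 : 0 < r0)
    (hr1 : r0 * 10 ^ (M0 + 1) ≤ 1 / 100) (hτ : 0 < τ) (hτ1 : τ ≤ r0 ^ 4 / (100 * (M0 + 1)))
    (hfew : ∀ Ξ : Finset (DirichletCharacter ℂ d), (∀ χ ∈ Ξ, 1 / 2 ≤ nf f χ) → Ξ.card ≤ M0)
    (S : Finset (DirichletCharacter ℂ d)) (ζ : ℝ) (hζ : 0 ≤ ζ) (hζτ : ζ ≤ τ / 8)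
    (hζS : ∑ χ ∈ (univ : Finset (DirichletCharacter ℂ d)) \ S, ‖SF f χ‖ ^ 2 ≤ (ζ * ∑ c, f c) ^ 2)
    (μ α0 : ℝ) (hμ : 0 < μ) (hα0 : 0 < α0) (hαR : α0 ≤ (R.card : ℝ)) (hζα : 2 * ζ * (R.card : ℝ) ≤ τ * α0)
    (hP : ∀ B ⊆ R, α0 ≤ (B.card : ℝ) → ∃ Er : (ZMod d)ˣ → ℝ, (∀ c, 0 ≤ Er c) ∧
      (∀ c, |(rp d B R c : ℝ) - (B.card : ℝ) * μ| ≤ τ * ((B.card : ℝ) * μ) + Er c) ∧
      ∑ c, Er c ^ 2 ≤ (τ * ((B.card : ℝ) * μ)) ^ 2 * ((∑ c, f c) / 2))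
    (hBes : ∀ B ⊆ R, ∀ g : ℕ → ℝ, (∀ n, |g n| ≤ 1) →
      ∑ χ ∈ S, ‖AR B g χ‖ ^ 2 ≤ (1 + 3 * τ) * ((B.card : ℝ) * (R.card : ℝ)))
    (hθ : ∀ H : Subgroup (ZMod d)ˣ, (Fintype.card (ZMod d)ˣ : ℝ) ≤ M0 * (Nat.card H : ℝ) → ∀ g : (ZMod d)ˣ,
      ((R.filter (fun a : ℕ => g⁻¹ * ucl d a ∈ H)).card : ℝ) ≤
        (1 + 3 * τ) * ((Nat.card H : ℝ) / (Fintype.card (ZMod d)ˣ : ℝ)) * (R.card : ℝ)) :
    ∃ (H : Subgroup (ZMod d)ˣ) (Λ : (ZMod d)ˣ → ℝ), (Fintype.card (ZMod d)ˣ : ℝ) ≤ M0 * (Nat.card H : ℝ) ∧ Mod H Λ ∧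
      ((R.filter (fun a : ℕ => Λ (ucl d a) ≠ lio a)).card : ℝ) < α0 := by
  obtain ⟨ρ, 𝓗, hρr, hρ10, hmem, hH⟩ := annulus (Nn f) (Nn_one f hf0 he) (Nn_inv f)
    (Nn_mul f hf0 he) M0 r0 (1 / 100) hr0 (fun Ξ hΞ => hfew Ξ (fun χ hχ => by
      have h1 := D5_nf hf0 (hΞ χ hχ)
      norm_num at h1 ⊢
      linarith)) hr1
  have hρ : 0 < ρ := lt_of_lt_of_le hr0 hρr
  have hρ3 : ρ ≤ 1 / 1000 := by linarith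
  have hM0 : (0 : ℝ) ≤ M0 := Nat.cast_nonneg M0
  obtain ⟨hMτ, hτ3, hρ4, hρ2⟩ := D5_num hr0 hρr hρ10 hτ hM0 hτ1
  have hτ4 : τ ≤ 1 / 10 := by linarith
  have hI : ((univ : Finset (DirichletCharacter ℂ d)).filter (fun χ => χ ∈ 𝓗)).card ≤ M0 := by
    refine hfew _ (fun χ hχ => ?_)
    rw [mem_filter] at hχ
    have h1 := D5_nf hf0 ((hmem χ).1 hχ.2)
    linarith
  have hcard : (Fintype.card (ZMod d)ˣ : ℝ) ≤ M0 * (Nat.card (perp 𝓗) : ℝ) := by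
    rw [perp_card 𝓗]
    have h1 : (((univ : Finset (DirichletCharacter ℂ d)).filter (fun χ => χ ∈ 𝓗)).card : ℝ) ≤ M0 := by
      exact_mod_cast hI
    exact mul_le_mul_of_nonneg_right h1 (Nat.cast_nonneg _)
  have hRc : 0 < (R.card : ℝ) := lt_of_lt_of_le hα0 hαR
  obtain ⟨Er, hEr0, hEr1, hEr2⟩ := hP R (Subset.refl R) hαR
  have hmass := mass_lower R (fun a ha => (hR a ha).2) f hf0 hf1 σ hσ hfR ((R.card : ℝ) * μ) τ Er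
    (mul_pos hRc hμ) hτ hτ4 hEr0 hEr1 (by
      refine hEr2.trans (mul_le_mul_of_nonneg_left ?_ (sq_nonneg _))
      linarith) S (by
      refine hζS.trans (pow_le_pow_left₀ (mul_nonneg hζ he.le) ?_ 2)
      exact mul_le_mul_of_nonneg_right hζτ he.le)
  have hB : ∑ χ ∈ S, ‖AR R lio χ‖ ^ 2 ≤ (1 + 3 * τ) * (R.card : ℝ) ^ 2 := by
    have h1 := hBes R (Subset.refl R) lio D5_lio
    rw [pow_two]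
    exact h1
  have hconc := concentrate R f hf0 he τ ρ hτ hρ (by linarith) S 𝓗 hH hmass hB
  obtain ⟨Λ, hΛ1, hΛ2, hΛ3⟩ := model R hR (perp 𝓗) 1 (τ / ρ ^ 2) (3 * τ) (by positivity)
    (by positivity) hconc (hθ (perp 𝓗) hcard)
  have hMod : Mod (perp 𝓗) Λ := ⟨hΛ1, fun g h hh => by
    rw [hΛ2 g h hh, D5_rho (perp 𝓗) hh, mul_one]⟩
  refine ⟨perp 𝓗, Λ, hcard, hMod, ?_⟩
  by_contra hcon
  rw [not_lt] at hcon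
  obtain ⟨c0, hc0⟩ := coset_mass 𝓗 f hf0 he ρ hρ.le (by linarith) (fun χ hχ => by
    have h1 := D5_nf hf0 ((hmem χ).1 hχ)
    have h2 : ‖SF f χ‖ = nf f χ * ∑ c, f c := by
      rw [nf, div_mul_cancel₀ _ he.ne']
    rw [h2]
    exact mul_le_mul_of_nonneg_right h1 he.le)
  refine sparse3 R hR 𝓗 Λ hMod f hf0 hf1 he σ hσ hfR c0 τ ρ hτ hρ (by linarith) (by linarith)
    hc0 S ζ hζ hζS hH M0 hI μ hμ ?_ (fun B hBR hAB => ?_) (fun B hBR => ?_) ?_ ?_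
  · exact_mod_cast lt_of_lt_of_le hα0 hcon
  · refine hP B hBR (hcon.trans ?_)
    exact_mod_cast hAB
  · exact hBes B hBR (fun _ => 1) (fun _ => by norm_num)
  · exact D5_fin hρ hM0 hRc hMτ hρ4 hΛ3
  · exact hζα.trans (mul_le_mul_of_nonneg_left hcon hτ.le)

end Pool.Agent.Lib.MP_42948a_nt.PS
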