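import Pool.Agent.Lib.MP_42948a_nt.PS.A1
import Pool.Agent.Lib.MP_42948a_nt.PS.A2
import Pool.Agent.Lib.MP_42948a_nt.PS.C1

/-!
# The function `f = (Sh U)^[8] 1_E` (job D6a)

`walk_facts`: `iter_basic`, `iter_SF` (`A1.lean`) with `j = 8` and the function `ind E` (values in `{0, 1}`, `∑ ind E = #E`). `‖SF (ind E) χ‖ ≤ #E` (triangle inequality,
`‖ev χ c‖ = 1`, `norm_ev` or similar in `TQ/B2.lean`/`TQ/A4.lean`; or `nf_le_one`). Last item: outside `S`, `‖SF f χ‖^2 = ‖Pa‖^16 ‖SF (ind E) χ‖^2 ≤ v^16 ‖SF (ind E) χ‖^2` and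
`∑_χ ‖SF (ind E) χ‖^2 = φ ∑_c (ind E c)^2 = φ #E` (`parseval_SF` in `TQ/B2.lean`).
`walk_pure`: `pure_iter` (`A2.lean`) with `j = 8`, `σ`, `X' = N * N`, the function `ind E` (nonzero at `c` iff `c ∈ E`): `PurA d z (N * N) σ (ucl (a b))` (`(-1)^8 = 1`), and `a b`
is rough, `0 < a b ≤ N N`, coprime to `d`, of this class (`ucl_val`): `lio (a b) = σ`, `lio_mul`.
-/

namespace Pool.Agent.Lib.MP_42948a_nt.PS

open Finset Pool.Agent.Lib.MP_42948a_nt.OA Pool.Agent.Lib.MP_42948a_nt.AC Pool.Agent.Lib.MP_42948a_nt.TQ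

private theorem D6a_sum_ind {d : ℕ} [NeZero d] (E : Finset (ZMod d)ˣ) :
    ∑ c : (ZMod d)ˣ, ind E c = (E.card : ℝ) := by
  have h1 : ∀ c : (ZMod d)ˣ, ind E c = if c ∈ E then 1 else 0 := by
    intro c
    by_cases h : c ∈ E
    · unfold ind
      rw [if_pos h, if_pos h]
    · unfold ind
      rw [if_neg h, if_neg h]
  rw [Finset.sum_congr rfl fun c _ => h1 c, Finset.sum_ite_mem, Finset.univ_inter, Finset.sum_const, nsmul_eq_mul, mul_one]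

private theorem D6a_norm_SF {d : ℕ} [NeZero d] (E : Finset (ZMod d)ˣ) (χ : DirichletCharacter ℂ d) :
    ‖SF (ind E) χ‖ ≤ (E.card : ℝ) := by
  classical
  unfold SF
  refine (norm_sum_le _ _).trans ?_
  have h1 : ∀ c : (ZMod d)ˣ, ‖((ind E c : ℝ) : ℂ) * (starRingEnd ℂ) (ev χ c)‖ = ind E c := by
    intro c
    rw [norm_mul, RCLike.norm_conj, norm_ev, mul_one, Complex.norm_real, Real.norm_eq_abs]
    unfold ind
    split_ifs <;> simp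
  rw [Finset.sum_congr rfl fun c _ => h1 c, D6a_sum_ind]

private theorem D6a_sum_ind_sq {d : ℕ} [NeZero d] (E : Finset (ZMod d)ˣ) :
    ∑ c : (ZMod d)ˣ, ind E c ^ 2 = (E.card : ℝ) := by
  classical
  rw [← D6a_sum_ind E]
  refine Finset.sum_congr rfl fun c _ => ?_
  unfold ind
  split_ifs <;> simp

private theorem D6a_ind_nonneg {d : ℕ} (E : Finset (ZMod d)ˣ) (c : (ZMod d)ˣ) : 0 ≤ ind E c := by
  unfold ind
  split_ifs <;> simp

private theorem D6a_ind_le_one {d : ℕ} (E : Finset (ZMod d)ˣ) (c : (ZMod d)ˣ) : ind E c ≤ 1 := by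
  unfold ind
  split_ifs <;> simp

theorem walk_facts {d : ℕ} [NeZero d] (U : Finset ℕ) (hU : 0 < Wt U) (hUc : ∀ u ∈ U, u.Coprime d) (E : Finset (ZMod d)ˣ) :
    (∀ c, 0 ≤ (Sh U)^[8] (ind E) c) ∧ (∀ c, (Sh U)^[8] (ind E) c ≤ 1) ∧ ∑ c, (Sh U)^[8] (ind E) c = (E.card : ℝ) ∧
      (∀ χ : DirichletCharacter ℂ d, ‖SF ((Sh U)^[8] (ind E)) χ‖ ≤ ‖Pa U χ‖ * (E.card : ℝ)) ∧
      ∀ (v : ℝ) (S : Finset (DirichletCharacter ℂ d)), 0 ≤ v → (∀ χ, χ ∉ S → ‖Pa U χ‖ ≤ v) →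
        ∑ χ ∈ (univ : Finset (DirichletCharacter ℂ d)) \ S, ‖SF ((Sh U)^[8] (ind E)) χ‖ ^ 2 ≤
          v ^ 16 * ((Fintype.card (ZMod d)ˣ : ℝ) * (E.card : ℝ)) := by
  classical
  obtain ⟨h1, h2, h3⟩ := iter_basic U hU (ind E) (D6a_ind_nonneg E) (D6a_ind_le_one E) 8
  refine ⟨h1, h2, h3.trans (D6a_sum_ind E), ?_, ?_⟩
  · intro χ
    rw [iter_SF U hUc (ind E) χ 8, norm_mul, norm_pow]
    have h4 : ‖Pa U χ‖ ^ 8 ≤ ‖Pa U χ‖ := by
      calc ‖Pa U χ‖ ^ 8 ≤ ‖Pa U χ‖ ^ 1 := pow_le_pow_of_le_one (norm_nonneg _) (norm_Pa_le U χ) (by norm_num)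
        _ = ‖Pa U χ‖ := pow_one _
    exact mul_le_mul h4 (D6a_norm_SF E χ) (norm_nonneg _) (norm_nonneg _)
  · intro v S hv hS
    have h5 : ∀ χ ∈ (univ : Finset (DirichletCharacter ℂ d)) \ S,
        ‖SF ((Sh U)^[8] (ind E)) χ‖ ^ 2 ≤ v ^ 16 * ‖SF (ind E) χ‖ ^ 2 := by
      intro χ hχ
      have h6 : ‖Pa U χ‖ ≤ v := hS χ (Finset.mem_sdiff.1 hχ).2
      rw [iter_SF U hUc (ind E) χ 8, norm_mul, norm_pow, mul_pow, ← pow_mul]
      exact mul_le_mul_of_nonneg_right (pow_le_pow_left₀ (norm_nonneg _) h6 _) (by positivity)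
    refine (Finset.sum_le_sum h5).trans ?_
    rw [← Finset.mul_sum]
    refine mul_le_mul_of_nonneg_left ?_ (by positivity)
    refine (Finset.sum_le_univ_sum_of_nonneg fun χ => by positivity).trans ?_
    rw [parseval_SF, D6a_sum_ind_sq]

theorem walk_pure {d : ℕ} [NeZero d] (z Y N X : ℕ) (U : Finset ℕ)
    (hU : ∀ u ∈ U, u.Prime ∧ z < u ∧ u ≤ Y ∧ u.Coprime d) (hX : Y ^ 8 * (N * N) ≤ X) (E : Finset (ZMod d)ˣ) (σ : ℝ)
    (hE : ∀ x ∈ E, PurA d z X σ x) : ∀ a ∈ RC d z N, ∀ b ∈ RC d z N,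
      (Sh U)^[8] (ind E) (ucl d (a * b)) ≠ 0 → lio a * lio b = σ := by
  classical
  intro a ha b hb hne
  have h1 : ∀ c, ind E c ≠ 0 → PurA d z X σ c := by
    intro c hc
    by_cases hcE : c ∈ E
    · exact hE c hcE
    · exact absurd (by unfold ind; rw [if_neg hcE]) hc
  have h2 := pure_iter z Y X U hU (ind E) σ h1 8 (N * N) hX (ucl d (a * b)) hne
  unfold RC at ha hb
  rw [Finset.mem_filter, Finset.mem_Icc] at ha hb
  have hco : (a * b).Coprime d := Nat.Coprime.mul_left ha.2.2 hb.2.2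
  have h3 := h2 (a * b) (ha.2.1.mul hb.2.1) (Nat.mul_le_mul ha.1.2 hb.1.2) (ucl_val hco).symm
  rw [lio_mul (by omega) (by omega)] at h3
  rw [h3]
  norm_num

end Pool.Agent.Lib.MP_42948a_nt.PS
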