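import Pool.Agent.Lib.MP_42948a_nt.PS.Defs
import Pool.Agent.Lib.MP_42948a_nt.AC.N4

/-!
# Numerical facts (job D6b)

`N = ⌊d^(1/2+256η)⌋`, `α = ε/64`, `s = ε/(8192 k)`. All exponents are explicit; every item holds for large `d` (`tendsto_rpow_atTop`, see `TQ/Z1.lean`, `TQ/G12.lean` for such proofs;
`Real.rpow_natCast`, `Real.rpow_mul`).
(1) `⌊d^(2α)⌋^8 ≤ d^(16 α) = d^(ε/4)`, `N N ≤ d^(1 + 512 η) ≤ d^(1 + ε/4)`. (2) `(d^(-s/4))^(2k) = d^(-ks/2)`, `k s/2 = ε/16384`, `α/8 = ε/512`.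
(3) `C ≤ d^(ε/4096 - ε/16384)`. (4) `(1/2)^(2k) d^(ε/512)` tends to infinity. (5) clear. (6) `2 d^(-7s/4 + s) ≤ τ`. (7) `100 η - s/2 ≥ ε/4096 * 100 - ε/16384 > 0`.
(8) `s ≤ 64 η`. (9) `c ≤ s/8 ≤ α`. (10) `RC_lower (s/4)` (`AC/N4.lean`): `z = ⌊d^c⌋ ≤ d^(s/8)`, `1 ≤ N ≤ d^2`: `#RC ≥ N d^(-s/2) ≥ N d^(-s)`.
-/

namespace Pool.Agent.Lib.MP_42948a_nt.PS

open Finset Pool.Agent.Lib.MP_42948a_nt.OA Pool.Agent.Lib.MP_42948a_nt.AC Pool.Agent.Lib.MP_42948a_nt.TQ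

private theorem D6b_ev (x C : ℝ) (hx : 0 < x) : ∀ᶠ d : ℕ in Filter.atTop, C < (d : ℝ) ^ x :=
  (tendsto_natCast_atTop_atTop (R := ℝ)).eventually ((tendsto_rpow_atTop hx).eventually_gt_atTop C)

theorem pow_numeric (ε : ℝ) (hε : 0 < ε) (hε1 : ε ≤ 1) (k : ℕ) (hk : 1 ≤ k) (C τ : ℝ) (hC : 0 < C) (hτ : 0 < τ) (η c s α : ℝ)
    (hs : s = ε / (8192 * k)) (hα : α = ε / 64) (hη : ε / 4096 ≤ η) (hη1 : η ≤ ε / 2048) (hc : 0 < c) (hcs : c ≤ s / 8) :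
    ∃ d0 : ℕ, ∀ d : ℕ, d0 ≤ d →
      ⌊(d : ℝ) ^ (2 * α)⌋₊ ^ 8 * (⌊(d : ℝ) ^ (1 / 2 + 256 * η)⌋₊ * ⌊(d : ℝ) ^ (1 / 2 + 256 * η)⌋₊) ≤ ⌊(d : ℝ) ^ (1 + ε)⌋₊ ∧
      2 * C < ((d : ℝ) ^ (-(s / 4))) ^ (2 * k) * (d : ℝ) ^ (α / 8) ∧
      C ≤ (d : ℝ) ^ η * ((d : ℝ) ^ (-(s / 4))) ^ (2 * k) ∧
      2 * C < (1 / 2) ^ (2 * k) * (d : ℝ) ^ (α / 8) ∧
      (d : ℝ) ^ (-(7 * s / 4)) ≤ τ / 8 ∧
      2 * (d : ℝ) ^ (-(7 * s / 4)) * (⌊(d : ℝ) ^ (1 / 2 + 256 * η)⌋₊ : ℝ) ≤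
        τ * ((⌊(d : ℝ) ^ (1 / 2 + 256 * η)⌋₊ : ℝ) * (d : ℝ) ^ (-s)) ∧
      2 * (d : ℝ) ^ (-(100 * η)) ≤ (d : ℝ) ^ (-(s / 2)) ∧
      (⌊(d : ℝ) ^ (1 / 2 + 256 * η)⌋₊ : ℝ) * (d : ℝ) ^ (-(64 * η)) ≤
        (⌊(d : ℝ) ^ (1 / 2 + 256 * η)⌋₊ : ℝ) * (d : ℝ) ^ (-s) ∧
      ⌊(d : ℝ) ^ c⌋₊ ≤ ⌊(d : ℝ) ^ α⌋₊ ∧
      0 < (⌊(d : ℝ) ^ (1 / 2 + 256 * η)⌋₊ : ℝ) * (d : ℝ) ^ (-s) ∧
      (⌊(d : ℝ) ^ (1 / 2 + 256 * η)⌋₊ : ℝ) * (d : ℝ) ^ (-s) ≤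
        ((RC d ⌊(d : ℝ) ^ c⌋₊ ⌊(d : ℝ) ^ (1 / 2 + 256 * η)⌋₊).card : ℝ) := by
  have hk' : (1 : ℝ) ≤ k := by exact_mod_cast hk
  have hk0 : (0 : ℝ) < k := by linarith
  have hs0 : 0 < s := by rw [hs]; positivity
  have hs1 : s ≤ ε / 8192 := by
    rw [hs]
    apply div_le_div_of_nonneg_left hε.le (by norm_num)
    linarith
  have hks : s * k = ε / 8192 := by rw [hs]; field_simp
  have hη0 : 0 < η := by linarith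
  obtain ⟨d1, hd1⟩ := RC_lower (s / 4) (by positivity) (by linarith)
  obtain ⟨d0, hd0⟩ := Filter.eventually_atTop.mp ((Filter.eventually_ge_atTop (max d1 1)).and
    ((D6b_ev (31 * ε / 16384) (2 * C) (by positivity)).and
    ((D6b_ev (3 * ε / 16384) C (by positivity)).and
    ((D6b_ev (ε / 512) (2 * C * 2 ^ (2 * k)) (by positivity)).and
    ((D6b_ev (7 * s / 4) (8 / τ) (by positivity)).and
    ((D6b_ev (3 * s / 4) (2 / τ) (by positivity)).and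
    (D6b_ev (ε / 4096) 2 (by positivity))))))))
  refine ⟨d0, fun d hd => ?_⟩
  obtain ⟨g1, g2, g3, g4, g5, g6, g7⟩ := hd0 d hd
  have hd1' : 1 ≤ d := (le_max_right _ _).trans g1
  have hx1 : (1 : ℝ) ≤ d := by exact_mod_cast hd1'
  have hx0 : (0 : ℝ) < d := by linarith
  have hN1 : 1 ≤ ⌊(d : ℝ) ^ (1 / 2 + 256 * η)⌋₊ := by
    refine Nat.le_floor ?_
    rw [Nat.cast_one]
    exact Real.one_le_rpow hx1 (by linarith)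
  have hNle : (⌊(d : ℝ) ^ (1 / 2 + 256 * η)⌋₊ : ℝ) ≤ (d : ℝ) ^ (1 / 2 + 256 * η) :=
    Nat.floor_le (by positivity)
  set N : ℕ := ⌊(d : ℝ) ^ (1 / 2 + 256 * η)⌋₊ with hN
  have hN1' : (1 : ℝ) ≤ N := by exact_mod_cast hN1
  have hN0 : (0 : ℝ) < N := by linarith
  have hpk : ((d : ℝ) ^ (-(s / 4))) ^ (2 * k) = (d : ℝ) ^ (-(ε / 16384)) := by
    rw [← Real.rpow_natCast, ← Real.rpow_mul hx0.le]
    congr 1
    push_cast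
    have : -(s / 4) * (2 * (k : ℝ)) = -(s * k) / 2 := by ring
    rw [this, hks]
    ring
  refine ⟨?_, ?_, ?_, ?_, ?_, ?_, ?_, ?_, ?_, ?_, ?_⟩
  · refine Nat.le_floor ?_
    push_cast
    have h1 : (⌊(d : ℝ) ^ (2 * α)⌋₊ : ℝ) ^ 8 ≤ (d : ℝ) ^ (ε / 4) := by
      calc (⌊(d : ℝ) ^ (2 * α)⌋₊ : ℝ) ^ 8 ≤ ((d : ℝ) ^ (2 * α)) ^ 8 :=
            pow_le_pow_left₀ (Nat.cast_nonneg _) (Nat.floor_le (by positivity)) 8
        _ = (d : ℝ) ^ (ε / 4) := by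
            rw [← Real.rpow_natCast, ← Real.rpow_mul hx0.le]
            congr 1
            rw [hα]
            push_cast
            ring
    have h2 : (N : ℝ) * N ≤ (d : ℝ) ^ (1 + ε / 4) := by
      calc (N : ℝ) * N ≤ (d : ℝ) ^ (1 / 2 + 256 * η) * (d : ℝ) ^ (1 / 2 + 256 * η) :=
            mul_le_mul hNle hNle hN0.le (by positivity)
        _ = (d : ℝ) ^ (1 / 2 + 256 * η + (1 / 2 + 256 * η)) := (Real.rpow_add hx0 _ _).symm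
        _ ≤ (d : ℝ) ^ (1 + ε / 4) := Real.rpow_le_rpow_of_exponent_le hx1 (by linarith)
    calc (⌊(d : ℝ) ^ (2 * α)⌋₊ : ℝ) ^ 8 * ((N : ℝ) * N) ≤ (d : ℝ) ^ (ε / 4) * (d : ℝ) ^ (1 + ε / 4) :=
          mul_le_mul h1 h2 (by positivity) (by positivity)
      _ = (d : ℝ) ^ (ε / 4 + (1 + ε / 4)) := (Real.rpow_add hx0 _ _).symm
      _ ≤ (d : ℝ) ^ (1 + ε) := Real.rpow_le_rpow_of_exponent_le hx1 (by linarith)
  · rw [hpk, ← Real.rpow_add hx0]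
    have : -(ε / 16384) + α / 8 = 31 * ε / 16384 := by rw [hα]; ring
    rw [this]
    exact g2
  · rw [hpk, ← Real.rpow_add hx0]
    refine g3.le.trans (Real.rpow_le_rpow_of_exponent_le hx1 ?_)
    linarith
  · have h1 : α / 8 = ε / 512 := by rw [hα]; ring
    rw [h1]
    have h2 : (0 : ℝ) < (1 / 2) ^ (2 * k) := by positivity
    have h3 : ((1 : ℝ) / 2) ^ (2 * k) * (2 * C * 2 ^ (2 * k)) = 2 * C := by
      rw [one_div, inv_pow]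
      field_simp
    calc 2 * C = ((1 : ℝ) / 2) ^ (2 * k) * (2 * C * 2 ^ (2 * k)) := h3.symm
      _ < ((1 : ℝ) / 2) ^ (2 * k) * (d : ℝ) ^ (ε / 512) := mul_lt_mul_of_pos_left g4 h2
  · rw [Real.rpow_neg hx0.le]
    have h1 : 0 < 8 / τ := by positivity
    have h2 := inv_anti₀ h1 g5.le
    refine h2.trans (le_of_eq ?_)
    rw [inv_div]
  · have h1 : (d : ℝ) ^ (-(7 * s / 4)) = (d : ℝ) ^ (-(3 * s / 4)) * (d : ℝ) ^ (-s) := by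
      rw [← Real.rpow_add hx0]
      congr 1
      ring
    have h2 : 2 * (d : ℝ) ^ (-(3 * s / 4)) ≤ τ := by
      rw [Real.rpow_neg hx0.le]
      have h3 : 0 < 2 / τ := by positivity
      have h4 := inv_anti₀ h3 g6.le
      rw [inv_div] at h4
      linarith
    rw [h1]
    have h5 : 0 ≤ (N : ℝ) * (d : ℝ) ^ (-s) := by positivity
    have h6 := mul_le_mul_of_nonneg_right h2 h5
    calc 2 * ((d : ℝ) ^ (-(3 * s / 4)) * (d : ℝ) ^ (-s)) * (N : ℝ)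
        = 2 * (d : ℝ) ^ (-(3 * s / 4)) * ((N : ℝ) * (d : ℝ) ^ (-s)) := by ring
      _ ≤ τ * ((N : ℝ) * (d : ℝ) ^ (-s)) := h6
  · have h1 : (d : ℝ) ^ (-(s / 2)) = (d : ℝ) ^ (-(100 * η)) * (d : ℝ) ^ (100 * η - s / 2) := by
      rw [← Real.rpow_add hx0]
      congr 1
      ring
    rw [h1, mul_comm]
    refine mul_le_mul_of_nonneg_left ?_ (by positivity)
    refine g7.le.trans (Real.rpow_le_rpow_of_exponent_le hx1 ?_)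
    linarith
  · refine mul_le_mul_of_nonneg_left ?_ hN0.le
    exact Real.rpow_le_rpow_of_exponent_le hx1 (by linarith)
  · refine Nat.floor_le_floor ?_
    exact Real.rpow_le_rpow_of_exponent_le hx1 (by linarith)
  · positivity
  · have hN2 : (N : ℝ) ≤ (d : ℝ) ^ (2 : ℝ) :=
      hNle.trans (Real.rpow_le_rpow_of_exponent_le hx1 (by linarith))
    have hz : ((⌊(d : ℝ) ^ c⌋₊ : ℕ) : ℝ) ≤ (d : ℝ) ^ (s / 4 / 2) :=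
      (Nat.floor_le (by positivity)).trans (Real.rpow_le_rpow_of_exponent_le hx1 (by linarith))
    have h1 := hd1 d ((le_max_left _ _).trans g1) _ hz N hN1 hN2
    refine le_trans ?_ h1
    refine mul_le_mul_of_nonneg_left ?_ hN0.le
    exact Real.rpow_le_rpow_of_exponent_le hx1 (by linarith)

end Pool.Agent.Lib.MP_42948a_nt.PS
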