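import Pool.Agent.Lib.MP_42948a_nt.PS.A4
import Pool.Agent.Lib.MP_42948a_nt.PS.A5
import Pool.Agent.Lib.MP_42948a_nt.PS.B6c
import Pool.Agent.Lib.MP_42948a_nt.PS.D5
import Pool.Agent.Lib.MP_42948a_nt.PS.D6a
import Pool.Agent.Lib.MP_42948a_nt.PS.D6b
import Pool.Agent.Lib.MP_42948a_nt.TQ.G3

/-!
# The structure theorem for large moduli (job D6)

Let `α = ε/64`, `k = ⌈(1/2 + α)/α⌉ ≥ 1`, `C` from `few_large α k`, `M0 = ⌈4^k C⌉ + 1`, `r0 = 1/(100 * 10^(M0+1))`, `τ = r0^4/(100 (M0+1)) ≤ 1/10`, `s = ε/(8192 k)`.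
Let `z = ⌊d^c⌋`, `N = ⌊d^(1/2+256η)⌋`, `R = RC d z N`, `U = primesOff d ⌊d^α⌋ ⌊d^(2α)⌋`, `f = (Sh U)^[8] (ind E)`, `e = ∑ f = #E` (`walk_facts`, `Wt_lower`),
`S = {χ : d^(-s/4) ≤ ‖Pa U χ‖}`, `ζ = d^(-7s/4)`, `α0 = N d^(-s)`, `μ = N/d * VV d z`. The hypotheses of `struct_fixed` for large `d` (numbers in brackets: `pow_numeric`):
* `he`: `#E ≥ φ d^(-s/2) > 0`. `hf0`, `hf1`: `walk_facts`.
* `hfR`: members of `U` are primes `> ⌊d^α⌋ ≥ z` (9), `≤ ⌊d^(2α)⌋ =: Y`, coprime to `d` (prime, `¬ u ∣ d`); `walk_pure` with (1) and `⌊d^(1+ε)⌋ ≤ X`.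
* `hfew`: `nf f χ ≤ ‖Pa U χ‖` (`walk_facts`), so `few_large` with `v = 1/2` (4): `#Ξ ≤ 4^k C ≤ M0`.
* `hζS`: `walk_facts` with `v = d^(-s/4)`: `v^16 φ #E = d^(-4s) φ #E ≤ d^(-4s) d^(s/2) (#E)^2 = (ζ e)^2`.
* `hζτ` (5), `hζα` (6) (`#R ≤ N`: `RC d z N ⊆ Icc 1 N`), `hα0` (10), `hαR` (11).
* `#S ≤ d^η`: `few_large` with `v = d^(-s/4)` (2): `#S v^(2k) ≤ C ≤ d^η v^(2k)` (3). Then `bessel2_good` gives `hBes`.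
* `hP`: `pair_sv` (`N d^(-64η) ≤ α0 ≤ #B` (8); members of `RC` are in `[1, N]`, coprime to `d`), `mA d z N B = #B * μ`, and `φ d^(-100η) ≤ φ d^(-s/2)/2 ≤ #E/2` (7).
* `hμ`: from `0 < mA d z N B` for `B = R`.
* `hθ`: `coset_equi` (`TQ/G3.lean`) with `δ = 1/M0` (`δ/2 φ ≤ Nat.card H`).
Then `R.filter .. = Exc d z N Λ` (definition).
-/

namespace Pool.Agent.Lib.MP_42948a_nt.PS

open Finset Pool.Agent.Lib.MP_42948a_nt.OA Pool.Agent.Lib.MP_42948a_nt.AC Pool.Agent.Lib.MP_42948a_nt.TQ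

private theorem D6_RC {d z N a : ℕ} : a ∈ RC d z N ↔ (1 ≤ a ∧ a ≤ N) ∧ Rough z a ∧ a.Coprime d := by
  classical
  unfold RC
  rw [mem_filter, mem_Icc]

private theorem D6_card (d z N : ℕ) : ((RC d z N).card : ℝ) ≤ N := by
  have h1 : (RC d z N).card ≤ (Icc 1 N).card := by
    classical
    unfold RC
    exact card_filter_le _ _
  rw [Nat.card_Icc, Nat.add_sub_cancel] at h1
  exact_mod_cast h1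

private theorem D6_nf {d : ℕ} [NeZero d] {f : (ZMod d)ˣ → ℝ} {χ : DirichletCharacter ℂ d} {p e : ℝ}
    (he : 0 < e) (hs : ∑ c, f c = e) (h : ‖SF f χ‖ ≤ p * e) : nf f χ ≤ p := by
  unfold nf
  rw [hs, div_le_iff₀ he]
  exact h

private theorem D6_zeta {d : ℝ} (hd : 0 < d) {s φ e : ℝ} (he : 0 ≤ e) (h : φ * d ^ (-(s / 2)) ≤ e) :
    (d ^ (-(s / 4))) ^ 16 * (φ * e) ≤ (d ^ (-(7 * s / 4)) * e) ^ 2 := by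
  have h1 : (d ^ (-(s / 4))) ^ 16 = d ^ (-(7 * s / 2)) * d ^ (-(s / 2)) := by
    rw [← Real.rpow_natCast, ← Real.rpow_mul hd.le, ← Real.rpow_add hd]
    congr 1
    push_cast
    ring
  have h2 : (d ^ (-(7 * s / 4))) ^ 2 = d ^ (-(7 * s / 2)) := by
    rw [← Real.rpow_natCast, ← Real.rpow_mul hd.le]
    congr 1
    push_cast
    ring
  rw [mul_pow, h2, h1]
  have h3 : 0 ≤ d ^ (-(7 * s / 2)) := Real.rpow_nonneg hd.le _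
  calc d ^ (-(7 * s / 2)) * d ^ (-(s / 2)) * (φ * e)
      = d ^ (-(7 * s / 2)) * e * (φ * d ^ (-(s / 2))) := by ring
    _ ≤ d ^ (-(7 * s / 2)) * e * e := mul_le_mul_of_nonneg_left h (mul_nonneg h3 he)
    _ = d ^ (-(7 * s / 2)) * e ^ 2 := by ring

open Classical in
private theorem D6_main (M0 k : ℕ) (hM1 : 1 ≤ M0) (C : ℝ) (hM0 : 4 ^ k * C ≤ M0) (r0 τ : ℝ)
    (hr0 : 0 < r0) (hr1 : r0 * 10 ^ (M0 + 1) ≤ 1 / 100) (hτ : 0 < τ) (hτ1 : τ ≤ r0 ^ 4 / (100 * (M0 + 1)))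
    (s α η c : ℝ) {d : ℕ} [NeZero d] (hdp : (0 : ℝ) < d)
    (few : ∀ v : ℝ, 0 < v → 2 * C < v ^ (2 * k) * (d : ℝ) ^ (α / 8) →
      ∀ Ξ : Finset (DirichletCharacter ℂ d),
      (∀ χ ∈ Ξ, v ≤ ‖Pa (primesOff d ⌊(d : ℝ) ^ α⌋₊ ⌊(d : ℝ) ^ (2 * α)⌋₊) χ‖) →
      (Ξ.card : ℝ) * v ^ (2 * k) ≤ C) {X ε' : _}
    (n1 : ⌊(d : ℝ) ^ (2 * α)⌋₊ ^ 8 * (⌊(d : ℝ) ^ (1 / 2 + 256 * η)⌋₊ * ⌊(d : ℝ) ^ (1 / 2 + 256 * η)⌋₊) ≤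
      (ε' : ℕ))
    (n2 : 2 * C < ((d : ℝ) ^ (-(s / 4))) ^ (2 * k) * (d : ℝ) ^ (α / 8))
    (n3 : C ≤ (d : ℝ) ^ η * ((d : ℝ) ^ (-(s / 4))) ^ (2 * k))
    (n4 : 2 * C < (1 / 2) ^ (2 * k) * (d : ℝ) ^ (α / 8))
    (n5 : (d : ℝ) ^ (-(7 * s / 4)) ≤ τ / 8)
    (n6 : 2 * (d : ℝ) ^ (-(7 * s / 4)) * (⌊(d : ℝ) ^ (1 / 2 + 256 * η)⌋₊ : ℝ) ≤
        τ * ((⌊(d : ℝ) ^ (1 / 2 + 256 * η)⌋₊ : ℝ) * (d : ℝ) ^ (-s)))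
    (n7 : 2 * (d : ℝ) ^ (-(100 * η)) ≤ (d : ℝ) ^ (-(s / 2)))
    (n8 : (⌊(d : ℝ) ^ (1 / 2 + 256 * η)⌋₊ : ℝ) * (d : ℝ) ^ (-(64 * η)) ≤
        (⌊(d : ℝ) ^ (1 / 2 + 256 * η)⌋₊ : ℝ) * (d : ℝ) ^ (-s))
    (n9 : ⌊(d : ℝ) ^ c⌋₊ ≤ ⌊(d : ℝ) ^ α⌋₊)
    (n10 : 0 < (⌊(d : ℝ) ^ (1 / 2 + 256 * η)⌋₊ : ℝ) * (d : ℝ) ^ (-s))
    (n11 : (⌊(d : ℝ) ^ (1 / 2 + 256 * η)⌋₊ : ℝ) * (d : ℝ) ^ (-s) ≤
        ((RC d ⌊(d : ℝ) ^ c⌋₊ ⌊(d : ℝ) ^ (1 / 2 + 256 * η)⌋₊).card : ℝ))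
    (hWt : 1 / 20 ≤ Wt (primesOff d ⌊(d : ℝ) ^ α⌋₊ ⌊(d : ℝ) ^ (2 * α)⌋₊))
    (hbes : ∀ Ξ : Finset (DirichletCharacter ℂ d), (Ξ.card : ℝ) ≤ (d : ℝ) ^ η →
      ∀ A : Finset ℕ, A ⊆ RC d ⌊(d : ℝ) ^ c⌋₊ ⌊(d : ℝ) ^ (1 / 2 + 256 * η)⌋₊ → ∀ f : ℕ → ℝ, (∀ n, |f n| ≤ 1) →
      ∑ χ ∈ Ξ, ‖AR A f χ‖ ^ 2 ≤
        (1 + 3 * τ) * ((A.card : ℝ) * ((RC d ⌊(d : ℝ) ^ c⌋₊ ⌊(d : ℝ) ^ (1 / 2 + 256 * η)⌋₊).card : ℝ)))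
    (hpair : ∀ A : Finset ℕ,
      (∀ a ∈ A, 1 ≤ a ∧ a ≤ ⌊(d : ℝ) ^ (1 / 2 + 256 * η)⌋₊ ∧ a.Coprime d) →
      (⌊(d : ℝ) ^ (1 / 2 + 256 * η)⌋₊ : ℝ) * (d : ℝ) ^ (-(64 * η)) ≤ (A.card : ℝ) →
      0 < mA d ⌊(d : ℝ) ^ c⌋₊ ⌊(d : ℝ) ^ (1 / 2 + 256 * η)⌋₊ A ∧ ∃ Er : (ZMod d)ˣ → ℝ, (∀ x, 0 ≤ Er x) ∧
        (∀ x, |(rp d A (RC d ⌊(d : ℝ) ^ c⌋₊ ⌊(d : ℝ) ^ (1 / 2 + 256 * η)⌋₊) x : ℝ) -
          mA d ⌊(d : ℝ) ^ c⌋₊ ⌊(d : ℝ) ^ (1 / 2 + 256 * η)⌋₊ A| ≤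
            τ * mA d ⌊(d : ℝ) ^ c⌋₊ ⌊(d : ℝ) ^ (1 / 2 + 256 * η)⌋₊ A + Er x) ∧
        ∑ x, Er x ^ 2 ≤ (τ * mA d ⌊(d : ℝ) ^ c⌋₊ ⌊(d : ℝ) ^ (1 / 2 + 256 * η)⌋₊ A) ^ 2 *
          ((Fintype.card (ZMod d)ˣ : ℝ) * (d : ℝ) ^ (-(100 * η))))
    (hcos : ∀ H : Subgroup (ZMod d)ˣ,
      1 / (M0 : ℝ) / 2 * (Fintype.card (ZMod d)ˣ : ℝ) ≤ (Nat.card H : ℝ) → ∀ g : (ZMod d)ˣ,
      (1 - 3 * τ) * ((Nat.card H : ℝ) / (Fintype.card (ZMod d)ˣ : ℝ)) *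
          ((RC d ⌊(d : ℝ) ^ c⌋₊ ⌊(d : ℝ) ^ (1 / 2 + 256 * η)⌋₊).card : ℝ) ≤
        (((RC d ⌊(d : ℝ) ^ c⌋₊ ⌊(d : ℝ) ^ (1 / 2 + 256 * η)⌋₊).filter (fun a : ℕ => g⁻¹ * ucl d a ∈ H)).card : ℝ) ∧
      (((RC d ⌊(d : ℝ) ^ c⌋₊ ⌊(d : ℝ) ^ (1 / 2 + 256 * η)⌋₊).filter (fun a : ℕ => g⁻¹ * ucl d a ∈ H)).card : ℝ) ≤
        (1 + 3 * τ) * ((Nat.card H : ℝ) / (Fintype.card (ZMod d)ˣ : ℝ)) *
          ((RC d ⌊(d : ℝ) ^ c⌋₊ ⌊(d : ℝ) ^ (1 / 2 + 256 * η)⌋₊).card : ℝ) ∧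
      (⌊(d : ℝ) ^ (1 / 2 + 256 * η)⌋₊ : ℝ) * (d : ℝ) ^ (-(64 * η)) ≤
        (((RC d ⌊(d : ℝ) ^ c⌋₊ ⌊(d : ℝ) ^ (1 / 2 + 256 * η)⌋₊).filter (fun a : ℕ => g⁻¹ * ucl d a ∈ H)).card : ℝ))
    (hX : ε' ≤ X) {σ : ℝ} (hσ : σ = 1 ∨ σ = -1) {E : Finset (ZMod d)ˣ}
    (hE : ∀ x ∈ E, PurA d ⌊(d : ℝ) ^ c⌋₊ X σ x)
    (hEc : (Fintype.card (ZMod d)ˣ : ℝ) * (d : ℝ) ^ (-(s / 2)) ≤ (E.card : ℝ)) :
    ∃ (H : Subgroup (ZMod d)ˣ) (Λ : (ZMod d)ˣ → ℝ), (Fintype.card (ZMod d)ˣ : ℝ) ≤ M0 * (Nat.card H : ℝ) ∧ Mod H Λ ∧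
      ((Exc d ⌊(d : ℝ) ^ c⌋₊ ⌊(d : ℝ) ^ (1 / 2 + 256 * η)⌋₊ Λ).card : ℝ) <
        (⌊(d : ℝ) ^ (1 / 2 + 256 * η)⌋₊ : ℝ) * (d : ℝ) ^ (-s) := by
  classical
  set z : ℕ := ⌊(d : ℝ) ^ c⌋₊ with hz
  set N : ℕ := ⌊(d : ℝ) ^ (1 / 2 + 256 * η)⌋₊ with hN
  set R : Finset ℕ := RC d z N with hRdef
  set U : Finset ℕ := primesOff d ⌊(d : ℝ) ^ α⌋₊ ⌊(d : ℝ) ^ (2 * α)⌋₊ with hUdef
  have hU : ∀ u ∈ U, u.Prime ∧ z < u ∧ u ≤ ⌊(d : ℝ) ^ (2 * α)⌋₊ ∧ u.Coprime d := by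
    intro u hu
    rw [hUdef] at hu
    unfold primesOff at hu
    rw [mem_filter, mem_Icc] at hu
    exact ⟨hu.2.1, lt_of_le_of_lt n9 hu.2.2.1, hu.1.2, (Nat.Prime.coprime_iff_not_dvd hu.2.1).2 hu.2.2.2⟩
  have hWp : 0 < Wt U := by linarith
  obtain ⟨w0, w1, w2, w3, w4⟩ := walk_facts U hWp (fun u hu => (hU u hu).2.2.2) E
  set f : (ZMod d)ˣ → ℝ := (Sh U)^[8] (ind E) with hf
  have hφ : (0 : ℝ) < (Fintype.card (ZMod d)ˣ : ℝ) := by exact_mod_cast Fintype.card_pos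
  have hv : 0 < (d : ℝ) ^ (-(s / 4)) := Real.rpow_pos_of_pos hdp _
  have hE0 : (0 : ℝ) < (E.card : ℝ) :=
    lt_of_lt_of_le (mul_pos hφ (Real.rpow_pos_of_pos hdp _)) hEc
  set S : Finset (DirichletCharacter ℂ d) :=
    (univ : Finset (DirichletCharacter ℂ d)).filter (fun χ => (d : ℝ) ^ (-(s / 4)) ≤ ‖Pa U χ‖) with hS
  have hScard : (S.card : ℝ) ≤ (d : ℝ) ^ η := by
    have h1 := few _ hv n2 S (fun χ hχ => (mem_filter.1 hχ).2)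
    have h2 := h1.trans n3
    exact le_of_mul_le_mul_right h2 (pow_pos hv _)
  have hmu : ∀ B : Finset ℕ, mA d z N B = (B.card : ℝ) * ((N : ℝ) / d * VV d z) := by
    intro B
    unfold mA
    ring
  have hRmem : ∀ a ∈ R, 1 ≤ a ∧ a ≤ N ∧ a.Coprime d := by
    intro a ha
    rw [hRdef, D6_RC] at ha
    exact ⟨ha.1.1, ha.1.2, ha.2.2⟩
  have hμ : 0 < (N : ℝ) / d * VV d z := by
    have h1 := (hpair R hRmem (n8.trans n11)).1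
    rw [hmu] at h1
    exact (pos_iff_pos_of_mul_pos h1).1 (lt_of_lt_of_le n10 n11)
  refine struct_fixed R (fun a ha => ⟨(hRmem a ha).1, (hRmem a ha).2.2⟩) f w0 w1 (by rw [w2]; exact hE0)
    σ hσ ?_ M0 r0 τ hr0 hr1 hτ hτ1 ?_ S ((d : ℝ) ^ (-(7 * s / 4))) (Real.rpow_nonneg hdp.le _) n5 ?_
    ((N : ℝ) / d * VV d z) ((N : ℝ) * (d : ℝ) ^ (-s)) hμ n10 n11 ?_ ?_ ?_ ?_
  · intro a ha b hb hab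
    exact walk_pure z ⌊(d : ℝ) ^ (2 * α)⌋₊ N X U hU (n1.trans hX) E σ hE a ha b hb hab
  · intro Ξ hΞ
    have h1 : ∀ χ ∈ Ξ, (1 / 2 : ℝ) ≤ ‖Pa U χ‖ := fun χ hχ =>
      (hΞ χ hχ).trans (D6_nf hE0 w2 (w3 χ))
    have h2 := few (1 / 2) (by norm_num) n4 Ξ h1
    have h3 : (4 : ℝ) ^ k * (1 / 2) ^ (2 * k) = 1 := by
      rw [pow_mul, ← mul_pow]
      norm_num
    have h4 : (Ξ.card : ℝ) ≤ M0 := by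
      calc (Ξ.card : ℝ) = 4 ^ k * ((Ξ.card : ℝ) * (1 / 2) ^ (2 * k)) := by
            rw [mul_left_comm, h3, mul_one]
        _ ≤ 4 ^ k * C := mul_le_mul_of_nonneg_left h2 (by positivity)
        _ ≤ M0 := hM0
    exact_mod_cast h4
  · rw [w2]
    refine (w4 _ S hv.le ?_).trans (D6_zeta hdp hE0.le hEc)
    intro χ hχ
    by_contra hcon
    push Not at hcon
    exact hχ (mem_filter.2 ⟨mem_univ _, hcon.le⟩)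
  · refine le_trans ?_ n6
    exact mul_le_mul_of_nonneg_left (D6_card d z N) (by positivity)
  · intro B hB hBc
    obtain ⟨-, Er, e1, e2, e3⟩ := hpair B (fun a ha => hRmem a (hB ha)) (n8.trans hBc)
    rw [hmu] at e2 e3
    refine ⟨Er, e1, e2, e3.trans (mul_le_mul_of_nonneg_left ?_ (sq_nonneg _))⟩
    rw [w2]
    have h1 := mul_le_mul_of_nonneg_left n7 hφ.le
    linarith
  · intro B hB g hg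
    exact hbes S hScard B hB g hg
  · intro H hH g
    have h1 : 1 / (M0 : ℝ) / 2 * (Fintype.card (ZMod d)ˣ : ℝ) ≤ (Nat.card H : ℝ) := by
      have hM : (0 : ℝ) < M0 := by exact_mod_cast hM1
      have h2 : 1 / (M0 : ℝ) * (Fintype.card (ZMod d)ˣ : ℝ) ≤ (Nat.card H : ℝ) := by
        rw [one_div, inv_mul_le_iff₀ hM]
        exact hH
      have h3 : 0 ≤ 1 / (M0 : ℝ) * (Fintype.card (ZMod d)ˣ : ℝ) := by positivity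
      linarith
    exact (hcos H h1 g).2.1

theorem pow_structure (ε : ℝ) (hε : 0 < ε) (hε1 : ε ≤ 1) : ∃ (M0 : ℕ) (s τ : ℝ), 1 ≤ M0 ∧ 0 < s ∧ s ≤ ε / 8192 ∧ 0 < τ ∧
    τ ≤ 1 / 10 ∧ ∀ η : ℝ, ε / 4096 ≤ η → η ≤ ε / 2048 → ∀ (K : ℕ) (c : ℝ),
      (∀ z : ℕ, 2 ≤ z → ∃ u l : Finset ℕ → ℝ, Fund τ K z u l) → c * (16 * (3 * K + 4)) = η → c ≤ s / 8 →
      ∃ d0 : ℕ, ∀ d : ℕ, d0 ≤ d → ∀ [NeZero d], ∀ X : ℕ, ⌊(d : ℝ) ^ (1 + ε)⌋₊ ≤ X → ∀ σ : ℝ, (σ = 1 ∨ σ = -1) →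
      ∀ E : Finset (ZMod d)ˣ, (∀ x ∈ E, PurA d ⌊(d : ℝ) ^ c⌋₊ X σ x) →
        (Fintype.card (ZMod d)ˣ : ℝ) * (d : ℝ) ^ (-(s / 2)) ≤ (E.card : ℝ) →
        ∃ (H : Subgroup (ZMod d)ˣ) (Λ : (ZMod d)ˣ → ℝ), (Fintype.card (ZMod d)ˣ : ℝ) ≤ M0 * (Nat.card H : ℝ) ∧ Mod H Λ ∧
          ((Exc d ⌊(d : ℝ) ^ c⌋₊ ⌊(d : ℝ) ^ (1 / 2 + 256 * η)⌋₊ Λ).card : ℝ) <
            (⌊(d : ℝ) ^ (1 / 2 + 256 * η)⌋₊ : ℝ) * (d : ℝ) ^ (-s) := by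
  classical
  set α : ℝ := ε / 64 with hα
  have hα0 : 0 < α := by positivity
  have hα1 : α ≤ 1 := by rw [hα]; linarith
  obtain ⟨k, hk⟩ := exists_nat_ge ((1 / 2 + α) / α)
  have hk2 : 1 / 2 + α ≤ k * α := (div_le_iff₀ hα0).1 hk
  have hk1 : 1 ≤ k := by
    have h1 : (1 : ℝ) ≤ (1 / 2 + α) / α := by
      rw [le_div_iff₀ hα0]
      linarith
    exact_mod_cast h1.trans hk
  obtain ⟨C, hC, d1, hd1⟩ := few_large α hα0 hα1 k hk2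
  obtain ⟨M0, hM0⟩ := exists_nat_ge (4 ^ k * C)
  have hM1 : 1 ≤ M0 := by
    by_contra h
    have h0 : M0 = 0 := by omega
    rw [h0, Nat.cast_zero] at hM0
    have : 0 < 4 ^ k * C := by positivity
    linarith
  set r0 : ℝ := 1 / (100 * 10 ^ (M0 + 1)) with hr0
  have hr0p : 0 < r0 := by positivity
  have hr01 : r0 ≤ 1 := by
    rw [hr0, div_le_one (by positivity)]
    have : (1 : ℝ) ≤ 10 ^ (M0 + 1) := one_le_pow₀ (by norm_num)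
    linarith
  set τ : ℝ := r0 ^ 4 / (100 * (M0 + 1)) with hτdef
  have hτ : 0 < τ := by positivity
  have hτ1 : τ ≤ 1 / 10 := by
    rw [hτdef, div_le_iff₀ (by positivity)]
    have h1 : r0 ^ 4 ≤ 1 := pow_le_one₀ hr0p.le hr01
    have h2 : (0 : ℝ) ≤ M0 := Nat.cast_nonneg _
    linarith
  have hk0 : (1 : ℝ) ≤ k := by exact_mod_cast hk1
  have hk0' : (0 : ℝ) < k := by linarith
  set s : ℝ := ε / (8192 * k) with hs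
  have hs0 : 0 < s := by positivity
  have hs1 : s ≤ ε / 8192 := by
    rw [hs]
    exact div_le_div_of_nonneg_left hε.le (by norm_num) (by linarith)
  refine ⟨M0, s, τ, hM1, hs0, hs1, hτ, hτ1, ?_⟩
  intro η hη1 hη2 K c hF hc hcs
  have hη : 0 < η := lt_of_lt_of_le (by positivity) hη1
  have hη3 : η ≤ 1 / 1024 := by linarith
  have hc0 : 0 < c := by
    by_contra h
    push Not at h
    have : c * (16 * (3 * K + 4)) ≤ 0 := mul_nonpos_of_nonpos_of_nonneg h (by positivity)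
    linarith
  have hM0p : (0 : ℝ) < M0 := by exact_mod_cast hM1
  have hM0i : (1 : ℝ) / M0 ≤ 1 := by
    rw [div_le_one hM0p]
    exact_mod_cast hM1
  obtain ⟨d2, hd2⟩ := pow_numeric ε hε hε1 k hk1 C τ hC hτ η c s α hs hα hη1 hη2 hc0 hcs
  obtain ⟨d3, hd3⟩ := Wt_lower α hα0
  obtain ⟨d4, hd4⟩ := bessel2_good τ hτ hτ1 K hF η c hη hη3 hc
  obtain ⟨d5, hd5⟩ := pair_sv τ hτ K hF η c hη hη3 hc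
  obtain ⟨d6, hd6⟩ := coset_equi τ (1 / M0) hτ hτ1 (by positivity) hM0i K hF η c hη hη3 hc
  refine ⟨d1 + d2 + d3 + d4 + d5 + d6 + 1, ?_⟩
  intro d hd _ X hX σ hσ E hE hEc
  have hdp : (0 : ℝ) < d := by
    have : 0 < d := by omega
    exact_mod_cast this
  have few := hd1 d (by omega)
  obtain ⟨n1, n2, n3, n4, n5, n6, n7, n8, n9, n10, n11⟩ := hd2 d (by omega)
  have hWt := hd3 d (by omega)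
  have hbes := hd4 d (by omega)
  have hpair := hd5 d (by omega)
  have hcos := hd6 d (by omega)
  exact D6_main M0 k hM1 C hM0 r0 τ hr0p (by rw [hr0]; field_simp; norm_num) hτ hτdef.le s α η c hdp few n1 n2 n3 n4 n5
    n6 n7 n8 n9 n10 n11 hWt hbes hpair hcos hX hσ hE hEc

end Pool.Agent.Lib.MP_42948a_nt.PS
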