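import Pool.Agent.Lib.MP_42948a_nt.TQ.Defs

/-!
# Power saving exceptional set at the exponent `1 + ε`: definitions

`OA`, `AC`, `TQ` are the libraries of `OddAlmostPrimes`, `AlmostAllClasses`, `ParityAlmostAll`. `G = (ZMod d)ˣ`, `φ = Fintype.card G`,
`SF f χ = ∑_c f c * conj (ev χ c)`.
-/

namespace Pool.Agent.Lib.MP_42948a_nt.PS

open Finset Pool.Agent.Lib.MP_42948a_nt.OA Pool.Agent.Lib.MP_42948a_nt.AC Pool.Agent.Lib.MP_42948a_nt.TQ

/-- the total weight of `U` -/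
noncomputable def Wt (U : Finset ℕ) : ℝ := ∑ u ∈ U, 1 / (u : ℝ)

/-- the average of `χ` over `u ∈ U` with the weights `1 / u` -/
noncomputable def Pa {d : ℕ} (U : Finset ℕ) (χ : DirichletCharacter ℂ d) : ℂ :=
  (∑ u ∈ U, ((1 / (u : ℝ) : ℝ) : ℂ) * χ (u : ZMod d)) / ((Wt U : ℝ) : ℂ)

/-- one step of the random walk with steps `u ∈ U` -/
noncomputable def Sh {d : ℕ} (U : Finset ℕ) (f : (ZMod d)ˣ → ℝ) (g : (ZMod d)ˣ) : ℝ :=
  (∑ u ∈ U, 1 / (u : ℝ) * f (g * ucl d u)) / Wt U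

open Classical in
/-- the indicator function of `E` -/
noncomputable def ind {G : Type*} (E : Finset G) (c : G) : ℝ := if c ∈ E then 1 else 0

/-- all rough `n ≤ X` of the class `c` have `λ(n) = σ` -/
def PurA (d z X : ℕ) (σ : ℝ) (c : (ZMod d)ˣ) : Prop :=
  ∀ n : ℕ, Rough z n → n ≤ X → (n : ZMod d) = (c : ZMod d) → lio n = σ

/-- `|f̂(χ)| / f̂(1)` for `f ≥ 0` -/
noncomputable def nf {d : ℕ} [NeZero d] (f : (ZMod d)ˣ → ℝ) (χ : DirichletCharacter ℂ d) : ℝ :=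
  ‖SF f χ‖ / ∑ c : (ZMod d)ˣ, f c

/-- the distance of `χ` to the constants in `L^2(f)` (normalised) -/
noncomputable def Nn {d : ℕ} [NeZero d] (f : (ZMod d)ˣ → ℝ) (χ : DirichletCharacter ℂ d) : ℝ :=
  √(2 - 2 * nf f χ)

/-- the elements of `G` at which all characters of `𝓗` are `1` -/
def perp {d : ℕ} (𝓗 : Subgroup (DirichletCharacter ℂ d)) : Subgroup (ZMod d)ˣ where
  carrier := {g | ∀ χ ∈ 𝓗, χ (g : ZMod d) = 1}
  one_mem' := fun χ _ => by rw [Units.val_one, map_one]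
  mul_mem' := fun {a b} ha hb χ hχ => by rw [Units.val_mul, map_mul, ha χ hχ, hb χ hχ, mul_one]
  inv_mem' := fun {a} ha χ hχ => by
    have h1 : χ ((a * a⁻¹ : (ZMod d)ˣ) : ZMod d) = 1 := by rw [mul_inv_cancel, Units.val_one, map_one]
    rwa [Units.val_mul, map_mul, ha χ hχ, one_mul] at h1

/-- the main term for `a b` in a class, `a ∈ A`, `b` rough `≤ N` -/
noncomputable def mA (d z N : ℕ) (A : Finset ℕ) : ℝ := (A.card : ℝ) * N / d * VV d z

/-- the functions `Λ` constant on the cosets of `H` with values `±1` -/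
def Mod {G : Type*} [Group G] (H : Subgroup G) (Λ : G → ℝ) : Prop :=
  (∀ g, Λ g = 1 ∨ Λ g = -1) ∧ ∀ g, ∀ h ∈ H, Λ (g * h) = Λ g

open Classical in
/-- the rough `a ≤ N` at which `λ` is not `Λ` -/
noncomputable def Exc (d z N : ℕ) (Λ : (ZMod d)ˣ → ℝ) : Finset ℕ := (RC d z N).filter (fun a => Λ (ucl d a) ≠ lio a)

end Pool.Agent.Lib.MP_42948a_nt.PS
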