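import Pool.Agent.Lib.MP_42948a_nt.PS.E1a
import Pool.Agent.Lib.MP_42948a_nt.AC.N4
import Pool.Agent.Lib.MP_42948a_nt.AC.N6

/-!
# From the long to the short length (job E1)

`z = ⌊d^c⌋`, `N = ⌊d^(1/2+256η)⌋`, `N2 = ⌊d^(1/2+256η2)⌋`, `M = N / N2` (natural division), so `N2 * M ≤ N`, `1 ≤ M` (`N2 ≤ N`), `M ≤ d^2`, `N ≤ 2 N2 M` (`N < N2 (M+1)`, `M ≥ 1`).
`R' = RC d z M`, `#R' ≥ M d^(-s/4)` (`RC_lower (s/8)`, `AC/N4.lean`; `z ≤ d^c ≤ d^(s/16)`). `fibre` gives `g0, s0, B` with `2 M0 #B ≥ #R'`; `transfer_fixed` with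
`T = 2^⌈2/c⌉` (`rough_divisors`, `AC/N6.lean`; `n ≤ N ≤ d^2`) gives `Λ2`: `#Exc2 * #B ≤ T #Exc < T N d^(-s) ≤ 2 T N2 M d^(-s)` and `#B ≥ M d^(-s/4)/(2 M0) > 0`, so
`#Exc2 < 4 T M0 N2 d^(-3s/4) ≤ N2 d^(-s/2) ≤ N2 d^(-64 η2)` for large `d` (`128 η2 ≤ s`).
-/

namespace Pool.Agent.Lib.MP_42948a_nt.PS

open Finset Pool.Agent.Lib.MP_42948a_nt.OA Pool.Agent.Lib.MP_42948a_nt.AC Pool.Agent.Lib.MP_42948a_nt.TQ

private theorem E1_ev (x C : ℝ) (hx : 0 < x) : ∀ᶠ d : ℕ in Filter.atTop, C < (d : ℝ) ^ x :=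
  (tendsto_natCast_atTop_atTop (R := ℝ)).eventually ((tendsto_rpow_atTop hx).eventually_gt_atTop C)

private theorem E1_mono {d z N N2 : ℕ} (h : N2 ≤ N) (Λ : (ZMod d)ˣ → ℝ) : Exc d z N2 Λ ⊆ Exc d z N Λ := by
  classical
  intro a ha
  unfold Exc RC at *
  rw [mem_filter, mem_filter, mem_Icc] at *
  exact ⟨⟨⟨ha.1.1.1, ha.1.1.2.trans h⟩, ha.1.2⟩, ha.2⟩

theorem transfer (M0 : ℕ) (hM0 : 1 ≤ M0) (s η η2 c : ℝ) (hs : 0 < s) (hη : η ≤ 1 / 1024) (hη2 : 0 < η2) (hηη : η2 ≤ η)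
    (hηs : 128 * η2 ≤ s) (hc : 0 < c) (hcs : c ≤ s / 16) :
    ∃ d0 : ℕ, ∀ d : ℕ, d0 ≤ d → ∀ [NeZero d], ∀ (H : Subgroup (ZMod d)ˣ) (Λ : (ZMod d)ˣ → ℝ),
      (Fintype.card (ZMod d)ˣ : ℝ) ≤ M0 * (Nat.card H : ℝ) → Mod H Λ →
      ((Exc d ⌊(d : ℝ) ^ c⌋₊ ⌊(d : ℝ) ^ (1 / 2 + 256 * η)⌋₊ Λ).card : ℝ) <
        (⌊(d : ℝ) ^ (1 / 2 + 256 * η)⌋₊ : ℝ) * (d : ℝ) ^ (-s) →
      ∃ Λ2 : (ZMod d)ˣ → ℝ, Mod H Λ2 ∧
        ((Exc d ⌊(d : ℝ) ^ c⌋₊ ⌊(d : ℝ) ^ (1 / 2 + 256 * η2)⌋₊ Λ2).card : ℝ) <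
          (⌊(d : ℝ) ^ (1 / 2 + 256 * η2)⌋₊ : ℝ) * (d : ℝ) ^ (-(64 * η2)) := by
  classical
  have hη0 : 0 < η := by linarith
  set T : ℕ := 2 ^ ⌈2 / c⌉₊ with hT
  have hT1 : 1 ≤ T := Nat.one_le_two_pow
  have hT0 : (0 : ℝ) < T := by exact_mod_cast hT1
  have hM00 : (0 : ℝ) < M0 := by exact_mod_cast hM0
  -- the lower bound, trivial if `s` is large
  have hRC : ∃ d1 : ℕ, s < 1 → ∀ d : ℕ, d1 ≤ d → ∀ z : ℕ, (z : ℝ) ≤ (d : ℝ) ^ (s / 8 / 2) → ∀ M : ℕ, 1 ≤ M →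
      (M : ℝ) ≤ (d : ℝ) ^ (2 : ℝ) → (M : ℝ) * (d : ℝ) ^ (-(2 * (s / 8))) ≤ ((RC d z M).card : ℝ) := by
    by_cases h : s < 1
    · obtain ⟨d1, hd1⟩ := RC_lower (s / 8) (by positivity) (by linarith)
      exact ⟨d1, fun _ => hd1⟩
    · exact ⟨0, fun h2 => absurd h2 h⟩
  obtain ⟨d1, hd1⟩ := hRC
  obtain ⟨d0, hd0⟩ := Filter.eventually_atTop.mp ((Filter.eventually_ge_atTop (max d1 2)).and
    (E1_ev (s / 4) (4 * T * M0) (by positivity)))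
  refine ⟨d0, fun d hd _ H Λ hH hΛ hExc => ?_⟩
  obtain ⟨g1, g2⟩ := hd0 d hd
  have hd2 : 2 ≤ d := (le_max_right _ _).trans g1
  have hx2 : (2 : ℝ) ≤ d := by exact_mod_cast hd2
  have hx1 : (1 : ℝ) ≤ d := by linarith
  have hx0 : (0 : ℝ) < d := by linarith
  set z : ℕ := ⌊(d : ℝ) ^ c⌋₊ with hz
  have hNle : (⌊(d : ℝ) ^ (1 / 2 + 256 * η)⌋₊ : ℝ) ≤ (d : ℝ) ^ (1 / 2 + 256 * η) :=
    Nat.floor_le (by positivity)
  have hN2N : ⌊(d : ℝ) ^ (1 / 2 + 256 * η2)⌋₊ ≤ ⌊(d : ℝ) ^ (1 / 2 + 256 * η)⌋₊ :=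
    Nat.floor_le_floor (Real.rpow_le_rpow_of_exponent_le hx1 (by linarith))
  have hN21 : 1 ≤ ⌊(d : ℝ) ^ (1 / 2 + 256 * η2)⌋₊ := by
    refine Nat.le_floor ?_
    rw [Nat.cast_one]
    exact Real.one_le_rpow hx1 (by linarith)
  set N : ℕ := ⌊(d : ℝ) ^ (1 / 2 + 256 * η)⌋₊ with hN
  set N2 : ℕ := ⌊(d : ℝ) ^ (1 / 2 + 256 * η2)⌋₊ with hN2
  have hN20 : (0 : ℝ) < N2 := by exact_mod_cast hN21
  have hfinal : (N2 : ℝ) * (d : ℝ) ^ (-(s / 2)) ≤ (N2 : ℝ) * (d : ℝ) ^ (-(64 * η2)) :=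
    mul_le_mul_of_nonneg_left (Real.rpow_le_rpow_of_exponent_le hx1 (by linarith)) hN20.le
  by_cases hs1 : s < 1
  · -- the main case
    set M : ℕ := N / N2 with hM
    have hM1 : 1 ≤ M := (Nat.one_le_div_iff hN21).mpr hN2N
    have hMN : N2 * M ≤ N := Nat.mul_div_le N N2
    have hMN2 : N ≤ 2 * (N2 * M) := by
      have h1 : N < N2 * (M + 1) := by
        have := Nat.lt_mul_div_succ N hN21
        simpa using this
      nlinarith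
    have hM1' : (1 : ℝ) ≤ M := by exact_mod_cast hM1
    have hM0' : (0 : ℝ) < M := by linarith
    have hNd : (N : ℝ) ≤ (d : ℝ) ^ (2 : ℝ) :=
      hNle.trans (Real.rpow_le_rpow_of_exponent_le hx1 (by linarith))
    have hMd : (M : ℝ) ≤ (d : ℝ) ^ (2 : ℝ) := by
      have : (M : ℝ) ≤ N := by exact_mod_cast Nat.div_le_self N N2
      exact this.trans hNd
    have hzle : (z : ℝ) ≤ (d : ℝ) ^ (s / 8 / 2) :=
      (Nat.floor_le (by positivity)).trans (Real.rpow_le_rpow_of_exponent_le hx1 (by linarith))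
    have hR := hd1 hs1 d ((le_max_left _ _).trans g1) z hzle M hM1 hMd
    obtain ⟨g0, s0, B, hs0, hBR, hB2, hBc⟩ := fibre M0 hM0 H hH (RC d z M)
    have hTn : ∀ n ∈ RC d z N, n.divisors.card ≤ T := by
      intro n hn
      unfold RC at hn
      rw [mem_filter, mem_Icc] at hn
      have h1 : (n : ℝ) ≤ N := by exact_mod_cast hn.1.2
      exact rough_divisors c hc d hd2 n hn.2.1 (h1.trans hNd)
    obtain ⟨Λ2, hΛ2, hE⟩ := transfer_fixed z N2 M N T hMN H Λ hΛ g0 s0 hs0 B hBR hB2 hTn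
    refine ⟨Λ2, hΛ2, lt_of_lt_of_le ?_ hfinal⟩
    have e1 : -(2 * (s / 8)) = -(s / 4) := by ring
    rw [e1] at hR
    set q : ℝ := (d : ℝ) ^ (-(s / 4)) with hq
    have hq0 : 0 < q := by positivity
    -- `#Exc2 * (M q) ≤ 2 M0 #Exc2 #B ≤ 2 M0 T #Exc < 2 M0 T N d^(-s) ≤ 4 M0 T N2 M q^4`
    set X : ℝ := ((Exc d z N2 Λ2).card : ℝ) with hX
    have hX0 : 0 ≤ X := Nat.cast_nonneg _
    have e2 : (d : ℝ) ^ (-s) = q ^ 4 := by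
      rw [hq, ← Real.rpow_natCast, ← Real.rpow_mul hx0.le]
      congr 1
      push_cast
      ring
    have e3 : (d : ℝ) ^ (-(s / 2)) = q ^ 2 := by
      rw [hq, ← Real.rpow_natCast, ← Real.rpow_mul hx0.le]
      congr 1
      push_cast
      ring
    have e4 : 4 * T * M0 * q < 1 := by
      have h1 : (d : ℝ) ^ (s / 4) * q = 1 := by
        rw [hq, ← Real.rpow_add hx0]
        simp
      rw [← h1]
      exact mul_lt_mul_of_pos_right g2 hq0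
    have h1 : X * (M * q) ≤ X * (2 * M0 * (B.card : ℝ)) := mul_le_mul_of_nonneg_left (hR.trans hBc) hX0
    have h2 : X * (2 * M0 * (B.card : ℝ)) = 2 * M0 * (X * (B.card : ℝ)) := by ring
    have h3 : 2 * M0 * (X * (B.card : ℝ)) ≤ 2 * M0 * (T * ((Exc d z N Λ).card : ℝ)) :=
      mul_le_mul_of_nonneg_left hE (by positivity)
    have h4 : 2 * M0 * (T * ((Exc d z N Λ).card : ℝ)) < 2 * M0 * (T * ((N : ℝ) * (d : ℝ) ^ (-s))) := by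
      have h5 : (T : ℝ) * ((Exc d z N Λ).card : ℝ) < T * ((N : ℝ) * (d : ℝ) ^ (-s)) :=
        mul_lt_mul_of_pos_left hExc hT0
      exact mul_lt_mul_of_pos_left h5 (by positivity)
    rw [e2] at h4
    have h6 : (N : ℝ) ≤ 2 * (N2 * M) := by exact_mod_cast hMN2
    have h7 : 2 * M0 * (T * ((N : ℝ) * q ^ 4)) ≤ 2 * M0 * (T * ((2 * (N2 * M)) * q ^ 4)) := by
      have : (N : ℝ) * q ^ 4 ≤ (2 * (N2 * M)) * q ^ 4 := mul_le_mul_of_nonneg_right h6 (by positivity)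
      have h8 : (T : ℝ) * ((N : ℝ) * q ^ 4) ≤ T * ((2 * (N2 * M)) * q ^ 4) :=
        mul_le_mul_of_nonneg_left this hT0.le
      exact mul_le_mul_of_nonneg_left h8 (by positivity)
    have h9 : 2 * M0 * (T * ((2 * (N2 * M)) * q ^ 4)) = (4 * T * M0 * q) * (N2 * q ^ 2 * (M * q)) := by ring
    have h10 : (4 * T * M0 * q) * (N2 * q ^ 2 * (M * q)) ≤ 1 * (N2 * q ^ 2 * (M * q)) :=
      mul_le_mul_of_nonneg_right e4.le (by positivity)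
    have h11 : X * (M * q) < (N2 * q ^ 2) * (M * q) := by
      calc X * (M * q) ≤ 2 * M0 * (X * (B.card : ℝ)) := by rw [← h2]; exact h1
        _ ≤ 2 * M0 * (T * ((Exc d z N Λ).card : ℝ)) := h3
        _ < 2 * M0 * (T * ((N : ℝ) * q ^ 4)) := h4
        _ ≤ (4 * T * M0 * q) * (N2 * q ^ 2 * (M * q)) := by rw [← h9]; exact h7
        _ ≤ (N2 * q ^ 2) * (M * q) := by rw [one_mul] at h10; exact h10
    rw [e3]
    exact lt_of_mul_lt_mul_right h11 (by positivity)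
  · -- large `s`: no exceptions at all
    have h1 : ((Exc d z N Λ).card : ℝ) < 1 := by
      refine lt_of_lt_of_le hExc ?_
      calc (N : ℝ) * (d : ℝ) ^ (-s) ≤ (d : ℝ) ^ (1 / 2 + 256 * η) * (d : ℝ) ^ (-s) :=
            mul_le_mul_of_nonneg_right hNle (by positivity)
        _ = (d : ℝ) ^ (1 / 2 + 256 * η + -s) := (Real.rpow_add hx0 _ _).symm
        _ ≤ (d : ℝ) ^ (0 : ℝ) := Real.rpow_le_rpow_of_exponent_le hx1 (by linarith)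
        _ = 1 := Real.rpow_zero _
    have h2 : (Exc d z N Λ).card = 0 := by
      have : (Exc d z N Λ).card < 1 := by exact_mod_cast h1
      omega
    have h3 : (Exc d z N2 Λ).card = 0 := by
      have := Finset.card_le_card (E1_mono (d := d) (z := z) hN2N Λ)
      omega
    refine ⟨Λ, hΛ, ?_⟩
    rw [h3, Nat.cast_zero]
    positivity

end Pool.Agent.Lib.MP_42948a_nt.PS
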