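import Pool.Agent.Lib.MP_42948a_nt.PS.Defs

/-!
# Restriction of a model to shorter numbers, one modulus (job E1a)

`fibre`: the map `m ↦ (QuotientGroup.mk (ucl m), Ω(m) % 2)` on `R'` has at most `2 * H.index ≤ 2 M0` values (`H.index * Nat.card H = φ ≤ M0 Nat.card H`, `Nat.card H > 0`; e.g.
`Subgroup.card_mul_index`/`index_mul_card`), so some fibre `B` has `#R' ≤ 2 M0 #B` (`Finset.exists_le_card_fiber_of_mul_le_card_of_maps_to` or
`Finset.card_le_mul_card_image`, or: if all fibres had `2 M0 #B < #R'` the sum over the fibres would be `< #R'`; the case `R' = ∅` is trivial, `B = ∅`). `g0 = ucl m0` for one `m0 ∈ B`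
(or `1` if `B = ∅`), `s0 = lio m0`. `lio m = (-1)^Ω(m)`.
`transfer_fixed`: `Λ2 g = s0 * Λ (g * g0)`; `Mod H Λ2` (`G` commutative; values `±1`). If `a ∈ Exc d z N2 Λ2` and `m ∈ B` then `a m ∈ RC d z N` (`Rough.mul`, `a m ≤ N2 M ≤ N`), and
`Λ (ucl (a m)) = Λ (ucl a * g0 * h) = Λ (ucl a * g0) = s0 Λ2 (ucl a) ≠ s0 lio a = lio (a m)` (`lio_mul`, `ucl_mul`), so `a m ∈ Exc d z N Λ`. Each `n ∈ Exc d z N Λ` comes from
at most `#divisors n ≤ T` pairs (copy the private theorem `G12_count` from `TQ/G12.lean`, for `S = Exc2 ×ˢ B`, the `E = Exc d z N Λ`). So `#Exc2 * #B ≤ T #Exc`.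
-/

namespace Pool.Agent.Lib.MP_42948a_nt.PS

open Finset Pool.Agent.Lib.MP_42948a_nt.OA Pool.Agent.Lib.MP_42948a_nt.AC Pool.Agent.Lib.MP_42948a_nt.TQ

/-- pairs with product in `E` -/
private theorem E1a_count (S : Finset (ℕ × ℕ)) (E : Finset ℕ) (T : ℕ)
    (hS : ∀ q ∈ S, 0 < q.1 ∧ q.1 * q.2 ∈ E)
    (hE : ∀ n ∈ E, 0 < n ∧ n.divisors.card ≤ T) : S.card ≤ T * E.card := by
  refine card_le_mul_card_image_of_maps_to (f := fun q : ℕ × ℕ => q.1 * q.2) (fun q hq => (hS q hq).2) T ?_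
  intro n hn
  refine le_trans ?_ (hE n hn).2
  refine card_le_card_of_injOn Prod.fst ?_ ?_
  · intro q hq
    rw [mem_coe, mem_filter] at hq
    rw [mem_coe, Nat.mem_divisors]
    exact ⟨⟨q.2, hq.2.symm⟩, (hE n hn).1.ne'⟩
  · intro q hq q' hq' he
    rw [mem_coe, mem_filter] at hq hq'
    have h1 : q.1 * q.2 = q'.1 * q'.2 := hq.2.trans hq'.2.symm
    rw [← he] at h1
    exact Prod.ext he (Nat.eq_of_mul_eq_mul_left (hS _ hq.1).1 h1)

private theorem E1a_RC {d z M a : ℕ} (ha : a ∈ RC d z M) : 0 < a ∧ a ≤ M ∧ Rough z a ∧ a.Coprime d := by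
  classical
  unfold RC at ha
  rw [mem_filter, mem_Icc] at ha
  exact ⟨ha.1.1, ha.1.2, ha.2.1, ha.2.2⟩


theorem fibre {d : ℕ} [NeZero d] (M0 : ℕ) (hM0 : 1 ≤ M0) (H : Subgroup (ZMod d)ˣ)
    (hH : (Fintype.card (ZMod d)ˣ : ℝ) ≤ M0 * (Nat.card H : ℝ)) (R' : Finset ℕ) :
    ∃ (g0 : (ZMod d)ˣ) (s0 : ℝ) (B : Finset ℕ), (s0 = 1 ∨ s0 = -1) ∧ B ⊆ R' ∧
      (∀ m ∈ B, g0⁻¹ * ucl d m ∈ H ∧ lio m = s0) ∧ (R'.card : ℝ) ≤ 2 * M0 * (B.card : ℝ) := by
  classical
  have hHpos : 0 < (Nat.card H : ℝ) := by exact_mod_cast Nat.card_pos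
  have hidx : (H.index : ℝ) ≤ M0 := by
    have h1 : H.index * Nat.card H = Nat.card (ZMod d)ˣ := H.index_mul_card
    rw [Nat.card_eq_fintype_card (α := (ZMod d)ˣ)] at h1
    have h2 : (H.index : ℝ) * (Nat.card H : ℝ) = (Fintype.card (ZMod d)ˣ : ℝ) := by exact_mod_cast h1
    rw [← h2] at hH
    exact le_of_mul_le_mul_right hH hHpos
  rcases R'.eq_empty_or_nonempty with hR | hR
  · refine ⟨1, 1, ∅, Or.inl rfl, empty_subset _, fun m hm => absurd hm (notMem_empty m), ?_⟩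
    rw [hR]
    simp
  · let f : ℕ → ((ZMod d)ˣ ⧸ H) × Bool := fun m => (QuotientGroup.mk (ucl d m), decide (lio m = 1))
    have ht : (R'.image f).Nonempty := hR.image f
    have htc : (0 : ℝ) < ((R'.image f).card : ℝ) := by exact_mod_cast ht.card_pos
    have htc2 : ((R'.image f).card : ℝ) ≤ 2 * M0 := by
      have h1 : (R'.image f).card ≤ Nat.card (((ZMod d)ˣ ⧸ H) × Bool) := by
        have h2 := card_le_univ (R'.image f)
        rwa [← Nat.card_eq_fintype_card] at h2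
      rw [Nat.card_prod] at h1
      have h3 : Nat.card ((ZMod d)ˣ ⧸ H) = H.index := rfl
      rw [h3, Nat.card_eq_fintype_card, Fintype.card_bool] at h1
      have h4 : ((R'.image f).card : ℝ) ≤ (H.index : ℝ) * 2 := by exact_mod_cast h1
      linarith
    obtain ⟨y, hy, hyc⟩ := exists_le_card_fiber_of_nsmul_le_card_of_maps_to (s := R')
      (t := R'.image f) (f := f) (b := (R'.card : ℝ) / ((R'.image f).card : ℝ))
      (fun a ha => mem_image_of_mem f ha) ht (by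
        rw [nsmul_eq_mul, mul_div_cancel₀ _ htc.ne'])
    obtain ⟨m0, hm0, hy0⟩ := mem_image.1 hy
    refine ⟨ucl d m0, lio m0, R'.filter (fun x => f x = y), lio_val m0, filter_subset _ _, ?_, ?_⟩
    · intro m hm
      rw [mem_filter, ← hy0] at hm
      have h1 : (QuotientGroup.mk (ucl d m) : (ZMod d)ˣ ⧸ H) = QuotientGroup.mk (ucl d m0) :=
        congrArg Prod.fst hm.2
      have h2 : decide (lio m = 1) = decide (lio m0 = 1) := congrArg Prod.snd hm.2
      refine ⟨QuotientGroup.eq.1 h1.symm, ?_⟩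
      rw [decide_eq_decide] at h2
      rcases lio_val m with h3 | h3 <;> rcases lio_val m0 with h4 | h4
      · rw [h3, h4]
      · have := h2.1 h3
        rw [h4] at this
        norm_num at this
      · have := h2.2 h4
        rw [h3] at this
        norm_num at this
      · rw [h3, h4]
    · rw [div_le_iff₀ htc] at hyc
      have hB0 : (0 : ℝ) ≤ ((R'.filter (fun x => f x = y)).card : ℝ) := Nat.cast_nonneg _
      have h1 := mul_le_mul_of_nonneg_left htc2 hB0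
      linarith

theorem transfer_fixed {d : ℕ} [NeZero d] (z N2 M N T : ℕ) (hN : N2 * M ≤ N) (H : Subgroup (ZMod d)ˣ)
    (Λ : (ZMod d)ˣ → ℝ) (hΛ : Mod H Λ) (g0 : (ZMod d)ˣ) (s0 : ℝ) (hs0 : s0 = 1 ∨ s0 = -1) (B : Finset ℕ)
    (hB : B ⊆ RC d z M) (hB2 : ∀ m ∈ B, g0⁻¹ * ucl d m ∈ H ∧ lio m = s0)
    (hT : ∀ n ∈ RC d z N, n.divisors.card ≤ T) :
    ∃ Λ2 : (ZMod d)ˣ → ℝ, Mod H Λ2 ∧ ((Exc d z N2 Λ2).card : ℝ) * (B.card : ℝ) ≤ T * ((Exc d z N Λ).card : ℝ) := by
  classical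
  refine ⟨fun g => s0 * Λ (g * g0), ⟨fun g => ?_, fun g h hh => ?_⟩, ?_⟩
  · show s0 * Λ (g * g0) = 1 ∨ s0 * Λ (g * g0) = -1
    rcases hs0 with h1 | h1 <;> rcases hΛ.1 (g * g0) with h2 | h2 <;> rw [h1, h2] <;> norm_num
  · have h1 : g * h * g0 = g * g0 * h := by
      rw [mul_assoc, mul_comm h g0, ← mul_assoc]
    show s0 * Λ (g * h * g0) = s0 * Λ (g * g0)
    rw [h1, hΛ.2 _ h hh]
  · have hcount : (Exc d z N2 (fun g => s0 * Λ (g * g0)) ×ˢ B).card ≤ T * (Exc d z N Λ).card := by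
      refine E1a_count _ _ T ?_ ?_
      · intro q hq
        rw [mem_product] at hq
        obtain ⟨h1, h2⟩ := hq
        unfold Exc at h1
        rw [mem_filter] at h1
        obtain ⟨h1, h3⟩ := h1
        obtain ⟨a1, a2, a3, a4⟩ := E1a_RC h1
        obtain ⟨b1, b2, b3, b4⟩ := E1a_RC (hB h2)
        obtain ⟨c1, c2⟩ := hB2 _ h2
        refine ⟨a1, ?_⟩
        unfold Exc
        rw [mem_filter]
        refine ⟨?_, ?_⟩
        · unfold RC
          rw [mem_filter, mem_Icc]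
          exact ⟨⟨Nat.mul_pos a1 b1, (Nat.mul_le_mul a2 b2).trans hN⟩, a3.mul b3,
            Nat.Coprime.mul_left a4 b4⟩
        · intro h4
          apply h3
          show s0 * Λ (ucl d q.1 * g0) = lio q.1
          have h5 : ucl d (q.1 * q.2) = ucl d q.1 * g0 * (g0⁻¹ * ucl d q.2) := by
            rw [ucl_mul a4 b4]
            group
          rw [h5, hΛ.2 _ _ c1, lio_mul a1 b1, c2] at h4
          rw [h4]
          rcases hs0 with h6 | h6 <;> rw [h6] <;> ring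
      · intro n hn
        unfold Exc at hn
        rw [mem_filter] at hn
        exact ⟨(E1a_RC hn.1).1, hT n hn.1⟩
    rw [card_product] at hcount
    exact_mod_cast hcount

end Pool.Agent.Lib.MP_42948a_nt.PS
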