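import Pool.Agent.Lib.MP_42948a_nt.PS.Defs
import Pool.Agent.Lib.MP_42948a_nt.TQ.G7
import Pool.Agent.Lib.MP_42948a_nt.TQ.G9
import Pool.Agent.Lib.MP_42948a_nt.TQ.E9

/-!
# The model function does not exist (job E2)

The second half of the proof of `one_scale2` (`TQ/G12.lean`; copy), with the trivial `ρ`: `coset_low` for the index bound `M0`, `lam_hom`
with `ρ = 1`, `imitation_contra`.
-/

namespace Pool.Agent.Lib.MP_42948a_nt.PS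

open Finset Pool.Agent.Lib.MP_42948a_nt.OA Pool.Agent.Lib.MP_42948a_nt.AC Pool.Agent.Lib.MP_42948a_nt.TQ

private theorem E2_large (r C : ℝ) (hr : 0 < r) : ∃ d0 : ℕ, ∀ d : ℕ, d0 ≤ d → C ≤ (d : ℝ) ^ r := by
  have h := (tendsto_rpow_atTop hr).comp tendsto_natCast_atTop_atTop
  obtain ⟨d0, h0⟩ := Filter.eventually_atTop.1 (h.eventually_ge_atTop C)
  exact ⟨d0, fun d hd => h0 d hd⟩

/-- pairs with product in `E` -/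
private theorem E2_count (S : Finset (ℕ × ℕ)) (E : Finset ℕ) (T : ℕ) (hS : ∀ q ∈ S, 0 < q.1 ∧ q.1 * q.2 ∈ E)
    (hE : ∀ n ∈ E, 0 < n ∧ n.divisors.card ≤ T) : S.card ≤ T * E.card := by
  refine card_le_mul_card_image_of_maps_to (f := fun q : ℕ × ℕ => q.1 * q.2) (fun q hq => (hS q hq).2) T ?_
  intro n hn
  refine le_trans ?_ (hE n hn).2
  refine card_le_card_of_injOn Prod.fst ?_ ?_
  · intro q hq
    rw [mem_coe, mem_filter] at hq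
    rw [mem_coe, Nat.mem_divisors]
    exact ⟨⟨q.2, hq.2.symm⟩, (hE n hn).1.ne'⟩
  · intro q hq q' hq' he
    rw [mem_coe, mem_filter] at hq hq'
    have h1 : q.1 * q.2 = q'.1 * q'.2 := hq.2.trans hq'.2.symm
    rw [← he] at h1
    exact Prod.ext he (Nat.eq_of_mul_eq_mul_left (hS _ hq.1).1 h1)

/-- `T N d^(-64η) ≤ s^2/4` -/
private theorem E2_num (η T N E x : ℝ) (hx : 0 < x) (hT : 4 * T ≤ x ^ (60 * η)) (hT0 : 0 ≤ T)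
    (hN : N ≤ x ^ (1 / 2 + 256 * η)) (hE : E ≤ N * x ^ (-(64 * η))) :
    T * E ≤ (x ^ (1 / 4 + 126 * η)) ^ 2 / 4 := by
  have h1 : (x ^ (1 / 4 + 126 * η)) ^ 2 = x ^ (60 * η) * (x ^ (1 / 2 + 256 * η) * x ^ (-(64 * η))) := by
    rw [← Real.rpow_natCast, ← Real.rpow_mul hx.le, ← Real.rpow_add hx, ← Real.rpow_add hx]
    congr 1
    push_cast
    ring
  have h2 : E ≤ x ^ (1 / 2 + 256 * η) * x ^ (-(64 * η)) :=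
    hE.trans (mul_le_mul_of_nonneg_right hN (Real.rpow_nonneg hx.le _))
  have h3 : 0 ≤ x ^ (1 / 2 + 256 * η) * x ^ (-(64 * η)) := by positivity
  rw [h1]
  have h4 := mul_le_mul_of_nonneg_left h2 hT0
  have h5 := mul_le_mul_of_nonneg_right hT h3
  linarith

open Classical in
theorem model_contra (hBur : BurgessProp) (K0 : ℕ) (hK0 : SieveProp K0) (M0 : ℕ) (hM0 : 1 ≤ M0) (η : ℝ) (hη : 0 < η)
    (hη1 : η ≤ 1 / 1024) :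
    ∃ c1 : ℝ, 0 < c1 ∧ ∀ (K : ℕ) (c : ℝ), SieveProp K → c * (16 * (3 * K + 4)) = η → c ≤ c1 →
    ∃ d0 : ℕ, ∀ d : ℕ, d0 ≤ d → ∀ [NeZero d], ∀ (H : Subgroup (ZMod d)ˣ) (Λ : (ZMod d)ˣ → ℝ),
      (Fintype.card (ZMod d)ˣ : ℝ) ≤ M0 * (Nat.card H : ℝ) → Mod H Λ →
      ¬ ((Exc d ⌊(d : ℝ) ^ c⌋₊ ⌊(d : ℝ) ^ (1 / 2 + 256 * η)⌋₊ Λ).card : ℝ) <
        (⌊(d : ℝ) ^ (1 / 2 + 256 * η)⌋₊ : ℝ) * (d : ℝ) ^ (-(64 * η)) := by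
  obtain ⟨c1, hc1, hlow⟩ := coset_low hBur K0 hK0 M0 hM0 η hη hη1
  refine ⟨c1, hc1, fun K c hK hc hcc1 => ?_⟩
  have hK00 : (0 : ℝ) ≤ (K : ℝ) := Nat.cast_nonneg K
  have hc0 : 0 < c := by
    by_contra hcon
    have := mul_nonpos_of_nonpos_of_nonneg (not_lt.1 hcon) (by linarith : (0 : ℝ) ≤ 16 * (3 * K + 4))
    linarith
  obtain ⟨d2, h2⟩ := hlow c hc0 hcc1
  obtain ⟨d3, h3⟩ := imitation_contra K hK η c hη hη1 hc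
  obtain ⟨d4, h4⟩ := E2_large (60 * η) (4 * (((2 ^ ⌈2 / c⌉₊ : ℕ) : ℝ))) (by positivity)
  refine ⟨d2 + d3 + d4 + 2, fun d hd _ H Λ hφH hΛ0 hE => ?_⟩
  obtain ⟨hΛ, hΛH0⟩ := hΛ0
  have hΛH : ∀ g, ∀ h ∈ H, Λ (g * h) = Λ g * rhoE (1 : H →* ℤˣ) h := by
    intro g h hh
    rw [hΛH0 g h hh]
    have e1 : rhoE (1 : H →* ℤˣ) h = 1 := by
      unfold rhoE
      rw [dif_pos hh]
      simp
    rw [e1, mul_one]
  unfold Exc at hE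
  have hd2 : 2 ≤ d := by omega
  have hdr2 : (2 : ℝ) ≤ (d : ℝ) := by exact_mod_cast hd2
  have hdr : (1 : ℝ) ≤ (d : ℝ) := by linarith
  have hdpos : (0 : ℝ) < (d : ℝ) := by linarith
  have hX := h2 d (by omega) H hφH
  have hMM : ⌊(d : ℝ) ^ (1 / 4 + 128 * η)⌋₊ * ⌊(d : ℝ) ^ (1 / 4 + 128 * η)⌋₊ ≤
      ⌊(d : ℝ) ^ (1 / 2 + 256 * η)⌋₊ := by
    refine Nat.le_floor ?_
    have e1 : (⌊(d : ℝ) ^ (1 / 4 + 128 * η)⌋₊ : ℝ) ≤ (d : ℝ) ^ (1 / 4 + 128 * η) :=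
      Nat.floor_le (by positivity)
    have e2 : (d : ℝ) ^ (1 / 2 + 256 * η) = (d : ℝ) ^ (1 / 4 + 128 * η) * (d : ℝ) ^ (1 / 4 + 128 * η) := by
      rw [← Real.rpow_add hdpos]
      congr 1
      ring
    rw [e2]
    push_cast
    exact mul_le_mul e1 e1 (Nat.cast_nonneg _) (by positivity)
  have hRM : ∀ a ∈ RC d ⌊(d : ℝ) ^ c⌋₊ ⌊(d : ℝ) ^ (1 / 4 + 128 * η)⌋₊,
      (0 < a ∧ a ≤ ⌊(d : ℝ) ^ (1 / 4 + 128 * η)⌋₊) ∧ Rough ⌊(d : ℝ) ^ c⌋₊ a ∧ a.Coprime d := by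
    intro a ha
    unfold RC at ha
    rw [mem_filter, mem_Icc] at ha
    exact ha
  have hcount : (((RC d ⌊(d : ℝ) ^ c⌋₊ ⌊(d : ℝ) ^ (1 / 4 + 128 * η)⌋₊ ×ˢ
        RC d ⌊(d : ℝ) ^ c⌋₊ ⌊(d : ℝ) ^ (1 / 4 + 128 * η)⌋₊).filter
        (fun q : ℕ × ℕ => Λ (ucl d (q.1 * q.2)) ≠ lio (q.1 * q.2))).card) ≤ 2 ^ ⌈2 / c⌉₊ *
      ((RC d ⌊(d : ℝ) ^ c⌋₊ ⌊(d : ℝ) ^ (1 / 2 + 256 * η)⌋₊).filter
        (fun a : ℕ => Λ (ucl d a) ≠ lio a)).card := by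
    refine E2_count _ _ _ ?_ ?_
    · intro q hq
      rw [mem_filter, mem_product] at hq
      obtain ⟨⟨g1, g2⟩, g3⟩ := hq
      obtain ⟨⟨a1, a2⟩, a3, a4⟩ := hRM _ g1
      obtain ⟨⟨b1, b2⟩, b3, b4⟩ := hRM _ g2
      refine ⟨a1, ?_⟩
      unfold RC
      rw [mem_filter, mem_filter, mem_Icc]
      exact ⟨⟨⟨Nat.mul_pos a1 b1, (Nat.mul_le_mul a2 b2).trans hMM⟩, a3.mul b3,
        Nat.Coprime.mul_left a4 b4⟩, g3⟩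
    · intro n hn
      unfold RC at hn
      rw [mem_filter, mem_filter, mem_Icc] at hn
      obtain ⟨⟨⟨n1, n2⟩, n3, _⟩, _⟩ := hn
      refine ⟨n1, rough_divisors c hc0 d hd2 n n3 ?_⟩
      have e1 : (n : ℝ) ≤ (d : ℝ) ^ (1 / 2 + 256 * η) := (Nat.le_floor_iff (by positivity)).1 n2
      exact e1.trans (Real.rpow_le_rpow_of_exponent_le hdr (by linarith))
  have hs : 0 < (d : ℝ) ^ (1 / 4 + 126 * η) := Real.rpow_pos_of_pos hdpos _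
  have hb : (((RC d ⌊(d : ℝ) ^ c⌋₊ ⌊(d : ℝ) ^ (1 / 4 + 128 * η)⌋₊ ×ˢ
        RC d ⌊(d : ℝ) ^ c⌋₊ ⌊(d : ℝ) ^ (1 / 4 + 128 * η)⌋₊).filter
        (fun q : ℕ × ℕ => Λ (ucl d (q.1 * q.2)) ≠ lio (q.1 * q.2))).card : ℝ) ≤
      ((d : ℝ) ^ (1 / 4 + 126 * η)) ^ 2 / 4 := by
    refine le_trans (by exact_mod_cast hcount) (E2_num η ((2 ^ ⌈2 / c⌉₊ : ℕ) : ℝ)
      (⌊(d : ℝ) ^ (1 / 2 + 256 * η)⌋₊ : ℝ)
      (((RC d ⌊(d : ℝ) ^ c⌋₊ ⌊(d : ℝ) ^ (1 / 2 + 256 * η)⌋₊).filter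
        (fun a : ℕ => Λ (ucl d a) ≠ lio a)).card : ℝ) (d : ℝ) hdpos (h4 d (by omega)) (Nat.cast_nonneg _)
      (Nat.floor_le (by positivity)) hE.le)
  obtain ⟨ψ, hψ⟩ := lam_hom (RC d ⌊(d : ℝ) ^ c⌋₊ ⌊(d : ℝ) ^ (1 / 4 + 128 * η)⌋₊)
    (fun a ha => ⟨(hRM a ha).1.1, (hRM a ha).2.2⟩) H 1 Λ hΛ hΛH ((d : ℝ) ^ (1 / 4 + 126 * η)) hs hX hb
  refine h3 d (by omega) ψ (le_trans ?_ hE.le)
  have hsub : Nm d ⌊(d : ℝ) ^ c⌋₊ ⌊(d : ℝ) ^ (1 / 2 + 256 * η)⌋₊ (chi ψ) ⊆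
      (RC d ⌊(d : ℝ) ^ c⌋₊ ⌊(d : ℝ) ^ (1 / 2 + 256 * η)⌋₊).filter (fun a : ℕ => Λ (ucl d a) ≠ lio a) := by
    intro n hn
    unfold Nm at hn
    rw [mem_filter] at hn
    obtain ⟨n1, n2⟩ := hn
    rw [mem_filter]
    refine ⟨n1, ?_⟩
    unfold RC at n1
    rw [mem_filter, mem_Icc] at n1
    rw [chi_eq ψ n (ucl d n) (ucl_val n1.2.2).symm, ← hψ] at n2
    exact n2
  exact_mod_cast card_le_card hsub

end Pool.Agent.Lib.MP_42948a_nt.PS
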