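import Pool.Agent.Lib.MP_42948a_nt.PS.D6
import Pool.Agent.Lib.MP_42948a_nt.PS.E1
import Pool.Agent.Lib.MP_42948a_nt.PS.E2
import Pool.Agent.Lib.MP_42948a_nt.TQ.Z8
import Pool.Agent.Lib.MP_42948a_nt.TQ.P1

/-!
# Few pure classes, power saving (job E3)

Parameters in this order: `M0, s, τ` from `pow_structure ε`; `K1` from `fund τ` (`TQ/A2.lean`), `K0` from `sieve` (as in `few_pure`, `TQ/G13.lean`); `η2 = s/256`
(`≤ ε/4096`, `128 η2 ≤ s`, `η2 ≤ 1/1024`); `c1` from `model_contra` (`K0`, `M0`, `η2`); `K ≥ max K0 K1` natural so large that `c = η2/(16(3K+4))` satisfies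
`c ≤ c1`, `c ≤ s/16`, `48 c ≤ ε/4096`. Then choose a natural `K' ≥ K` with `η = c (16 (3K'+4)) ∈ [ε/4096, ε/2048]` (`param`: the numbers `c (16(3K'+4))`, `K' ≥ K`, start at
`η2 ≤ ε/4096` and have step `48 c ≤ ε/4096`, so the first one `≥ ε/4096` is `≤ ε/2048`). `SieveProp K`, `Fund τ K'` by `SieveProp_mono`, `Fund_mono` (`TQ/Z8.lean`).
`z = ⌊d^c⌋`, `X = ⌊d^(1+ε)⌋`. `Full d z X` for large `d`: `full_large` (`TQ/Z1.lean`, with `K`, `η2`: `⌊d^(1+η2)⌋ ≤ X`). For `σ = ±1` let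
`E = univ.filter (FX d z X x = σ)`. Members satisfy `PurA d z X σ` (`FX_mem`). If `#E ≥ φ d^(-s/2)`: `pow_structure` (with `η`, `K'`, `c`), `transfer` and `model_contra`
(with `K`, `c`, `η2`) give a contradiction. So `#E < φ d^(-s/2)` for both signs and `#PX ≤ 2 φ d^(-s/2) ≤ φ d^(-s/4)` for large `d` (`FX_val`). `c' = s/4`.
-/

namespace Pool.Agent.Lib.MP_42948a_nt.PS

open Finset Pool.Agent.Lib.MP_42948a_nt.OA Pool.Agent.Lib.MP_42948a_nt.AC Pool.Agent.Lib.MP_42948a_nt.TQ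

theorem param (c ε η2 : ℝ) (K : ℕ) (hc : 0 < c) (hcK : c * (16 * (3 * K + 4)) = η2) (h1 : η2 ≤ ε / 4096)
    (h2 : 48 * c ≤ ε / 4096) : ∃ K' : ℕ, K ≤ K' ∧ ε / 4096 ≤ c * (16 * (3 * K' + 4)) ∧
      c * (16 * (3 * K' + 4)) ≤ ε / 2048 := by
  classical
  have hε : 0 ≤ ε := by linarith
  have hex : ∃ j : ℕ, ε / 4096 ≤ c * (16 * (3 * ((K : ℝ) + j) + 4)) := by
    obtain ⟨j, hj⟩ := exists_nat_ge (ε / c)
    refine ⟨j, ?_⟩
    rw [div_le_iff₀ hc] at hj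
    have h3 : (0 : ℝ) ≤ K := Nat.cast_nonneg K
    have h4 : (0 : ℝ) ≤ j := Nat.cast_nonneg j
    have h5 : (j : ℝ) * c ≤ (16 * (3 * ((K : ℝ) + j) + 4)) * c :=
      mul_le_mul_of_nonneg_right (by linarith) hc.le
    have h6 : (16 * (3 * ((K : ℝ) + j) + 4)) * c = c * (16 * (3 * ((K : ℝ) + j) + 4)) := by ring
    linarith
  refine ⟨K + Nat.find hex, Nat.le_add_right _ _, ?_, ?_⟩
  · have h3 := Nat.find_spec hex
    push_cast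
    exact h3
  · rcases Nat.eq_zero_or_pos (Nat.find hex) with h3 | h3
    · rw [h3, Nat.add_zero, hcK]
      linarith
    · have h4 : Nat.find hex - 1 < Nat.find hex := Nat.sub_lt h3 one_pos
      have h5 := Nat.find_min hex h4
      rw [not_le] at h5
      have h6 : ((Nat.find hex : ℕ) : ℝ) = ((Nat.find hex - 1 : ℕ) : ℝ) + 1 := by
        rw [Nat.cast_sub h3]
        push_cast
        ring
      push_cast
      rw [h6]
      have h7 : c * (16 * (3 * ((K : ℝ) + (((Nat.find hex - 1 : ℕ) : ℝ) + 1)) + 4)) =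
        c * (16 * (3 * ((K : ℝ) + ((Nat.find hex - 1 : ℕ) : ℝ)) + 4)) + 48 * c := by ring
      rw [h7]
      linarith

theorem few_pure_pow (hBur : BurgessProp) (ε : ℝ) (hε : 0 < ε) (hε1 : ε ≤ 1) :
    ∃ c c' : ℝ, 0 < c ∧ 0 < c' ∧ ∃ d0 : ℕ, ∀ d : ℕ, d0 ≤ d → ∀ [NeZero d],
      Full d ⌊(d : ℝ) ^ c⌋₊ ⌊(d : ℝ) ^ (1 + ε)⌋₊ ∧
        ((PX d ⌊(d : ℝ) ^ c⌋₊ ⌊(d : ℝ) ^ (1 + ε)⌋₊).card : ℝ) ≤ (Fintype.card (ZMod d)ˣ : ℝ) * (d : ℝ) ^ (-c') := by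
  classical
  obtain ⟨M0, s, τ, hM0, hs, hsε, hτ, hτ1, HP⟩ := pow_structure ε hε hε1
  obtain ⟨K1, hK1⟩ := fund τ hτ (by linarith)
  obtain ⟨K2, hK2⟩ := sieve
  obtain ⟨η2, hη2d⟩ : ∃ η2 : ℝ, η2 = s / 256 := ⟨_, rfl⟩
  have hη20 : 0 < η2 := by rw [hη2d]; positivity
  have hη2ε : η2 ≤ ε / 4096 := by rw [hη2d]; linarith
  have hη2s : 128 * η2 ≤ s := by rw [hη2d]; linarith
  obtain ⟨c1, hc1, HM⟩ := model_contra hBur K2 hK2 M0 hM0 η2 hη20 (by linarith)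
  obtain ⟨m, hmd⟩ : ∃ m : ℝ, m = min c1 (min (s / 16) (ε / 4096 / 48)) := ⟨_, rfl⟩
  have hm0 : 0 < m := by rw [hmd]; exact lt_min hc1 (lt_min (by positivity) (by positivity))
  have hm1 : m ≤ c1 := by rw [hmd]; exact min_le_left _ _
  have hm2 : m ≤ s / 16 := by rw [hmd]; exact (min_le_right _ _).trans (min_le_left _ _)
  have hm3 : m ≤ ε / 4096 / 48 := by rw [hmd]; exact (min_le_right _ _).trans (min_le_right _ _)
  obtain ⟨K3, hK3⟩ := exists_nat_ge (η2 / m)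
  obtain ⟨K, hKd⟩ : ∃ K : ℕ, K = max (max K1 K2) K3 := ⟨_, rfl⟩
  have hKK1 : K1 ≤ K := by rw [hKd]; exact (le_max_left _ _).trans (le_max_left _ _)
  have hKK2 : K2 ≤ K := by rw [hKd]; exact (le_max_right _ _).trans (le_max_left _ _)
  have hSK : SieveProp K := SieveProp_mono hKK2 hK2
  have hKK3 : (K3 : ℝ) ≤ K := by
    rw [hKd]
    exact_mod_cast le_max_right _ _
  have hKR : (0 : ℝ) ≤ K := Nat.cast_nonneg K
  obtain ⟨c, hcd⟩ : ∃ c : ℝ, c = η2 / (16 * (3 * (K : ℝ) + 4)) := ⟨_, rfl⟩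
  have hc : c * (16 * (3 * (K : ℝ) + 4)) = η2 := by
    rw [hcd]
    have : (16 * (3 * (K : ℝ) + 4)) ≠ 0 := by positivity
    field_simp
  have hc0 : 0 < c := by rw [hcd]; positivity
  have hcm : c ≤ m := by
    rw [hcd, div_le_iff₀ (by positivity)]
    have h1 : η2 ≤ (K3 : ℝ) * m := (div_le_iff₀ hm0).1 hK3
    have h3 : (K3 : ℝ) * m ≤ 16 * (3 * (K : ℝ) + 4) * m :=
      mul_le_mul_of_nonneg_right (by linarith) hm0.le
    linarith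
  obtain ⟨K', hKK', hη1, hη2⟩ := param c ε η2 K hc0 hc hη2ε (by linarith)
  have hF : ∀ z : ℕ, 2 ≤ z → ∃ u l : Finset ℕ → ℝ, Fund τ K' z u l := by
    intro z hz
    obtain ⟨u, l, h⟩ := hK1 z hz
    exact ⟨u, l, Fund_mono (hKK1.trans hKK') (by omega) h⟩
  obtain ⟨d1, hd1⟩ := HP _ hη1 hη2 K' c hF rfl (by linarith)
  obtain ⟨d2, hd2⟩ := transfer M0 hM0 s (c * (16 * (3 * (K' : ℝ) + 4))) η2 c hs (by linarith) hη20
    (by linarith) hη2s hc0 (by linarith)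
  obtain ⟨d3, hd3⟩ := HM K c hSK hc (by linarith)
  obtain ⟨d4, hd4⟩ := full_large K hSK η2 c hη20 hc
  have h5 : ∀ᶠ d : ℕ in Filter.atTop, (2 : ℝ) ≤ (d : ℝ) ^ (s / 4) :=
    ((tendsto_rpow_atTop (by positivity : 0 < s / 4)).comp tendsto_natCast_atTop_atTop).eventually_ge_atTop 2
  obtain ⟨d5, hd5⟩ := Filter.eventually_atTop.1 h5
  refine ⟨c, s / 4, hc0, by positivity, max (max (max d1 d2) (max d3 d4)) (max d5 1), ?_⟩
  intro d hd _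
  have g1 : d1 ≤ d := le_trans (le_trans (le_trans (le_max_left _ _) (le_max_left _ _)) (le_max_left _ _)) hd
  have g2 : d2 ≤ d := le_trans (le_trans (le_trans (le_max_right _ _) (le_max_left _ _)) (le_max_left _ _)) hd
  have g3 : d3 ≤ d := le_trans (le_trans (le_trans (le_max_left _ _) (le_max_right _ _)) (le_max_left _ _)) hd
  have g4 : d4 ≤ d := le_trans (le_trans (le_trans (le_max_right _ _) (le_max_right _ _)) (le_max_left _ _)) hd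
  have g5 : d5 ≤ d := le_trans (le_trans (le_max_left _ _) (le_max_right _ _)) hd
  have g6 : 1 ≤ d := le_trans (le_trans (le_max_right _ _) (le_max_right _ _)) hd
  have hdR : (1 : ℝ) ≤ d := by exact_mod_cast g6
  have hd0 : (0 : ℝ) < d := by linarith
  have hpow : ∀ {a b : ℝ}, a ≤ b → (d : ℝ) ^ a ≤ (d : ℝ) ^ b := fun hab =>
    Real.rpow_le_rpow_of_exponent_le hdR hab
  refine ⟨hd4 d g4 _ (Nat.floor_mono (hpow (by linarith))), ?_⟩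
  have key : ∀ σ : ℝ, (σ = 1 ∨ σ = -1) →
      ((univ.filter (fun x : (ZMod d)ˣ => FX d ⌊(d : ℝ) ^ c⌋₊ ⌊(d : ℝ) ^ (1 + ε)⌋₊ x = σ)).card : ℝ) ≤
        (Fintype.card (ZMod d)ˣ : ℝ) * (d : ℝ) ^ (-(s / 2)) := by
    intro σ hσ
    by_contra hcon
    rw [not_le] at hcon
    have hσ0 : σ ≠ 0 := by
      rcases hσ with h | h
      · rw [h]; norm_num
      · rw [h]; norm_num
    obtain ⟨H, Λ, hH1, hΛ1, hE1⟩ := hd1 d g1 ⌊(d : ℝ) ^ (1 + ε)⌋₊ le_rfl σ hσ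
      (univ.filter (fun x : (ZMod d)ˣ => FX d ⌊(d : ℝ) ^ c⌋₊ ⌊(d : ℝ) ^ (1 + ε)⌋₊ x = σ)) (by
        intro x hx n hn1 hn2 hn3
        rw [mem_filter] at hx
        rw [← FX_mem (by rw [hx.2]; exact hσ0) hn1 hn2 hn3, hx.2]) hcon.le
    obtain ⟨Λ2, hΛ2, hE2⟩ := hd2 d g2 H Λ hH1 hΛ1 hE1
    exact hd3 d g3 H Λ2 hH1 hΛ2 hE2
  have hsub : PX d ⌊(d : ℝ) ^ c⌋₊ ⌊(d : ℝ) ^ (1 + ε)⌋₊ ⊆
      (univ.filter (fun x : (ZMod d)ˣ => FX d ⌊(d : ℝ) ^ c⌋₊ ⌊(d : ℝ) ^ (1 + ε)⌋₊ x = 1)) ∪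
      (univ.filter (fun x : (ZMod d)ˣ => FX d ⌊(d : ℝ) ^ c⌋₊ ⌊(d : ℝ) ^ (1 + ε)⌋₊ x = -1)) := by
    intro x hx
    unfold PX at hx
    rw [mem_filter] at hx
    rw [mem_union, mem_filter, mem_filter]
    rcases FX_val d ⌊(d : ℝ) ^ c⌋₊ ⌊(d : ℝ) ^ (1 + ε)⌋₊ x with h | h | h
    · exact absurd h hx.2
    · exact Or.inl ⟨mem_univ _, h⟩
    · exact Or.inr ⟨mem_univ _, h⟩
  have hle : ((PX d ⌊(d : ℝ) ^ c⌋₊ ⌊(d : ℝ) ^ (1 + ε)⌋₊).card : ℝ) ≤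
      (Fintype.card (ZMod d)ˣ : ℝ) * (d : ℝ) ^ (-(s / 2)) + (Fintype.card (ZMod d)ˣ : ℝ) * (d : ℝ) ^ (-(s / 2)) := by
    refine le_trans ?_ (add_le_add (key 1 (Or.inl rfl)) (key (-1) (Or.inr rfl)))
    exact_mod_cast (card_le_card hsub).trans (card_union_le _ _)
  refine hle.trans ?_
  have h6 : (2 : ℝ) * (d : ℝ) ^ (-(s / 2)) ≤ (d : ℝ) ^ (-(s / 4)) := by
    have h7 : (d : ℝ) ^ (-(s / 4)) = (d : ℝ) ^ (s / 4) * (d : ℝ) ^ (-(s / 2)) := by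
      rw [← Real.rpow_add hd0]
      congr 1
      ring
    rw [h7]
    exact mul_le_mul_of_nonneg_right (hd5 d g5) (Real.rpow_nonneg hd0.le _)
  have h8 : (Fintype.card (ZMod d)ˣ : ℝ) * (2 * (d : ℝ) ^ (-(s / 2))) ≤
      (Fintype.card (ZMod d)ˣ : ℝ) * (d : ℝ) ^ (-(s / 4)) :=
    mul_le_mul_of_nonneg_left h6 (Nat.cast_nonneg _)
  linarith

end Pool.Agent.Lib.MP_42948a_nt.PS
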