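import Pool.Agent.Lib.MP_42948a_nt.PS.E3
import Pool.Agent.Lib.MP_42948a_nt.TQ.G14
import Pool.Agent.Lib.MP_42948a_nt.TQ.G15

/-!
# Both parities in almost all classes, power saving (job E4)

As `almost_all_chowla` (`TQ/G14.lean`, copy) with `few_pure_pow` for `min ε 1` in place of `few_pure`: the count is `≤ #PX ≤ φ d^(-c') ≤ d^(1-c')`
(`φ ≤ d`); take the minimum of `c` and `c'`-like constants as one `c`: with `c2 = min c c'` roughness `d^c2 < p` follows from `d^c < p` and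
`d^(1-c') ≤ d^(1-c2)`. `burgess_prop` is in `TQ/G15.lean`.
-/

namespace Pool.Agent.Lib.MP_42948a_nt.PS

open Finset Pool.Agent.Lib.MP_42948a_nt.OA Pool.Agent.Lib.MP_42948a_nt.AC Pool.Agent.Lib.MP_42948a_nt.TQ

private theorem E4_lio {n s : ℕ} (hs : s < 2) (h : lio n = (-1 : ℝ) ^ s) :
    ArithmeticFunction.cardFactors n % 2 = s := by
  unfold lio at h
  rcases Nat.even_or_odd (ArithmeticFunction.cardFactors n) with h1 | h1
  · rw [h1.neg_one_pow] at h
    have h2 : s = 0 := by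
      by_contra hne
      have : s = 1 := by omega
      rw [this] at h
      norm_num at h
    rw [h2]
    exact Nat.even_iff.1 h1
  · rw [h1.neg_one_pow] at h
    have h2 : s = 1 := by
      by_contra hne
      have : s = 0 := by omega
      rw [this] at h
      norm_num at h
    rw [h2]
    exact Nat.odd_iff.1 h1

open Classical in
theorem chowla_parity_power (ε : ℝ) (hε : 0 < ε) : ∃ c : ℝ, 0 < c ∧ ∃ d₀ : ℕ, ∀ d : ℕ, d₀ ≤ d →
    (((Finset.range d).filter (fun a : ℕ => a.Coprime d ∧ ∃ s : ℕ, s < 2 ∧ ¬ ∃ n : ℕ, 0 < n ∧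
        (n : ℝ) ≤ (d : ℝ) ^ (1 + ε) ∧ n ≡ a [MOD d] ∧ (∀ p : ℕ, p.Prime → p ∣ n → (d : ℝ) ^ c < p) ∧
        ArithmeticFunction.cardFactors n % 2 = s)).card : ℝ) ≤ (d : ℝ) ^ (1 - c) := by
  obtain ⟨c0, c', hc0, hc', d0, H⟩ := few_pure_pow burgess_prop (min ε 1) (lt_min hε one_pos) (min_le_right _ _)
  refine ⟨min c0 c', lt_min hc0 hc', max d0 1, fun d hd => ?_⟩
  have hd1 : 1 ≤ d := le_trans (le_max_right _ _) hd
  have hne : NeZero d := ⟨by omega⟩
  obtain ⟨hfull, hq⟩ := H d (le_trans (le_max_left _ _) hd)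
  set z := ⌊(d : ℝ) ^ c0⌋₊ with hz
  set X := ⌊(d : ℝ) ^ (1 + min ε 1)⌋₊ with hX
  have hdR : (1 : ℝ) ≤ d := by exact_mod_cast hd1
  have hd0 : (0 : ℝ) < d := by linarith
  have h4 : ((Finset.range d).filter (fun a : ℕ => a.Coprime d ∧ ∃ s : ℕ, s < 2 ∧ ¬ ∃ n : ℕ, 0 < n ∧
        (n : ℝ) ≤ (d : ℝ) ^ (1 + ε) ∧ n ≡ a [MOD d] ∧ (∀ p : ℕ, p.Prime → p ∣ n → (d : ℝ) ^ (min c0 c') < p) ∧
        ArithmeticFunction.cardFactors n % 2 = s)).card ≤ (PX d z X).card := by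
    refine Finset.card_le_card_of_injOn (fun a : ℕ => ucl d a) ?_ ?_
    · intro a ha
      obtain ⟨ha1, hcop, s, hs, hn⟩ := mem_filter.1 (mem_coe.1 ha)
      refine mem_coe.2 (mem_filter.2 ⟨mem_univ _, ?_⟩)
      rw [FX_ne_zero_iff hfull]
      have key : ¬ att d z X ((-1 : ℝ) ^ s) (ucl d a) := by
        rintro ⟨n, hn1, hn2, hn3, hn4⟩
        refine hn ⟨n, hn1.pos, ?_, ?_, ?_, E4_lio hs hn4⟩
        · have e1 : (n : ℝ) ≤ (d : ℝ) ^ (1 + min ε 1) :=
            (Nat.le_floor_iff (by positivity)).1 hn2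
          refine e1.trans (Real.rpow_le_rpow_of_exponent_le hdR ?_)
          have := min_le_left ε 1
          linarith
        · rw [← ZMod.natCast_eq_natCast_iff, hn3, ucl_val hcop]
        · intro p hp hpn
          exact lt_of_le_of_lt (Real.rpow_le_rpow_of_exponent_le hdR (min_le_left _ _))
            (Nat.lt_of_floor_lt (hn1.2 p hp hpn))
      rintro ⟨g1, g2⟩
      apply key
      have h01 : s = 0 ∨ s = 1 := by omega
      rcases h01 with h | h
      · rw [h, pow_zero]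
        exact g1
      · rw [h, pow_one]
        exact g2
    · intro a ha b hb hab
      obtain ⟨ha1, hcop, _⟩ := mem_filter.1 (mem_coe.1 ha)
      obtain ⟨hb1, hcop', _⟩ := mem_filter.1 (mem_coe.1 hb)
      have hab' : ucl d a = ucl d b := hab
      have e1 : (a : ZMod d) = (b : ZMod d) := by rw [← ucl_val hcop, ← ucl_val hcop', hab']
      rw [ZMod.natCast_eq_natCast_iff] at e1
      exact Nat.ModEq.eq_of_lt_of_lt e1 (mem_range.1 ha1) (mem_range.1 hb1)
  have h5 : (Fintype.card (ZMod d)ˣ : ℝ) ≤ (d : ℝ) := by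
    rw [ZMod.card_units_eq_totient]
    exact_mod_cast Nat.totient_le d
  have h6 : (0 : ℝ) ≤ (d : ℝ) ^ (-c') := Real.rpow_nonneg hd0.le _
  have h7 : (d : ℝ) * (d : ℝ) ^ (-c') = (d : ℝ) ^ (1 - c') := by
    rw [sub_eq_add_neg, Real.rpow_add hd0, Real.rpow_one]
  have h8 : (d : ℝ) ^ (1 - c') ≤ (d : ℝ) ^ (1 - min c0 c') := by
    refine Real.rpow_le_rpow_of_exponent_le hdR ?_
    have := min_le_right c0 c'
    linarith
  calc _ ≤ ((PX d z X).card : ℝ) := by exact_mod_cast h4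
    _ ≤ (Fintype.card (ZMod d)ˣ : ℝ) * (d : ℝ) ^ (-c') := hq
    _ ≤ (d : ℝ) * (d : ℝ) ^ (-c') := mul_le_mul_of_nonneg_right h5 h6
    _ = (d : ℝ) ^ (1 - c') := h7
    _ ≤ _ := h8

end Pool.Agent.Lib.MP_42948a_nt.PS
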